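import Pool.Agent.S5.CV.EdgeO
import Pool.Agent.H1TB.ChainGeoH

/-!
# Stage 3b, complex volume: combinatorics of a mixed chain

Region `i`: pivot `P_i`, slopes `S_{i,0}, ..., S_{i,a_i}`. `P_{i+1} = S_{i,a_i}`, `S_{i+1,0} = P_i`.
`S i = false`: `S_{i+1,1}` is the slope in front of the edge `P_i S_{i,a_i}`. `S i = true`:
`S_{i+1,1} = S_{i,a_i-1}`, the layers of the region `i` end at `k = a_i - 1`.
-/

namespace Pool.Agent.S5.CV

open Pool.Agent.H63.VC Pool.Agent.H63.VC5 Complex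
open Pool.Agent.S3.CV (cP cS clR om)

/-- The number of the layers of a region which is not the last one. -/
def lw (a : ℕ → ℕ) (S : ℕ → Bool) (i : ℕ) : ℕ := if S i then a i - 1 else a i

/-- The number of the layers before the region `i`. -/
def oM (a : ℕ → ℕ) (S : ℕ → Bool) : ℕ → ℕ
  | 0 => 0
  | i + 1 => oM a S i + lw a S i

/-- The pivot of the region `i` is at the left end. -/
def lfM (S : ℕ → Bool) (b : Bool) : ℕ → Bool
  | 0 => b
  | i + 1 => if S i then lfM S b i else !(lfM S b i)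

/-- The sign of the region `i`. -/
def sgM (S : ℕ → Bool) (b : Bool) (i : ℕ) : ℤ := if lfM S b i then 1 else -1

/-- The classes of the slopes at the left end, at the right end and behind the layer `k` of the
region `i`. -/
def CM (a : ℕ → ℕ) (S : ℕ → Bool) (b : Bool) (i k : ℕ) : Fin 3 × Fin 3 × Fin 3 :=
  if lfM S b i then (cP a b i, cS a b i k, cS a b i (k - 1))
  else (cS a b i k, cP a b i, cS a b i (k - 1))

/-- The layer at which the ordering changes. -/
def jjM (R : ℕ) (a : ℕ → ℕ) (S : ℕ → Bool) (b : Bool) : ℕ :=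
  if cS a b R (a R) = 0 then oM a S R + a R else if cP a b 0 = om R a b then 1 else lw a S 0

/-- The layers of the region `i`. -/
def layM (R : ℕ) (a : ℕ → ℕ) (S : ℕ → Bool) (i : ℕ) : Finset ℕ :=
  Finset.Icc (if i = 0 then 2 else 1) (if i = R then a i - 2 else lw a S i)

/-- The logarithm of the slope at the left end. -/
def lgLM (S : ℕ → Bool) (b : Bool) (LP : ℕ → ℂ) (lam : ℕ → ℕ → ℂ) (i k : ℕ) : ℂ :=
  if lfM S b i then LP i else lam i k

/-- The logarithm of the slope at the right end. -/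
def lgRM (S : ℕ → Bool) (b : Bool) (LP : ℕ → ℂ) (lam : ℕ → ℕ → ℂ) (i k : ℕ) : ℂ :=
  if lfM S b i then lam i k else LP i

/-- The logarithm of the slope in front. -/
def lgNM (a : ℕ → ℕ) (lam : ℕ → ℕ → ℂ) (i k : ℕ) : ℂ :=
  if k = a i then lam (i + 1) 1 else lam i (k + 1)

/-- The region of the edge `idx`. -/
def regM (R : ℕ) (a : ℕ → ℕ) (S : ℕ → Bool) (idx : ℕ) : ℕ :=
  Nat.findGreatest (fun i => oM a S i ≤ idx) R

/-- The constant of the complex volume. -/
noncomputable def KM (R : ℕ) (a : ℕ → ℕ) (S : ℕ → Bool) (b : Bool) : ℂ :=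
  (∑ i ∈ Finset.range (R + 1), (sgM S b i : ℂ) * (a i : ℂ) - (sgM S b 0 : ℂ) - (sgM S b R : ℂ)) / 3 +
    ∑ i ∈ Finset.range R, (if cS a b i (a i + 1) = -om R a b then (1 / 2 : ℂ) else 0) +
    ∑ i ∈ Finset.range (R + 1), (a i : ℂ) / 2

/-- The chains. -/
structure ConM (R : ℕ) (a : ℕ → ℕ) (S : ℕ → Bool) : Prop where
  hR : 1 ≤ R
  ha : ∀ i, i ≤ R → 2 ≤ a i
  hfst : S 0 = true → 3 ≤ a 0
  hlst : ∀ i, i + 1 = R → S i = true → 3 ≤ a (i + 1)
  hmid : ∀ i, i + 1 < R → S i = true → S (i + 1) = true → 3 ≤ a (i + 1)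

/-- The hinges of the Farey path. -/
structure FarM (A : List ℕ) (R : ℕ) (a : ℕ → ℕ) (S : ℕ → Bool) : Prop where
  sum : A.sum = oM a S R + a R
  hin : ∀ idx i k, i ≤ R → 1 ≤ k → (i < R → k ≤ lw a S i) → idx + 1 = oM a S i + k →
    (IsHinge A idx ↔ (i < R ∧ k = lw a S i) ∨ (0 < i ∧ k = 1 ∧ S (i - 1) = true))

variable {R : ℕ} {a : ℕ → ℕ} {S : ℕ → Bool} {b : Bool}

theorem oM_succ (a : ℕ → ℕ) (S : ℕ → Bool) (i : ℕ) : oM a S (i + 1) = oM a S i + lw a S i := rfl

theorem lw_true {i : ℕ} (h : S i = true) : lw a S i = a i - 1 := by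
  unfold lw
  rw [h]
  rfl

theorem lw_false {i : ℕ} (h : S i = false) : lw a S i = a i := by
  unfold lw
  rw [h]
  rfl

theorem lw_le (a : ℕ → ℕ) (S : ℕ → Bool) (i : ℕ) : lw a S i ≤ a i := by
  unfold lw
  split <;> omega

theorem le_lw (a : ℕ → ℕ) (S : ℕ → Bool) (i : ℕ) : a i - 1 ≤ lw a S i := by
  unfold lw
  split <;> omega

theorem ConM.lw1 (h : ConM R a S) {i : ℕ} (hi : i ≤ R) : 1 ≤ lw a S i := by
  have := h.ha i hi
  have := le_lw a S i
  omega

theorem ConM.lw0 (h : ConM R a S) : 2 ≤ lw a S 0 := by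
  have h1 := h.ha 0 (by omega)
  rcases hS : S 0 with _ | _
  · rw [lw_false hS]; exact h1
  · have := h.hfst hS
    rw [lw_true hS]; omega

theorem oM_mono (a : ℕ → ℕ) (S : ℕ → Bool) {i j : ℕ} (h : i ≤ j) : oM a S i ≤ oM a S j := by
  induction j, h using Nat.le_induction with
  | base => exact le_rfl
  | succ j _ ih => rw [oM_succ]; omega

theorem regM_eq {i k idx : ℕ} (hi : i ≤ R) (hk : 1 ≤ k) (hk2 : i < R → k ≤ lw a S i)
    (hidx : idx + 1 = oM a S i + k) : regM R a S idx = i := by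
  unfold regM
  rw [Nat.findGreatest_eq_iff]
  refine ⟨hi, fun _ => by omega, fun n hn hnR hle => ?_⟩
  have h5 := oM_mono a S (i := i + 1) (j := n) (by omega)
  rw [oM_succ] at h5
  have := hk2 (by omega)
  omega

theorem ConM.mem_lay (h : ConM R a S) {i k : ℕ} (hi : i ≤ R) :
    k ∈ layM R a S i ↔ 1 ≤ k ∧ (i = 0 → 2 ≤ k) ∧ (i < R → k ≤ lw a S i) ∧
      (i = R → k + 2 ≤ a i) := by
  have := h.ha i hi
  unfold layM
  rw [Finset.mem_Icc]
  split_ifs <;> omega

/-- The layers. -/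
theorem ConM.dec (h : ConM R a S) {idx : ℕ}
    (hidx : idx ∈ Finset.Icc 1 (oM a S R + a R - 3)) :
    ∃ i k, i ≤ R ∧ k ∈ layM R a S i ∧ 1 ≤ k ∧ (i < R → k ≤ lw a S i) ∧
      idx + 1 = oM a S i + k := by
  rw [Finset.mem_Icc] at hidx
  have haR := h.ha R le_rfl
  have hR := h.hR
  have h00 : oM a S 0 = 0 := rfl
  have h1 : oM a S (regM R a S idx) ≤ idx := by
    unfold regM
    exact Nat.findGreatest_spec (P := fun i => oM a S i ≤ idx) (m := 0) (Nat.zero_le _)
      (by show oM a S 0 ≤ idx; omega)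
  have h2 : regM R a S idx ≤ R := Nat.findGreatest_le R
  have h3 : regM R a S idx < R → idx < oM a S (regM R a S idx + 1) := by
    intro h
    by_contra h4
    exact Nat.findGreatest_is_greatest (P := fun i => oM a S i ≤ idx) (n := R)
      (k := regM R a S idx + 1) (Nat.lt_succ_self _) (by omega) (not_lt.1 h4)
  have h5 : regM R a S idx = R → idx + 1 - oM a S (regM R a S idx) + 2 ≤ a (regM R a S idx) := by
    intro h
    rw [h] at h1 ⊢
    omega
  rw [oM_succ] at h3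
  have h6 : regM R a S idx < R → idx + 1 - oM a S (regM R a S idx) ≤ lw a S (regM R a S idx) := by
    intro h
    have := h3 h
    omega
  refine ⟨regM R a S idx, idx + 1 - oM a S (regM R a S idx), h2, ?_, by omega, h6, by omega⟩
  rw [h.mem_lay h2]
  refine ⟨by omega, ?_, h6, h5⟩
  intro h
  rw [h]
  omega

theorem ConM.oM1 (h : ConM R a S) {i : ℕ} (hi : 1 ≤ i) : 2 ≤ oM a S i := by
  have h3 := oM_mono a S (i := 0 + 1) (j := i) (by omega)
  rw [oM_succ] at h3
  have := h.lw0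
  omega

theorem ConM.lay_bd (h : ConM R a S) {i k : ℕ} (hi : i ≤ R) (hk : k ∈ layM R a S i) :
    1 ≤ k ∧ (i < R → k ≤ lw a S i) ∧ 1 ≤ oM a S i + k - 1 ∧
      oM a S i + k - 1 ≤ oM a S R + a R - 3 := by
  obtain ⟨k1, k0, k2, kR⟩ := (h.mem_lay hi).1 hk
  have haR := h.ha R le_rfl
  refine ⟨k1, k2, ?_, ?_⟩
  · by_cases hi0 : i = 0
    · have := k0 hi0
      omega
    · have := h.oM1 (i := i) (by omega)
      omega
  · by_cases hiR : i = R
    · subst hiR
      have := kR rfl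
      omega
    · have h3 := oM_mono a S (i := i + 1) (j := R) (by omega)
      rw [oM_succ] at h3
      have := k2 (by omega)
      omega

theorem ConM.sum_lay (h : ConM R a S) (f : ℕ → ℂ) :
    ∑ idx ∈ Finset.Icc 1 (oM a S R + a R - 3), f idx =
      ∑ i ∈ Finset.range (R + 1), ∑ k ∈ layM R a S i, f (oM a S i + k - 1) := by
  rw [Finset.sum_sigma']
  refine Finset.sum_nbij' (fun idx => (⟨regM R a S idx,
    idx + 1 - oM a S (regM R a S idx)⟩ : (_ : ℕ) × ℕ)) (fun x => oM a S x.1 + x.2 - 1) ?_ ?_ ?_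
    ?_ ?_
  · intro idx hidx
    obtain ⟨i, k, hi, hkl, hk, hk2, hik⟩ := h.dec hidx
    rw [Finset.mem_sigma, Finset.mem_range]
    simp only
    rw [regM_eq hi hk hk2 hik]
    have e : idx + 1 - oM a S i = k := by omega
    rw [e]
    exact ⟨by omega, hkl⟩
  · rintro ⟨i, k⟩ hx
    rw [Finset.mem_sigma, Finset.mem_range] at hx
    simp only at hx ⊢
    obtain ⟨hi, hkl⟩ := hx
    obtain ⟨-, -, h0, h1⟩ := h.lay_bd (by omega) hkl
    rw [Finset.mem_Icc]
    exact ⟨h0, h1⟩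
  · intro idx hidx
    obtain ⟨i, k, hi, hkl, hk, hk2, hik⟩ := h.dec hidx
    simp only
    rw [regM_eq hi hk hk2 hik]
    omega
  · rintro ⟨i, k⟩ hx
    rw [Finset.mem_sigma, Finset.mem_range] at hx
    simp only at hx ⊢
    obtain ⟨hi, hkl⟩ := hx
    obtain ⟨hk, hk2, h0, h1⟩ := h.lay_bd (by omega) hkl
    have hreg := regM_eq (R := R) (a := a) (S := S) (i := i) (k := k) (idx := oM a S i + k - 1)
      (by omega) hk hk2 (by omega)
    rw [hreg]
    have e : oM a S i + k - 1 + 1 - oM a S i = k := by omega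
    rw [e]
  · intro idx hidx
    obtain ⟨i, k, hi, hkl, hk, hk2, hik⟩ := h.dec hidx
    simp only
    rw [regM_eq hi hk hk2 hik]
    congr 1
    omega

end Pool.Agent.S5.CV
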