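import Pool.Agent.S5.CV.ConstM
import Pool.Agent.S3.CV.ChainS

/-! # Stage 3b, complex volume: the complex volume from the layers -/

namespace Pool.Agent.S5.CV

open Pool.Agent.H63.VC Pool.Agent.H63.VC5 Complex
open Pool.Agent.S3.CV (cP cS clR om clR_ne ChainS_om_ne ChainS_even_pred
  ChainS_ordr ChainS_exp)

variable {R : ℕ} {a : ℕ → ℕ} {S : ℕ → Bool}

theorem ChainM_ne (a : ℕ → ℕ) (S : ℕ → Bool) (b : Bool) (i k : ℕ) (hk : 1 ≤ k) :
    (CM a S b i k).1 ≠ (CM a S b i k).2.1 ∧ (CM a S b i k).1 ≠ (CM a S b i k).2.2 ∧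
      (CM a S b i k).2.1 ≠ (CM a S b i k).2.2 := by
  obtain ⟨h1, h2, h3⟩ := clR_ne a b i
  have hA : cP a b i ≠ cS a b i k := by
    unfold cP cS
    by_cases hev : Even k
    · rw [if_pos hev]
      exact h1
    · rw [if_neg hev]
      exact h2
  have hB : cP a b i ≠ cS a b i (k - 1) := by
    unfold cP cS
    by_cases hev : Even (k - 1)
    · rw [if_pos hev]
      exact h1
    · rw [if_neg hev]
      exact h2
  have hC : cS a b i k ≠ cS a b i (k - 1) := by
    unfold cS
    by_cases hev : Even k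
    · rw [if_pos hev, if_neg (fun h => (ChainS_even_pred hk).1 h hev)]
      exact h3
    · rw [if_neg hev, if_pos ((ChainS_even_pred hk).2 hev)]
      exact h3.symm
  unfold CM
  by_cases hlf : lfM S b i
  · rw [if_pos hlf]
    exact ⟨hA, hB, hC⟩
  · rw [if_neg hlf]
    exact ⟨hA.symm, hC, hB⟩

theorem ChainM_CC (a : ℕ → ℕ) (S : ℕ → Bool) (b : Bool) (i k : ℕ) :
    (CM a S b i k).2.2 = cS a b i (k - 1) := by
  unfold CM
  split_ifs <;> rfl

/-- The complex volume of a mixed chain in terms of any flattening. -/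
theorem ConM.chain_cv (h : ConM R a S) {A : List ℕ} (hA : FarM A R a S) (b : Bool)
    (LP : ℕ → ℂ) (lam : ℕ → ℕ → ℂ) (z : ℕ → ℕ → ℂ) (P Q : ℕ → ℕ → ℤ)
    (h01 : lam 0 1 = LP 0) (hend : lam R (a R - 1) = LP R)
    (hl : ∀ i, i < R → lam (i + 1) 0 = LP i) (hrr : ∀ i, i < R → lam i (a i) = LP (i + 1))
    (hs : ∀ i, i < R → S i = true → lam (i + 1) 1 = lam i (a i - 1))
    (hz : ∀ i k, i ≤ R → k ∈ layM R a S i → 0 < (z i k).im ∧
      z i k = (if cS a b i (k - 1) = -om R a b then -1 else 1) *
        exp (2 * lgLM S b LP lam i k - 2 * lgRM S b LP lam i k))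
    (hP : ∀ i k, i ≤ R → k ∈ layM R a S i →
      Complex.log (z i k) + P i k * (Real.pi * I) =
        2 * lgLM S b LP lam i k - 2 * lgRM S b LP lam i k)
    (hQ : ∀ i k, i ≤ R → k ∈ layM R a S i →
      -Complex.log (1 - z i k) + Q i k * (Real.pi * I) =
        2 * lgRM S b LP lam i k - lam i (k - 1) - lgNM a lam i k) :
    ∃ Z : ℂ, Pool.Agent.S3.CV.IsComplexVolume A b Z ∧
      Cg Z (∑ i ∈ Finset.range (R + 1), ∑ k ∈ layM R a S i, 2 * rogers (z i k) (P i k) (Q i k) +
        (Real.pi : ℂ) ^ 2 * KM R a S b) := by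
  obtain ⟨l, hl12, hlast, hlab⟩ := h.exists_lab hA b LP lam h01 hend hl hrr hs
  have hsum := hA.sum
  have hcls := fun idx i k hi hk hk2 hkR hidx => (TriM_main h hA b idx i k hi hk hk2 hkR hidx).2.1
  have haR := h.ha R le_rfl
  set t := turn A b with ht
  set w := om R a b with hw
  set j := jjM R a S b with hj
  have hw0 : w ≠ 0 := ChainS_om_ne R a b
  -- the facts about a layer
  have hdec : ∀ idx ∈ Finset.Icc 1 (A.sum - 3), ∃ i k, i ≤ R ∧ k ∈ layM R a S i ∧ 1 ≤ k ∧
      (i < R → k ≤ lw a S i) ∧ (i = R → k + 1 ≤ a i) ∧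
      idx + 1 = oM a S i + k ∧ regM R a S idx = i ∧ idx + 1 - oM a S i = k := by
    intro idx hidx
    rw [hsum] at hidx
    obtain ⟨i, k, h1, h2, h3, h4, h5⟩ := h.dec hidx
    obtain ⟨-, -, -, h6⟩ := (h.mem_lay h1).1 h2
    exact ⟨i, k, h1, h2, h3, h4, fun h0 => by have := h6 h0; omega, h5, regM_eq h1 h3 h4 h5,
      by omega⟩
  -- the terms
  have hterm : ∀ (idx : ℕ) (h : Bool), ∃ p q : ℤ, idx ∈ Finset.Icc 1 (A.sum - 3) →
      (Complex.log (ordShape (z (regM R a S idx) (idx + 1 - oM a S (regM R a S idx)))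
          (cls t idx) (ordr w j idx h)) + p * (Real.pi * I) =
        pairSum l (slo t idx) idx (cls t idx) (ordr w j idx h).2.2 -
        pairSum l (slo t idx) idx (cls t idx) (ordr w j idx h).2.1) ∧
      (-Complex.log (1 - ordShape (z (regM R a S idx) (idx + 1 - oM a S (regM R a S idx)))
          (cls t idx) (ordr w j idx h)) + q * (Real.pi * I) =
        pairSum l (slo t idx) idx (cls t idx) (ordr w j idx h).2.1 -
        pairSum l (slo t idx) idx (cls t idx) (ordr w j idx h).1) ∧
      Cg ((ordSign (cls t idx) (ordr w j idx h) : ℂ) *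
        rogers (ordShape (z (regM R a S idx) (idx + 1 - oM a S (regM R a S idx)))
          (cls t idx) (ordr w j idx h)) p q)
        (rogers (z (regM R a S idx) (idx + 1 - oM a S (regM R a S idx)))
          (P (regM R a S idx) (idx + 1 - oM a S (regM R a S idx)))
          (Q (regM R a S idx) (idx + 1 - oM a S (regM R a S idx))) +
          (Real.pi : ℂ) ^ 2 * ordConst (cls t idx) (ordr w j idx h)
            (P (regM R a S idx) (idx + 1 - oM a S (regM R a S idx)))
            (Q (regM R a S idx) (idx + 1 - oM a S (regM R a S idx)))) := by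
    intro idx h
    by_cases hidx : idx ∈ Finset.Icc 1 (A.sum - 3)
    · obtain ⟨i, k, hi, hkl, hk, hk2, hkR, hik, hreg, hkk⟩ := hdec idx hidx
      obtain ⟨g1, g2, g3, g4⟩ := hlab i k idx hi hkl hik
      have g5 := hcls idx i k hi hk hk2 hkR hik
      have hzi := hz i k hi hkl
      obtain ⟨p, q, f1, f2, f3⟩ := ord_term (z i k) hzi.1 (P i k) (Q i k) (lgLM S b LP lam i k)
        (lgRM S b LP lam i k) (lam i (k - 1)) (lgNM a lam i k) (hP i k hi hkl) (hQ i k hi hkl)
        (cls t idx) (ordr w j idx h) (by rw [g5]; exact ChainM_ne a S b i k hk)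
        (ChainS_ordr hw0 j idx h) (pairSum l (slo t idx) idx (cls t idx)) (by
          intro X
          rw [← g1, ← g2, ← g3, ← g4]
          rfl)
      refine ⟨p, q, fun _ => ?_⟩
      rw [hreg, hkk]
      exact ⟨f1, f2, f3⟩
    · exact ⟨0, 0, fun h => absurd h hidx⟩
  choose p q hpq using hterm
  refine ⟨_, ⟨l, fun idx => z (regM R a S idx) (idx + 1 - oM a S (regM R a S idx)), w, j, p, q,
    hw0, ?_, hl12, hlast, ?_, ?_, rfl⟩, ?_⟩
  · -- the last folding and the change of the ordering
    have h1 := hcls (A.sum - 2) R (a R - 1) le_rfl (by omega) (fun h0 => by omega) (by omega)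
      (by omega)
    have h2 : (cls t (A.sum - 2)).2.2 = cS a b R (a R) := by
      rw [h1, ChainM_CC]
      unfold cS
      have h3 : Even (a R - 1 - 1) ↔ Even (a R) := by
        rw [ChainS_even_pred (by omega), ChainS_even_pred (by omega), not_not]
      simp only [h3]
    by_cases h0 : cS a b R (a R) = 0
    · right
      refine ⟨h2.trans h0, ?_⟩
      rw [hj, hsum]
      unfold jjM
      rw [if_pos h0]
    · left
      obtain ⟨i, k, hi, hkl, hjk, hcl⟩ := h.jj_spec b h0
      obtain ⟨hk1, hk2, hb1, hb2⟩ := h.lay_bd hi hkl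
      obtain ⟨-, -, -, h6⟩ := (h.mem_lay hi).1 hkl
      refine ⟨?_, ?_, ?_⟩
      · rw [h2, hw]
        unfold om
        rw [if_neg h0]
      · rw [Finset.mem_Icc, hsum]
        omega
      · rw [hcls j i k hi hk1 hk2 (fun h7 => by have := h6 h7; omega) hjk, ChainM_CC]
        exact hcl
  · -- the shapes
    intro idx hidx
    obtain ⟨i, k, hi, hkl, hk, hk2, hkR, hik, hreg, hkk⟩ := hdec idx hidx
    obtain ⟨g1, g2, g3, g4⟩ := hlab i k idx hi hkl hik
    have g5 := hcls idx i k hi hk hk2 hkR hik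
    obtain ⟨hzi, hze⟩ := hz i k hi hkl
    simp only
    rw [hreg, hkk, g1, g2, g3, g4, g5, ChainM_CC]
    refine ⟨hzi, hze, ?_⟩
    have hne : 1 - z i k ≠ 0 := by
      intro h
      have h2 := congrArg Complex.im h
      simp at h2
      linarith
    have h1 : Complex.log (1 - z i k) = Q i k * (Real.pi * I) +
        (lam i (k - 1) + lgNM a lam i k - 2 * lgRM S b LP lam i k) := by
      linear_combination -(hQ i k hi hkl)
    have h2 : 1 - z i k = exp (Q i k * (Real.pi * I)) *
        exp (lam i (k - 1) + lgNM a lam i k - 2 * lgRM S b LP lam i k) := by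
      rw [← Complex.exp_add, ← h1, Complex.exp_log hne]
    rcases ChainS_exp (Q i k) with h3 | h3
    · left
      rw [h2, h3, one_mul]
    · right
      rw [h2, h3, neg_one_mul]
  · intro idx hidx h
    exact ⟨(hpq idx h hidx).1, (hpq idx h hidx).2.1⟩
  · -- the value
    have hPodd : ∀ i k, i ≤ R → k ∈ layM R a S i → cS a b i (k - 1) = -om R a b →
        Odd (P i k) := by
      intro i k hi hkl hc
      obtain ⟨hzi, hze⟩ := hz i k hi hkl
      refine (flat_parity (z i k) _ (fun h => by rw [h] at hzi; simp at hzi) (P i k)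
        (hP i k hi hkl)).2 ?_
      rw [hze, if_pos hc]
      ring
    obtain ⟨n, hn⟩ := h.const_eq b P Q hPodd
    have hS : Cg (∑ idx ∈ Finset.Icc 1 (A.sum - 3), ∑ h : Bool,
        (ordSign (cls t idx) (ordr w j idx h) : ℂ) *
          rogers (ordShape (z (regM R a S idx) (idx + 1 - oM a S (regM R a S idx)))
            (cls t idx) (ordr w j idx h)) (p idx h) (q idx h))
        (∑ idx ∈ Finset.Icc 1 (A.sum - 3), ∑ h : Bool,
          (rogers (z (regM R a S idx) (idx + 1 - oM a S (regM R a S idx)))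
            (P (regM R a S idx) (idx + 1 - oM a S (regM R a S idx)))
            (Q (regM R a S idx) (idx + 1 - oM a S (regM R a S idx))) +
          (Real.pi : ℂ) ^ 2 * ordConst (cls t idx) (ordr w j idx h)
            (P (regM R a S idx) (idx + 1 - oM a S (regM R a S idx)))
            (Q (regM R a S idx) (idx + 1 - oM a S (regM R a S idx))))) := by
      refine Cg.sum _ fun idx hidx => Cg.sum _ fun h _ => (hpq idx h hidx).2.2
    refine hS.trans ?_
    rw [hsum, h.sum_lay]
    have hEq : ∑ i ∈ Finset.range (R + 1), ∑ k ∈ layM R a S i, ∑ h : Bool,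
        (rogers (z (regM R a S (oM a S i + k - 1))
              (oM a S i + k - 1 + 1 - oM a S (regM R a S (oM a S i + k - 1))))
            (P (regM R a S (oM a S i + k - 1))
              (oM a S i + k - 1 + 1 - oM a S (regM R a S (oM a S i + k - 1))))
            (Q (regM R a S (oM a S i + k - 1))
              (oM a S i + k - 1 + 1 - oM a S (regM R a S (oM a S i + k - 1)))) +
          (Real.pi : ℂ) ^ 2 * ordConst (cls t (oM a S i + k - 1))
            (ordr w j (oM a S i + k - 1) h)
            (P (regM R a S (oM a S i + k - 1))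
              (oM a S i + k - 1 + 1 - oM a S (regM R a S (oM a S i + k - 1))))
            (Q (regM R a S (oM a S i + k - 1))
              (oM a S i + k - 1 + 1 - oM a S (regM R a S (oM a S i + k - 1))))) =
        ∑ i ∈ Finset.range (R + 1), ∑ k ∈ layM R a S i, (2 * rogers (z i k) (P i k) (Q i k) +
          (Real.pi : ℂ) ^ 2 * ∑ h : Bool,
            ordConst (CM a S b i k) (ordr (om R a b) (jjM R a S b) (oM a S i + k - 1) h) (P i k)
              (Q i k)) := by
      refine Finset.sum_congr rfl fun i hi => Finset.sum_congr rfl fun k hk => ?_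
      rw [Finset.mem_range] at hi
      obtain ⟨hk1, hk2, hb1, hb2⟩ := h.lay_bd (by omega) hk
      obtain ⟨-, -, -, h6⟩ := (h.mem_lay (by omega)).1 hk
      have e1 : oM a S i + k - 1 + 1 = oM a S i + k := by omega
      have e2 : regM R a S (oM a S i + k - 1) = i := regM_eq (by omega) hk1 hk2 e1
      have e3 : oM a S i + k - 1 + 1 - oM a S i = k := by omega
      rw [e2, e3, hcls (oM a S i + k - 1) i k (by omega) hk1 hk2
        (fun h7 => by have := h6 h7; omega) e1, Fintype.sum_bool, Fintype.sum_bool]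
      ring
    rw [hEq]
    simp only [Finset.sum_add_distrib, ← Finset.mul_sum]
    rw [hn]
    refine ⟨n, ?_⟩
    simp only [Finset.mul_sum]
    ring

end Pool.Agent.S5.CV
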