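import Pool.Agent.S5.CV.TriM

/-! # Stage 3b, complex volume: the constants -/

namespace Pool.Agent.S5.CV

open Pool.Agent.H63.VC Pool.Agent.H63.VC5 Complex
open Pool.Agent.S3.CV (cP cS clR om clR_ne)

/-! ### Finite facts -/

private def ConstM_th (c o : Fin 3 × Fin 3 × Fin 3) : ℤ :=
  if c = (o.2.2, o.2.1, o.1) then 0
  else if c = (o.1, o.2.2, o.2.1) then 1
  else if c = (o.2.1, o.1, o.2.2) then -1
  else if c = (o.2.1, o.2.2, o.1) then 0
  else if c = (o.2.2, o.1, o.2.1) then -1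
  else 1

private def ConstM_D (T : Fin 3 × Fin 3 × Fin 3) (l e : Bool) : Fin 3 × Fin 3 × Fin 3 :=
  if l then (T.1, if e then T.2.1 else T.2.2, if e then T.2.2 else T.2.1)
  else (if e then T.2.1 else T.2.2, T.1, if e then T.2.2 else T.2.1)

private def ConstM_o (w : Fin 3) (f : Bool) : Fin 3 × Fin 3 × Fin 3 :=
  if f then (0, w, -w) else (w, 0, -w)

private def ConstM_s (l : Bool) : ℤ := if l then 1 else -1

private theorem ConstM_F1 : ∀ T : Fin 3 × Fin 3 × Fin 3, T.1 ≠ T.2.1 → T.1 ≠ T.2.2 →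
    T.2.1 ≠ T.2.2 → ∀ l e : Bool, ∀ w : Fin 3, w ≠ 0 → ∀ f : Bool,
    (3 : ℤ) ∣ ConstM_th (ConstM_D T l e) (ConstM_o w f) +
      ConstM_th (ConstM_D T l (!e)) (ConstM_o w f) + ConstM_s l := by
  decide

private theorem ConstM_F2 : ∀ T : Fin 3 × Fin 3 × Fin 3, T.1 ≠ T.2.1 → T.1 ≠ T.2.2 →
    T.2.1 ≠ T.2.2 → ∀ l e : Bool, ∀ w : Fin 3, w ≠ 0 → (ConstM_D T l e).2.2 = -w →
    (3 : ℤ) ∣ ConstM_th (ConstM_D T l (!e)) (ConstM_o w true) -
      ConstM_th (ConstM_D T l e) (ConstM_o w false) + ConstM_s l := by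
  decide

private theorem ConstM_F3 : ∀ b : Bool, ∀ w : Fin 3, w ≠ 0 →
    ConstM_th (ConstM_D (if b then 1 else 2, 0, if b then 2 else 1) b false)
      (ConstM_o w true) = 0 := by
  decide

private theorem ConstM_F4 : ∀ T : Fin 3 × Fin 3 × Fin 3, T.1 ≠ T.2.1 → T.1 ≠ T.2.2 →
    T.2.1 ≠ T.2.2 → ∀ l e : Bool, (if e then T.2.1 else T.2.2) = 0 →
    (3 : ℤ) ∣ ConstM_th (ConstM_D T l e) (ConstM_o 1 true) + ConstM_s l := by
  decide

private theorem ConstM_F5 : ∀ T : Fin 3 × Fin 3 × Fin 3, T.1 ≠ T.2.1 → T.1 ≠ T.2.2 →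
    T.2.1 ≠ T.2.2 → ∀ l e : Bool, (if e then T.2.1 else T.2.2) ≠ 0 →
    (3 : ℤ) ∣ ConstM_th (ConstM_D T l e) (ConstM_o (if e then T.2.1 else T.2.2) false) +
      ConstM_s l := by
  decide

/-- The parity of a permutation. -/
private def ConstM_pi (c : Fin 3 × Fin 3 × Fin 3) : ℤ := if c.2.1 = c.1 + 1 then 0 else 1

/-- The side of the class `-w`. -/
private def ConstM_U (T : Fin 3 × Fin 3 × Fin 3) (l : Bool) (w : Fin 3) : ℤ :=
  if T.1 = -w then (if l then 1 else 0) else (if l then 0 else 1)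

private def ConstM_Z (T : Fin 3 × Fin 3 × Fin 3) (l : Bool) (w : Fin 3) : ℤ :=
  ConstM_pi (ConstM_D T l true) + ConstM_U T l w

private theorem ConstM_P1 : ∀ T : Fin 3 × Fin 3 × Fin 3, T.1 ≠ T.2.1 → T.1 ≠ T.2.2 →
    T.2.1 ≠ T.2.2 → ∀ l e : Bool, ∀ w : Fin 3, w ≠ 0 →
    (2 : ℤ) ∣ ConstM_Z (if e then (T.2.1, T.1, T.2.2) else (T.2.2, T.1, T.2.1)) (!l) w -
      (ConstM_Z T l w + (if e then 0 else 1) +
        (if (if e then T.2.2 else T.2.1) = -w then 1 else 0)) := by
  decide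

private theorem ConstM_P2 : ∀ T : Fin 3 × Fin 3 × Fin 3, T.1 ≠ T.2.1 → T.1 ≠ T.2.2 →
    T.2.1 ≠ T.2.2 → ∀ l e b : Bool, (if e then T.2.1 else T.2.2) = 0 →
    (2 : ℤ) ∣ ConstM_Z T l 1 + (if e then 0 else 1) -
      ConstM_Z (if b then 1 else 2, 0, if b then 2 else 1) b 1 := by
  decide

private theorem ConstM_P3 : ∀ T : Fin 3 × Fin 3 × Fin 3, T.1 ≠ T.2.1 → T.1 ≠ T.2.2 →
    T.2.1 ≠ T.2.2 → ∀ l e b : Bool, (if e then T.2.1 else T.2.2) ≠ 0 →
    (2 : ℤ) ∣ ConstM_Z T l (if e then T.2.1 else T.2.2) + (if e then 0 else 1) -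
      ConstM_Z (if b then 1 else 2, 0, if b then 2 else 1) b (if e then T.2.1 else T.2.2) - 1 := by
  decide


private theorem ConstM_F6 : ∀ T : Fin 3 × Fin 3 × Fin 3, T.1 ≠ T.2.1 → T.1 ≠ T.2.2 →
    T.2.1 ≠ T.2.2 → ∀ l e : Bool, ∀ w : Fin 3, w ≠ 0 → ∀ f : Bool,
    (3 : ℤ) ∣ ConstM_th (ConstM_D (if e then (T.2.1, T.1, T.2.2) else (T.2.2, T.1, T.2.1)) l true)
        (ConstM_o w f) - ConstM_th (ConstM_D T l (!e)) (ConstM_o w f) - ConstM_s l := by
  decide

private theorem ConstM_P6 : ∀ T : Fin 3 × Fin 3 × Fin 3, T.1 ≠ T.2.1 → T.1 ≠ T.2.2 →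
    T.2.1 ≠ T.2.2 → ∀ l e : Bool, ∀ w : Fin 3, w ≠ 0 →
    (2 : ℤ) ∣ ConstM_Z (if e then (T.2.1, T.1, T.2.2) else (T.2.2, T.1, T.2.1)) l w -
      (ConstM_Z T l w + (if e then 0 else 1) +
        (if (if e then T.2.2 else T.2.1) = -w then 1 else 0)) := by
  decide

variable {R : ℕ} {a : ℕ → ℕ} {S : ℕ → Bool}

/-! ### Telescoping -/

private theorem ConstM_tele {A : Type*} [AddCommGroup A] (h : ConM R a S) (F v : ℕ → ℕ → A)
    (h1 : ∀ i k, i ≤ R → k ∈ layM R a S i → v i k = F i (k - 1) - F i k)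
    (hF : ∀ i, i < R → F (i + 1) 0 = F i (lw a S i)) :
    ∑ i ∈ Finset.range (R + 1), ∑ k ∈ layM R a S i, v i k = F 0 1 - F R (a R - 2) := by
  have hR := h.hR
  have seg : ∀ i m n, m ≤ n → (∀ k, m + 1 ≤ k → k ≤ n → v i k = F i (k - 1) - F i k) →
      ∑ k ∈ Finset.Icc (m + 1) n, v i k = F i m - F i n := by
    intro i m n hmn
    induction n, hmn using Nat.le_induction with
    | base => intro _; simp
    | succ n hn ih =>
      intro hv
      rw [Finset.sum_Icc_succ_top (by omega), ih (fun k hk hk2 => hv k hk (by omega)),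
        hv (n + 1) (by omega) le_rfl]
      simp
  have part : ∀ r, r < R →
      ∑ i ∈ Finset.range (r + 1), ∑ k ∈ layM R a S i, v i k = F 0 1 - F r (lw a S r) := by
    intro r
    induction r with
    | zero =>
      intro hr
      have e : layM R a S 0 = Finset.Icc (1 + 1) (lw a S 0) := by
        unfold layM
        rw [if_pos rfl, if_neg (by omega)]
      have h2 := h.lw0
      rw [Finset.sum_range_one]
      have h3 := h1 0
      rw [e] at h3 ⊢
      exact seg 0 1 _ (by omega) (fun k hk hk2 => h3 k (by omega) (Finset.mem_Icc.2 ⟨hk, hk2⟩))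
    | succ r ih =>
      intro hr
      have e : layM R a S (r + 1) = Finset.Icc (0 + 1) (lw a S (r + 1)) := by
        unfold layM
        rw [if_neg (by omega), if_neg (by omega)]
      have h3 := h1 (r + 1)
      rw [Finset.sum_range_succ, ih (by omega), ← hF r (by omega)]
      rw [e] at h3 ⊢
      rw [seg (r + 1) 0 _ (by omega)
        (fun k hk hk2 => h3 k (by omega) (Finset.mem_Icc.2 ⟨hk, hk2⟩))]
      abel
  obtain ⟨r, rfl⟩ : ∃ r, R = r + 1 := ⟨R - 1, by omega⟩
  have e : layM (r + 1) a S (r + 1) = Finset.Icc (0 + 1) (a (r + 1) - 2) := by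
    unfold layM
    rw [if_neg (by omega), if_pos rfl]
  have h3 := h1 (r + 1)
  rw [Finset.sum_range_succ, part r (by omega), ← hF r (by omega)]
  rw [e] at h3 ⊢
  rw [seg (r + 1) 0 _ (by omega)
    (fun k hk hk2 => h3 k (by omega) (Finset.mem_Icc.2 ⟨hk, hk2⟩))]
  abel

private theorem ConstM_CC (a : ℕ → ℕ) (S : ℕ → Bool) (b : Bool) (i k : ℕ) (hk : 1 ≤ k) :
    CM a S b i k = ConstM_D (clR a b i) (lfM S b i) (decide (Even k)) := by
  obtain ⟨n, rfl⟩ : ∃ n, k = n + 1 := ⟨k - 1, by omega⟩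
  unfold CM cP cS ConstM_D
  rw [Nat.add_sub_cancel]
  by_cases h : Even n
  · have h' : ¬ Even (n + 1) := by rw [Nat.even_add_one]; exact not_not.mpr h
    simp [h, h']
  · have h' : Even (n + 1) := by rw [Nat.even_add_one]; exact h
    simp [h, h']

private theorem ConstM_cS (a : ℕ → ℕ) (b : Bool) (i k : ℕ) :
    cS a b i k = if decide (Even k) then (clR a b i).2.1 else (clR a b i).2.2 := by
  unfold cS
  simp

private theorem ConstM_cS1 (a : ℕ → ℕ) (b : Bool) (i k : ℕ) :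
    cS a b i (k + 1) = if decide (Even k) then (clR a b i).2.2 else (clR a b i).2.1 := by
  unfold cS
  by_cases h : Even k
  · have h' : ¬ Even (k + 1) := by rw [Nat.even_add_one]; exact not_not.mpr h
    simp [h, h']
  · have h' : Even (k + 1) := by rw [Nat.even_add_one]; exact h
    simp [h, h']

private theorem ConstM_sg (S : ℕ → Bool) (b : Bool) (i : ℕ) :
    sgM S b i = ConstM_s (lfM S b i) := rfl

private theorem ConstM_clR (a : ℕ → ℕ) (b : Bool) (i : ℕ) :
    clR a b (i + 1) = if decide (Even (a i)) then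
      ((clR a b i).2.1, (clR a b i).1, (clR a b i).2.2) else
      ((clR a b i).2.2, (clR a b i).1, (clR a b i).2.1) := by
  rw [clR]
  simp

private theorem ConstM_D_succ (T : Fin 3 × Fin 3 × Fin 3) (l e : Bool) :
    ConstM_D (if e then (T.2.1, T.1, T.2.2) else (T.2.2, T.1, T.2.1)) (!l) true =
      ConstM_D T l e := by
  unfold ConstM_D
  cases l <;> cases e <;> rfl

/-! ### The numbers of the layers -/

/-! ### The numbers of the layers -/

private theorem ConstM_inj {i k i' k' : ℕ} (hi : i ≤ R) (hi' : i' ≤ R) (hk : 1 ≤ k)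
    (hk2 : i < R → k ≤ lw a S i) (hk' : 1 ≤ k') (hk2' : i' < R → k' ≤ lw a S i')
    (h : oM a S i + k = oM a S i' + k') : i = i' ∧ k = k' := by
  have e : i = i' := by
    by_contra hne
    rcases lt_or_gt_of_ne hne with hlt | hlt
    · have h1 := oM_mono a S (show i + 1 ≤ i' from hlt)
      rw [oM_succ] at h1
      have := hk2 (by omega)
      omega
    · have h1 := oM_mono a S (show i' + 1 ≤ i from hlt)
      rw [oM_succ] at h1
      have := hk2' (by omega)
      omega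
  subst e
  exact ⟨rfl, by omega⟩

/-! ### The layer of the change -/


private theorem ConstM_om_ne (R : ℕ) (a : ℕ → ℕ) (b : Bool) : om R a b ≠ 0 := by
  unfold om
  split
  · decide
  · assumption

private theorem ConstM_neg : ∀ x w : Fin 3, x ≠ 0 → w ≠ 0 → x ≠ w → x = -w := by
  decide


/-- The ordering changes at a layer, if the link is a knot. -/
theorem ConM.jj_spec (h : ConM R a S) (b : Bool) (h0 : cS a b R (a R) ≠ 0) :
    ∃ i k, i ≤ R ∧ k ∈ layM R a S i ∧ jjM R a S b + 1 = oM a S i + k ∧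
      cS a b i (k - 1) = -om R a b := by
  have hw : om R a b = cS a b R (a R) := by unfold om; rw [if_neg h0]
  have hwne := ConstM_om_ne R a b
  have hR := h.hR
  have hlw := h.lw0
  by_cases hc : cP a b 0 = om R a b
  · refine ⟨0, 2, by omega, ?_, ?_, ?_⟩
    · rw [h.mem_lay (by omega)]
      exact ⟨by omega, fun _ => le_rfl, fun _ => hlw, fun h1 => by omega⟩
    · unfold jjM
      rw [if_neg h0, if_pos hc]
      simp [oM]
    · rw [← hc]
      cases b <;> simp [cS, cP, clR] <;> decide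
  · have hcP : cP a b 0 = -om R a b := by
      refine ConstM_neg _ _ ?_ hwne hc
      cases b <;> simp [cP, clR]
    have hc1 : cS a b 1 0 = cP a b 0 := by
      rw [ConstM_cS, ConstM_clR]
      unfold cP
      cases decide (Even (a 0)) <;> simp
    refine ⟨1, 1, hR, ?_, ?_, ?_⟩
    · rw [h.mem_lay hR]
      refine ⟨le_rfl, fun h1 => by omega, fun _ => h.lw1 hR, fun hR1 => ?_⟩
      by_contra hcon
      have h2 := h.ha 1 (by omega)
      have h3 : a 1 = 2 := by omega
      have h4 : cS a b 1 (a 1) = cS a b 1 0 := by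
        rw [h3]
        unfold cS
        simp
      rw [← hR1] at hw hcP hwne
      rw [h4, hc1, hcP] at hw
      revert hw hwne
      generalize om 1 a b = x
      revert x
      decide
    · unfold jjM
      rw [if_neg h0, if_neg hc]
      simp [oM]
    · rw [Nat.sub_self, hc1, hcP]

private theorem ConstM_jj_pos (h : ConM R a S) (b : Bool) : 1 ≤ jjM R a S b := by
  have h0 := h.lw0
  have h1 := h.ha R le_rfl
  unfold jjM
  split
  · omega
  · split <;> omega

/-- The layer `j`. -/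
private theorem ConstM_layer (h : ConM R a S) (b : Bool) {i k : ℕ} (hi : i ≤ R)
    (hkl : k ∈ layM R a S i) (hj : oM a S i + k - 1 = jjM R a S b) :
    cS a b R (a R) ≠ 0 ∧ cS a b i (k - 1) = -om R a b := by
  obtain ⟨hk, hk2, b1, b2⟩ := h.lay_bd hi hkl
  have haR := h.ha R le_rfl
  have h0 : cS a b R (a R) ≠ 0 := by
    intro h0
    unfold jjM at hj
    rw [if_pos h0] at hj
    omega
  refine ⟨h0, ?_⟩
  obtain ⟨i', k', hi', hk', hj', hc⟩ := h.jj_spec b h0
  obtain ⟨m1, m2, -, -⟩ := h.lay_bd hi' hk'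
  obtain ⟨rfl, rfl⟩ := ConstM_inj hi hi' hk hk2 m1 m2 (by omega)
  exact hc

private theorem ConstM_last (h : ConM R a S) (b : Bool) (h0 : cS a b R (a R) ≠ 0) :
    jjM R a S b ≤ oM a S R + (a R - 2) - 1 := by
  obtain ⟨i', k', hi', hk', hj, hc⟩ := h.jj_spec b h0
  obtain ⟨m1, m2, m3, m4⟩ := h.lay_bd hi' hk'
  have haR := h.ha R le_rfl
  omega

/-! ### The corrections of one layer -/

private theorem ConstM_two (c o : Fin 3 × Fin 3 × Fin 3) (P Q : ℤ) :
    ∃ n : ℤ, ordConst c o P Q + ordConst c o P Q = (ConstM_th c o : ℂ) / 3 + n := by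
  unfold ordConst ConstM_th
  split_ifs
  · exact ⟨0, by push_cast; ring⟩
  · exact ⟨Q, by push_cast; ring⟩
  · exact ⟨P, by push_cast; ring⟩
  · exact ⟨P, by push_cast; ring⟩
  · exact ⟨1 + Q, by push_cast; ring⟩
  · exact ⟨0, by push_cast; ring⟩

private theorem ConstM_cases : ∀ c : Fin 3 × Fin 3 × Fin 3, c.1 ≠ c.2.1 → c.1 ≠ c.2.2 →
    c.2.1 ≠ c.2.2 → ∀ w : Fin 3, w ≠ 0 → c.2.2 = -w → c = (0, w, -w) ∨ c = (w, 0, -w) := by
  decide

private theorem ConstM_d1 : ∀ w : Fin 3, w ≠ 0 → ((0, w, -w) : Fin 3 × Fin 3 × Fin 3) ≠ (-w, w, 0) ∧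
    ((0, w, -w) : Fin 3 × Fin 3 × Fin 3) ≠ (0, -w, w) ∧
    ((0, w, -w) : Fin 3 × Fin 3 × Fin 3) ≠ (w, 0, -w) ∧
    ((0, w, -w) : Fin 3 × Fin 3 × Fin 3) ≠ (w, -w, 0) ∧
    ((0, w, -w) : Fin 3 × Fin 3 × Fin 3) ≠ (-w, 0, w) ∧
    ((w, 0, -w) : Fin 3 × Fin 3 × Fin 3) ≠ (-w, w, 0) ∧
    ((w, 0, -w) : Fin 3 × Fin 3 × Fin 3) ≠ (0, -w, w) ∧
    ((w, 0, -w) : Fin 3 × Fin 3 × Fin 3) ≠ (w, -w, 0) ∧
    ((w, 0, -w) : Fin 3 × Fin 3 × Fin 3) ≠ (-w, 0, w) := by
  decide

private theorem ConstM_both (w : Fin 3) (hw : w ≠ 0) (c : Fin 3 × Fin 3 × Fin 3)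
    (hc : c = (0, w, -w) ∨ c = (w, 0, -w)) (P Q : ℤ) :
    ordConst c (0, w, -w) P Q + ordConst c (w, 0, -w) P Q = P / 2 := by
  obtain ⟨d1, d2, d3, d4, d5, d6, d7, d8, d9⟩ := ConstM_d1 w hw
  rcases hc with rfl | rfl
  · have e1 : ordConst (0, w, -w) (0, w, -w) P Q = 1 / 6 := by
      unfold ordConst
      rw [if_neg d1, if_neg d2, if_neg d3, if_neg d4, if_neg d5]
    have e2 : ordConst (0, w, -w) (w, 0, -w) P Q = -1 / 6 + P / 2 := by
      unfold ordConst
      rw [if_neg d5, if_neg d4, if_pos rfl]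
    rw [e1, e2]
    ring
  · have e1 : ordConst (w, 0, -w) (w, 0, -w) P Q = 1 / 6 := by
      unfold ordConst
      rw [if_neg d9, if_neg d8, if_neg d3.symm, if_neg d7, if_neg d6]
    have e2 : ordConst (w, 0, -w) (0, w, -w) P Q = -1 / 6 + P / 2 := by
      unfold ordConst
      rw [if_neg d6, if_neg d7, if_pos rfl]
    rw [e1, e2]
    ring

private theorem ConstM_sum {ι : Type*} (s : Finset ι) (f g : ι → ℂ)
    (h : ∀ x ∈ s, ∃ n : ℤ, f x = g x + n) :
    ∃ n : ℤ, ∑ x ∈ s, f x = ∑ x ∈ s, g x + n := by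
  choose! n hn using h
  refine ⟨∑ x ∈ s, n x, ?_⟩
  rw [Finset.sum_congr rfl hn, Finset.sum_add_distrib]
  push_cast
  rfl


private noncomputable def ConstM_g (R : ℕ) (a : ℕ → ℕ) (S : ℕ → Bool) (b : Bool) (i k : ℕ) : ℤ :=
  if oM a S i + k - 1 = jjM R a S b then 0 else
    ConstM_th (CM a S b i k) (ConstM_o (om R a b) (decide (oM a S i + k - 1 < jjM R a S b)))

private noncomputable def ConstM_x (R : ℕ) (a : ℕ → ℕ) (S : ℕ → Bool) (b : Bool) (i k : ℕ) : ℤ :=
  if oM a S i + k - 1 = jjM R a S b then 1 else 0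

private theorem ConstM_ordr (w : Fin 3) (j i : ℕ) (h : Bool) (hne : i ≠ j) :
    ordr w j i h = ConstM_o w (decide (i < j)) := by
  unfold ordr ConstM_o
  by_cases hlt : i < j
  · simp [hlt]
  · simp [hlt, hne]


private theorem ConstM_CC_ne (a : ℕ → ℕ) (S : ℕ → Bool) (b : Bool) (i k : ℕ) (hk : 1 ≤ k) :
    (CM a S b i k).1 ≠ (CM a S b i k).2.1 ∧ (CM a S b i k).1 ≠ (CM a S b i k).2.2 ∧
      (CM a S b i k).2.1 ≠ (CM a S b i k).2.2 := by
  rw [ConstM_CC a S b i k hk]
  obtain ⟨h1, h2, h3⟩ := clR_ne a b i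
  unfold ConstM_D
  cases lfM S b i <;> cases decide (Even k)
  · exact ⟨h2.symm, h3.symm, h1⟩
  · exact ⟨h1.symm, h3, h2⟩
  · exact ⟨h2, h1, h3.symm⟩
  · exact ⟨h1, h2, h3⟩

private theorem ConstM_CC_behind (a : ℕ → ℕ) (S : ℕ → Bool) (b : Bool) (i k : ℕ) :
    (CM a S b i k).2.2 = cS a b i (k - 1) := by
  unfold CM
  split <;> rfl

private theorem ConstM_one (h : ConM R a S) (b : Bool) (P Q : ℕ → ℕ → ℤ)
    (hP : ∀ i k, i ≤ R → k ∈ layM R a S i → cS a b i (k - 1) = -om R a b → Odd (P i k))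
    (i k : ℕ) (hi : i ≤ R) (hk : k ∈ layM R a S i) :
    ∃ n : ℤ, ∑ h : Bool,
      ordConst (CM a S b i k) (ordr (om R a b) (jjM R a S b) (oM a S i + k - 1) h) (P i k) (Q i k) =
        ((ConstM_g R a S b i k : ℂ) / 3 + (ConstM_x R a S b i k : ℂ) / 2) + n := by
  obtain ⟨m1, -, -, -⟩ := h.lay_bd hi hk
  rw [Fintype.sum_bool]
  unfold ConstM_g ConstM_x
  by_cases hj : oM a S i + k - 1 = jjM R a S b
  · obtain ⟨-, hb⟩ := ConstM_layer h b hi hk hj
    obtain ⟨n, hn⟩ := hP i k hi hk hb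
    obtain ⟨c1, c2, c3⟩ := ConstM_CC_ne a S b i k m1
    have hcc := ConstM_cases _ c1 c2 c3 _ (ConstM_om_ne R a b)
      ((ConstM_CC_behind a S b i k).trans hb)
    have e1 : ordr (om R a b) (jjM R a S b) (oM a S i + k - 1) true =
        (0, om R a b, -om R a b) := by
      unfold ordr
      rw [if_pos (Or.inr ⟨hj, rfl⟩)]
    have e2 : ordr (om R a b) (jjM R a S b) (oM a S i + k - 1) false =
        (om R a b, 0, -om R a b) := by
      unfold ordr
      rw [if_neg]
      rw [hj]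
      simp
    rw [e1, e2, ConstM_both _ (ConstM_om_ne R a b) _ hcc, if_pos hj, if_pos hj, hn]
    refine ⟨n, ?_⟩
    push_cast
    ring
  · rw [ConstM_ordr _ _ _ _ hj, ConstM_ordr _ _ _ _ hj, if_neg hj, if_neg hj]
    obtain ⟨n, hn⟩ := ConstM_two (CM a S b i k)
      (ConstM_o (om R a b) (decide (oM a S i + k - 1 < jjM R a S b))) (P i k) (Q i k)
    refine ⟨n, ?_⟩
    rw [hn]
    push_cast
    ring

/-! ### The sum modulo 3 -/

private noncomputable def ConstM_G (R : ℕ) (a : ℕ → ℕ) (S : ℕ → Bool) (b : Bool) (i k : ℕ) : ℤ :=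
  ConstM_th (ConstM_D (clR a b i) (lfM S b i) (decide (Even k)))
    (ConstM_o (om R a b) (decide (oM a S i + k - 1 < jjM R a S b)))

private noncomputable def ConstM_F (R : ℕ) (a : ℕ → ℕ) (S : ℕ → Bool) (b : Bool) (i k : ℕ) :
    ZMod 3 :=
  ((ConstM_G R a S b i k - ∑ m ∈ Finset.range i, (a m : ℤ) * sgM S b m - k * sgM S b i : ℤ) :
    ZMod 3)

private theorem ConstM_step (h : ConM R a S) (b : Bool) (i k : ℕ) (hi : i ≤ R)
    (hkl : k ∈ layM R a S i) :
    ((ConstM_g R a S b i k : ℤ) : ZMod 3) = ConstM_F R a S b i (k - 1) - ConstM_F R a S b i k := by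
  have hj1 := ConstM_jj_pos h b
  have hw := ConstM_om_ne R a b
  obtain ⟨hk, hk2, b1, b2⟩ := h.lay_bd hi hkl
  obtain ⟨t1, t2, t3⟩ := clR_ne a b i
  unfold ConstM_F
  rw [← Int.cast_sub, ← sub_eq_zero, ← Int.cast_sub, ZMod.intCast_zmod_eq_zero_iff_dvd]
  unfold ConstM_g ConstM_G
  rw [ConstM_CC a S b i k hk, ConstM_sg]
  have hlay := fun hj => ConstM_layer h b hi hkl hj
  obtain ⟨n, rfl⟩ : ∃ n, k = n + 1 := ⟨k - 1, by omega⟩
  have he : decide (Even n) = !decide (Even (n + 1)) := by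
    by_cases h : Even n
    · have h' : ¬ Even (n + 1) := by rw [Nat.even_add_one]; exact not_not.mpr h
      simp [h, h']
    · have h' : Even (n + 1) := by rw [Nat.even_add_one]; exact h
      simp [h, h']
  rw [Nat.add_sub_cancel, he]
  rw [Nat.add_sub_cancel] at hlay
  have hcc := ConstM_CC a S b i (n + 1) hk
  have hbe := ConstM_CC_behind a S b i (n + 1)
  rw [hcc, Nat.add_sub_cancel] at hbe
  generalize decide (Even (n + 1)) = e at *
  rcases lt_trichotomy (oM a S i + (n + 1) - 1) (jjM R a S b) with h | h | h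
  · rw [if_neg h.ne, decide_eq_true h,
      decide_eq_true (show oM a S i + n - 1 < jjM R a S b by omega)]
    obtain ⟨m, hm⟩ := ConstM_F1 _ t1 t2 t3 (lfM S b i) e _ hw true
    refine ⟨ConstM_th (ConstM_D (clR a b i) (lfM S b i) e) (ConstM_o (om R a b) true) - m, ?_⟩
    push_cast
    linear_combination -hm
  · obtain ⟨-, hb⟩ := hlay h
    rw [if_pos h, decide_eq_false (show ¬ oM a S i + (n + 1) - 1 < jjM R a S b by omega),
      decide_eq_true (show oM a S i + n - 1 < jjM R a S b by omega)]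
    obtain ⟨m, hm⟩ := ConstM_F2 _ t1 t2 t3 (lfM S b i) e _ hw (hbe.trans hb)
    refine ⟨-m, ?_⟩
    push_cast
    linear_combination -hm
  · rw [if_neg h.ne', decide_eq_false (show ¬ oM a S i + (n + 1) - 1 < jjM R a S b by omega),
      decide_eq_false (show ¬ oM a S i + n - 1 < jjM R a S b by omega)]
    obtain ⟨m, hm⟩ := ConstM_F1 _ t1 t2 t3 (lfM S b i) e _ hw false
    refine ⟨ConstM_th (ConstM_D (clR a b i) (lfM S b i) e) (ConstM_o (om R a b) false) - m, ?_⟩
    push_cast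
    linear_combination -hm

private theorem ConstM_par (n : ℕ) : decide (Even (n + 2)) = decide (Even n) := by
  rw [decide_eq_decide, Nat.even_add]
  simp

private theorem ConstM_joint (h : ConM R a S) (b : Bool) {i : ℕ} (hi : i < R) :
    ConstM_F R a S b (i + 1) 0 = ConstM_F R a S b i (lw a S i) := by
  have hw := ConstM_om_ne R a b
  have ha := h.ha i hi.le
  obtain ⟨t1, t2, t3⟩ := clR_ne a b i
  have hidx : oM a S (i + 1) + 0 - 1 = oM a S i + lw a S i - 1 := by rw [oM_succ, Nat.add_zero]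
  rcases hS : S i with _ | _
  · have hlw := lw_false (a := a) hS
    have hlf : lfM S b (i + 1) = !(lfM S b i) := by
      show (if S i then lfM S b i else !(lfM S b i)) = _
      rw [hS]
      rfl
    unfold ConstM_F ConstM_G
    congr 1
    rw [hidx, Finset.sum_range_succ, ConstM_clR, hlf, hlw]
    have := ConstM_D_succ (clR a b i) (lfM S b i) (decide (Even (a i)))
    rw [show decide (Even 0) = true from rfl, this]
    push_cast
    ring
  · have hlw := lw_true (a := a) hS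
    have hlf : lfM S b (i + 1) = lfM S b i := by
      show (if S i then lfM S b i else !(lfM S b i)) = _
      rw [hS]
      rfl
    unfold ConstM_F ConstM_G
    rw [← sub_eq_zero, ← Int.cast_sub, ZMod.intCast_zmod_eq_zero_iff_dvd]
    rw [hidx, Finset.sum_range_succ, ConstM_clR, hlf, hlw, ConstM_sg S b i]
    have he : decide (Even (a i - 1)) = !decide (Even (a i)) := by
      obtain ⟨n, hn⟩ : ∃ n, a i = n + 1 := ⟨a i - 1, by omega⟩
      rw [hn, Nat.add_sub_cancel]
      by_cases h : Even n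
      · have h' : ¬ Even (n + 1) := by rw [Nat.even_add_one]; exact not_not.mpr h
        simp [h, h']
      · have h' : Even (n + 1) := by rw [Nat.even_add_one]; exact h
        simp [h, h']
    have hc : ((a i - 1 : ℕ) : ℤ) = a i - 1 := by
      rw [Nat.cast_sub (by omega)]
      norm_num
    rw [show decide (Even 0) = true from rfl, he, hc]
    obtain ⟨m, hm⟩ := ConstM_F6 _ t1 t2 t3 (lfM S b i) (decide (Even (a i))) _ hw
      (decide (oM a S i + (a i - 1) - 1 < jjM R a S b))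
    refine ⟨m, ?_⟩
    push_cast
    linear_combination hm

private theorem ConstM_mod3 (h : ConM R a S) (b : Bool) :
    ∃ n : ℤ, ∑ i ∈ Finset.range (R + 1), ∑ k ∈ layM R a S i, ConstM_g R a S b i k =
      ∑ i ∈ Finset.range (R + 1), sgM S b i * (a i : ℤ) - sgM S b 0 - sgM S b R + 3 * n := by
  have hj1 := ConstM_jj_pos h b
  have hw := ConstM_om_ne R a b
  have key := ConstM_tele (A := ZMod 3) h (ConstM_F R a S b)
    (fun i k => ((ConstM_g R a S b i k : ℤ) : ZMod 3))
    (fun i k hi hk => ConstM_step h b i k hi hk) (fun i hi => ConstM_joint h b hi)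
  have e1 : ConstM_G R a S b 0 1 = 0 := by
    unfold ConstM_G
    have : decide (oM a S 0 + 1 - 1 < jjM R a S b) = true := by
      apply decide_eq_true
      show 0 + 1 - 1 < _
      omega
    rw [this]
    exact ConstM_F3 b _ hw
  obtain ⟨t1, t2, t3⟩ := clR_ne a b R
  have h2R := h.ha R le_rfl
  have hpar : decide (Even (a R - 2)) = decide (Even (a R)) := by
    obtain ⟨n, hn⟩ : ∃ n, a R = n + 2 := ⟨a R - 2, by omega⟩
    rw [hn, Nat.add_sub_cancel, ConstM_par]
  have e2 : (3 : ℤ) ∣ ConstM_G R a S b R (a R - 2) + sgM S b R := by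
    unfold ConstM_G
    rw [hpar, ConstM_sg]
    have hcS := ConstM_cS a b R (a R)
    by_cases h0 : cS a b R (a R) = 0
    · have hlast : decide (oM a S R + (a R - 2) - 1 < jjM R a S b) = true := by
        apply decide_eq_true
        unfold jjM
        rw [if_pos h0]
        omega
      have ho : om R a b = 1 := by unfold om; rw [if_pos h0]
      rw [hlast, ho]
      exact ConstM_F4 _ t1 t2 t3 _ _ (hcS.symm.trans h0)
    · have hlast : decide (oM a S R + (a R - 2) - 1 < jjM R a S b) = false := by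
        apply decide_eq_false
        have := ConstM_last h b h0
        omega
      have ho : om R a b = if decide (Even (a R)) then (clR a b R).2.1 else (clR a b R).2.2 := by
        unfold om
        rw [if_neg h0, hcS]
      rw [hlast, ho]
      exact ConstM_F5 _ t1 t2 t3 _ _ (by rw [← hcS]; exact h0)
  obtain ⟨m, hm⟩ := e2
  have hd : (3 : ℤ) ∣ ∑ i ∈ Finset.range (R + 1), ∑ k ∈ layM R a S i, ConstM_g R a S b i k -
      (∑ i ∈ Finset.range (R + 1), sgM S b i * (a i : ℤ) - sgM S b 0 - sgM S b R) := by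
    suffices hz : ((∑ i ∈ Finset.range (R + 1), ∑ k ∈ layM R a S i, ConstM_g R a S b i k -
      (∑ i ∈ Finset.range (R + 1), sgM S b i * (a i : ℤ) - sgM S b 0 - sgM S b R) : ℤ) :
        ZMod 3) = 0 by
      have := (ZMod.intCast_zmod_eq_zero_iff_dvd _ 3).mp hz
      exact_mod_cast this
    rw [Int.cast_sub]
    have e3 : ((∑ i ∈ Finset.range (R + 1), ∑ k ∈ layM R a S i, ConstM_g R a S b i k : ℤ) :
        ZMod 3) = ∑ i ∈ Finset.range (R + 1), ∑ k ∈ layM R a S i,
          ((ConstM_g R a S b i k : ℤ) : ZMod 3) := by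
      rw [Int.cast_sum]
      exact Finset.sum_congr rfl fun i _ => Int.cast_sum _ _
    rw [e3, key]
    unfold ConstM_F
    rw [← Int.cast_sub, ← Int.cast_sub, ZMod.intCast_zmod_eq_zero_iff_dvd]
    have e4 : ∑ i ∈ Finset.range (R + 1), sgM S b i * (a i : ℤ) =
        ∑ i ∈ Finset.range R, (a i : ℤ) * sgM S b i + a R * sgM S b R := by
      rw [← Finset.sum_range_succ (fun i => (a i : ℤ) * sgM S b i)]
      exact Finset.sum_congr rfl fun i _ => by ring
    have e5 : ((a R - 2 : ℕ) : ℤ) = a R - 2 := by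
      rw [Nat.cast_sub h2R]
      norm_num
    rw [e1, e4, e5]
    generalize ∑ i ∈ Finset.range R, (a i : ℤ) * sgM S b i = y at *
    simp only [Finset.range_zero, Finset.sum_empty, Nat.cast_one]
    refine ⟨-m, ?_⟩
    push_cast
    linear_combination -hm
  obtain ⟨n, hn⟩ := hd
  exact ⟨n, by linear_combination hn⟩

/-! ### The sum modulo 2 -/

private noncomputable def ConstM_X (R : ℕ) (a : ℕ → ℕ) (S : ℕ → Bool) (b : Bool) (i k : ℕ) : ℤ :=
  if jjM R a S b ≤ oM a S i + k - 1 then -1 else 0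

private theorem ConstM_xsum (h : ConM R a S) (b : Bool) :
    ∑ i ∈ Finset.range (R + 1), ∑ k ∈ layM R a S i, ConstM_x R a S b i k =
      if cS a b R (a R) = 0 then 0 else 1 := by
  have hj1 := ConstM_jj_pos h b
  have step : ∀ i k, i ≤ R → k ∈ layM R a S i →
      ConstM_x R a S b i k = ConstM_X R a S b i (k - 1) - ConstM_X R a S b i k := by
    intro i k hi hkl
    obtain ⟨hk, hk2, b1, b2⟩ := h.lay_bd hi hkl
    unfold ConstM_x ConstM_X
    rcases lt_trichotomy (oM a S i + k - 1) (jjM R a S b) with h | h | h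
    · rw [if_neg h.ne, if_neg (by omega), if_neg (by omega)]
      rfl
    · rw [if_pos h, if_neg (by omega), if_pos (by omega)]
      rfl
    · rw [if_neg h.ne', if_pos (by omega), if_pos (by omega)]
      rfl
  rw [ConstM_tele (A := ℤ) h (ConstM_X R a S b) (ConstM_x R a S b) step
    (fun i _ => by
      unfold ConstM_X
      rw [oM_succ, Nat.add_zero])]
  unfold ConstM_X
  have h0 : oM a S 0 + 1 - 1 = 0 := rfl
  have h2R := h.ha R le_rfl
  rw [h0, if_neg (by omega)]
  by_cases hc : cS a b R (a R) = 0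
  · rw [if_pos hc, if_neg]
    · rfl
    · unfold jjM
      rw [if_pos hc]
      omega
  · rw [if_neg hc, if_pos (ConstM_last h b hc)]
    rfl

private theorem ConstM_parity (n : ℕ) :
    (2 : ℤ) ∣ (n : ℤ) - (if decide (Even n) then 0 else 1) := by
  by_cases h : Even n
  · obtain ⟨m, hm⟩ := h
    have h' : Even n := ⟨m, hm⟩
    refine ⟨m, ?_⟩
    simp [h']
    omega
  · have h' := h
    rw [Nat.not_even_iff_odd] at h
    obtain ⟨m, hm⟩ := h
    refine ⟨m, ?_⟩
    simp [h']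
    omega

private theorem ConstM_Zi (R : ℕ) (a : ℕ → ℕ) (S : ℕ → Bool) (b : Bool) (i : ℕ) :
    (2 : ℤ) ∣ ConstM_Z (clR a b i) (lfM S b i) (om R a b) -
      (ConstM_Z (clR a b 0) (lfM S b 0) (om R a b) + ∑ m ∈ Finset.range i,
        ((a m : ℤ) + if cS a b m (a m + 1) = -om R a b then 1 else 0)) := by
  have hw := ConstM_om_ne R a b
  induction i with
  | zero => simp
  | succ i ih =>
    obtain ⟨t1, t2, t3⟩ := clR_ne a b i
    have hp := ConstM_parity (a i)
    obtain ⟨x, hx⟩ := ih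
    obtain ⟨z, hz⟩ := hp
    rw [Finset.sum_range_succ]
    rcases hS : S i with _ | _
    · have h := ConstM_P1 _ t1 t2 t3 (lfM S b i) (decide (Even (a i))) _ hw
      rw [← ConstM_clR, ← ConstM_cS1] at h
      have hlf : lfM S b (i + 1) = !(lfM S b i) := by
        show (if S i then lfM S b i else !(lfM S b i)) = _
        rw [hS]
        rfl
      rw [hlf]
      obtain ⟨y, hy⟩ := h
      exact ⟨x + y - z, by linear_combination hx + hy - hz⟩
    · have h := ConstM_P6 _ t1 t2 t3 (lfM S b i) (decide (Even (a i))) _ hw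
      rw [← ConstM_clR, ← ConstM_cS1] at h
      have hlf : lfM S b (i + 1) = lfM S b i := by
        show (if S i then lfM S b i else !(lfM S b i)) = _
        rw [hS]
        rfl
      rw [hlf]
      obtain ⟨y, hy⟩ := h
      exact ⟨x + y - z, by linear_combination hx + hy - hz⟩

private theorem ConstM_mod2 (h : ConM R a S) (b : Bool) :
    ∃ n : ℤ, ∑ i ∈ Finset.range (R + 1), ∑ k ∈ layM R a S i, ConstM_x R a S b i k =
      ∑ i ∈ Finset.range R, (if cS a b i (a i + 1) = -om R a b then (1 : ℤ) else 0) +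
        ∑ i ∈ Finset.range (R + 1), (a i : ℤ) + 2 * n := by
  rw [ConstM_xsum h b]
  obtain ⟨x, hx⟩ := ConstM_Zi R a S b R
  obtain ⟨z, hz⟩ := ConstM_parity (a R)
  obtain ⟨t1, t2, t3⟩ := clR_ne a b R
  have hcS := ConstM_cS a b R (a R)
  rw [Finset.sum_add_distrib] at hx
  rw [Finset.sum_range_succ]
  by_cases h0 : cS a b R (a R) = 0
  · have ho : om R a b = 1 := by unfold om; rw [if_pos h0]
    obtain ⟨y, hy⟩ := ConstM_P2 _ t1 t2 t3 (lfM S b R) (decide (Even (a R))) b
      (hcS.symm.trans h0)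
    rw [if_pos h0]
    rw [ho] at hx ⊢
    rw [show clR a b 0 = (if b then 1 else 2, 0, if b then 2 else 1) from rfl,
      show lfM S b 0 = b from rfl] at hx
    exact ⟨x - y - z, by linear_combination hx - hy - hz⟩
  · have ho : om R a b = if decide (Even (a R)) then (clR a b R).2.1 else (clR a b R).2.2 := by
      unfold om
      rw [if_neg h0, hcS]
    obtain ⟨y, hy⟩ := ConstM_P3 _ t1 t2 t3 (lfM S b R) (decide (Even (a R))) b
      (by rw [← hcS]; exact h0)
    rw [if_neg h0]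
    rw [← ho] at hy
    rw [show clR a b 0 = (if b then 1 else 2, 0, if b then 2 else 1) from rfl,
      show lfM S b 0 = b from rfl] at hx
    exact ⟨x - y - z, by linear_combination hx - hy - hz⟩

/-- The sum of the corrections. -/
theorem ConM.const_eq (h : ConM R a S) (b : Bool) (P Q : ℕ → ℕ → ℤ)
    (hP : ∀ i k, i ≤ R → k ∈ layM R a S i → cS a b i (k - 1) = -om R a b → Odd (P i k)) :
    ∃ n : ℤ, ∑ i ∈ Finset.range (R + 1), ∑ k ∈ layM R a S i, ∑ h : Bool,
      ordConst (CM a S b i k) (ordr (om R a b) (jjM R a S b) (oM a S i + k - 1) h) (P i k)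
        (Q i k) = KM R a S b + n := by
  obtain ⟨n, hn⟩ := ConstM_sum (Finset.range (R + 1)) _ _ (fun i hi =>
    ConstM_sum (layM R a S i) _ _ (fun k hk => ConstM_one h b P Q hP i k
      (by rw [Finset.mem_range] at hi; omega) hk))
  rw [hn]
  obtain ⟨n3, h3⟩ := ConstM_mod3 h b
  obtain ⟨n2, h2⟩ := ConstM_mod2 h b
  refine ⟨n3 + n2 + n, ?_⟩
  have e1 : ∑ i ∈ Finset.range (R + 1), ∑ k ∈ layM R a S i,
      ((ConstM_g R a S b i k : ℂ) / 3 + (ConstM_x R a S b i k : ℂ) / 2) =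
      ((∑ i ∈ Finset.range (R + 1), ∑ k ∈ layM R a S i, ConstM_g R a S b i k : ℤ) : ℂ) / 3 +
        ((∑ i ∈ Finset.range (R + 1), ∑ k ∈ layM R a S i, ConstM_x R a S b i k : ℤ) : ℂ) / 2 := by
    push_cast
    simp only [Finset.sum_add_distrib, Finset.sum_div]
  have e2 : ∑ i ∈ Finset.range (R + 1), (sgM S b i : ℂ) * (a i : ℂ) =
      ((∑ i ∈ Finset.range (R + 1), sgM S b i * (a i : ℤ) : ℤ) : ℂ) := by
    push_cast
    rfl
  have e3 : ∑ i ∈ Finset.range R, (if cS a b i (a i + 1) = -om R a b then (1 / 2 : ℂ) else 0) =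
      ((∑ i ∈ Finset.range R, (if cS a b i (a i + 1) = -om R a b then (1 : ℤ) else 0) : ℤ) : ℂ) /
        2 := by
    push_cast
    rw [Finset.sum_div]
    refine Finset.sum_congr rfl fun i _ => ?_
    split <;> simp
  have e4 : ∑ i ∈ Finset.range (R + 1), (a i : ℂ) / 2 =
      ((∑ i ∈ Finset.range (R + 1), (a i : ℤ) : ℤ) : ℂ) / 2 := by
    push_cast
    rw [Finset.sum_div]
  rw [e1, h3, h2]
  unfold KM
  rw [e2, e3, e4]
  push_cast
  ring

end Pool.Agent.S5.CV
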