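import Pool.Agent.S5.CV.FinM

/-!
# Stage 3b, complex volume: the critical point satisfies the equations of the chain
-/

namespace Pool.Agent.S5.CV

open Pool.Agent.H63.VC3 Pool.Agent.H63.VC5 Complex
open Pool.Agent.H25.RK (gdv)
open Pool.Agent.S3 (sP Reg QO qq yy Lm Lp)
open Pool.Agent.S3.CV (EQ Ds bS pi_ne')
open Pool.Agent.S3.E (uu)
open Pool.Agent.S3.G (zz Xx ze im_shape)
open Pool.Agent.S5.G (CrtM kp kp_true kp_false)
open scoped ComplexConjugate

/-- The angle of the layer `k`. -/
noncomputable def AM (z ql : ℕ → ℂ) (i k : ℕ) : ℂ := k * z i - I * ql i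

theorem zz_AM (z ql : ℕ → ℂ) (i k : ℕ) :
    zz z ql i k = (sin (z i) / sin (AM z ql i k)) ^ 2 := by
  have e : conj (Xx z ql i k) = I * sin (AM z ql i k) / sin (z i) := by
    unfold Xx ze
    rw [map_div₀, ← sinh_conj, ← sin_conj, conj_conj, map_sub, map_mul, map_mul, conj_conj,
      conj_conj, conj_I, Complex.conj_natCast]
    congr 1
    have e2 : ql i - -I * (k : ℂ) * z i = AM z ql i k * I := by
      unfold AM
      linear_combination (ql i) * I_sq
    rw [e2, sinh_mul_I]
    ring
  unfold zz
  rw [e, div_pow, div_pow, mul_pow, I_sq]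
  by_cases h0 : sin (AM z ql i k) = 0
  · rw [h0]
    simp
  · by_cases h1 : sin (z i) = 0
    · rw [h1]
      simp
    · field_simp

theorem exp_hh' {w : ℂ} (h : sin (Real.pi * w) ≠ 0) : exp (hh w) = 2 * sin (Real.pi * w) := by
  unfold hh
  rw [exp_log]
  exact mul_ne_zero two_ne_zero h

section crt

variable {R : ℕ} {a : ℕ → ℕ} {S : ℕ → Bool} {z ql qr : ℕ → ℂ} (h : CrtM R a S z ql qr)
include h

theorem zz_im {i k : ℕ} (hi : i ≤ R) (hk : k ∈ layM R a S i) : 0 < (zz z ql i k).im := by
  have hm := Finset.mem_Icc.1 hk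
  have ha := h.ha i hi
  apply im_shape
  rcases Nat.lt_or_ge k (a i) with h0 | h0
  · refine h.X_pos i k hi ?_ (by omega) ?_ ?_
    · have := hm.1
      split at this <;> omega
    · rintro ⟨h1, h2⟩
      have := hm.1
      rw [if_pos h1] at this
      omega
    · rintro ⟨h1, h2⟩
      have := hm.2
      rw [if_pos h1] at this
      omega
  · have hm2 := hm.2
    by_cases him : i = R
    · rw [if_pos him] at hm2
      omega
    · rw [if_neg him] at hm2
      have hlt : i < R := by omega
      rcases hS : S i with _ | _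
      · rw [lw_false hS] at hm2
        have e : k = a i := by omega
        rw [e]
        exact h.X_end_quad i hlt hS
      · rw [lw_true hS] at hm2
        omega

theorem pos_of (b : Bool) {i k : ℕ} (hi : i ≤ R) (hk : k ∈ layM R a S i) :
    0 < (zM S b (WM S b z) (aM S b ql) i k).im := by
  have hX := zz_im h hi hk
  rw [zz_AM] at hX
  have hp := pi_ne'
  have s0 : sin (z i) ≠ 0 := S3.G.sin_ne (h.zre i hi)
  have s1 : sin (AM z ql i k) ≠ 0 := by
    intro h0
    rw [h0] at hX
    simp at hX
  have hsq : 0 < ((sin (AM z ql i k) / sin (z i)) ^ 2)⁻¹.im := by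
    have e : ((sin (AM z ql i k) / sin (z i)) ^ 2)⁻¹ = (sin (z i) / sin (AM z ql i k)) ^ 2 := by
      rw [← inv_pow, inv_div]
    rw [e]
    exact hX
  unfold zM hdM akM WM aM
  rcases hl : lfM S b i with _ | _
  · rw [kp_false, kp_false, sc_false]
    have e1 : (k : ℂ) * (conj (z i) / Real.pi) + conj (-(I * ql i)) / Real.pi =
        conj (AM z ql i k) / Real.pi := by
      unfold AM
      rw [map_sub, map_mul, Complex.conj_natCast, map_neg]
      ring
    rw [e1]
    have g0 := exp_hh' (w := conj (z i) / Real.pi) (by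
      rw [mul_div_cancel₀ _ hp, sin_conj, Ne, map_eq_zero]
      exact s0)
    have g1 := exp_hh' (w := conj (AM z ql i k) / Real.pi) (by
      rw [mul_div_cancel₀ _ hp, sin_conj, Ne, map_eq_zero]
      exact s1)
    rw [mul_div_cancel₀ _ hp, sin_conj] at g0 g1
    have e2 : exp (-(2 * (-1 * (hh (conj (AM z ql i k) / Real.pi) -
        hh (conj (z i) / Real.pi))))) = conj ((sin (AM z ql i k) / sin (z i)) ^ 2) := by
      have e3 : -(2 * (-1 * (hh (conj (AM z ql i k) / Real.pi) - hh (conj (z i) / Real.pi)))) =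
          (hh (conj (AM z ql i k) / Real.pi) - hh (conj (z i) / Real.pi)) +
          (hh (conj (AM z ql i k) / Real.pi) - hh (conj (z i) / Real.pi)) := by ring
      rw [e3, Complex.exp_add, Complex.exp_sub, g0, g1, mul_div_mul_left _ _ two_ne_zero, map_pow,
        map_div₀]
      ring
    rw [e2, conj_im, neg_pos]
    rw [inv_im] at hsq
    have hn : 0 < Complex.normSq ((sin (AM z ql i k) / sin (z i)) ^ 2) :=
      Complex.normSq_pos.2 (pow_ne_zero 2 (div_ne_zero s1 s0))
    by_contra hc
    rw [not_lt] at hc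
    have := div_nonpos_of_nonpos_of_nonneg (neg_nonpos.2 hc) hn.le
    linarith
  · rw [kp_true, kp_true, sc_true]
    have e1 : (k : ℂ) * (z i / Real.pi) + -(I * ql i) / Real.pi = AM z ql i k / Real.pi := by
      unfold AM
      ring
    rw [e1]
    have g0 := exp_hh' (w := z i / Real.pi) (by
      rw [mul_div_cancel₀ _ hp]
      exact s0)
    have g1 := exp_hh' (w := AM z ql i k / Real.pi) (by
      rw [mul_div_cancel₀ _ hp]
      exact s1)
    rw [mul_div_cancel₀ _ hp] at g0 g1
    have e2 : exp (-(2 * (1 * (hh (AM z ql i k / Real.pi) - hh (z i / Real.pi))))) =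
        (sin (z i) / sin (AM z ql i k)) ^ 2 := by
      have e3 : -(2 * (1 * (hh (AM z ql i k / Real.pi) - hh (z i / Real.pi)))) =
          (hh (z i / Real.pi) - hh (AM z ql i k / Real.pi)) +
          (hh (z i / Real.pi) - hh (AM z ql i k / Real.pi)) := by ring
      rw [e3, Complex.exp_add, Complex.exp_sub, g0, g1, mul_div_mul_left _ _ two_ne_zero]
      ring
    rw [e2]
    exact hX

theorem ver_of (b : Bool) {i : ℕ} (hi : i ≤ R) :
    (a i : ℂ) * WM S b z i + aM S b ql i + aM S b qr i = 1 := by
  have hv := h.eq i hi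
  have hp := pi_ne'
  unfold WM aM
  rcases hl : lfM S b i with _ | _
  · rw [kp_false, kp_false, kp_false]
    have hv' := congrArg conj hv
    rw [map_mul, map_add, map_mul, map_add, conj_I, conj_ofReal, Complex.conj_natCast] at hv'
    rw [map_neg, map_neg, map_mul, map_mul, conj_I]
    field_simp
    linear_combination hv'
  · rw [kp_true, kp_true, kp_true]
    field_simp
    linear_combination hv

theorem dx_r (hE : EdgM R S z) {i : ℕ} (hi : i < R) (hS : S i = true) :
    DX (uu (z i)) (uu (z (i + 1))) ∧ DX (uu (z (i + 1))) (uu (z i)) := by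
  have h1 := h.zre i hi.le
  have h2 := h.zim i hi.le
  have h3 := h.zre (i + 1) hi
  have h4 := h.zim (i + 1) hi
  have h5 := h.cosz i hi.le
  have h6 := h.cosz (i + 1) hi
  have h7 := hE.nrm i hi hS
  exact ⟨dx_of h1.1 h1.2 h2 h3.1 h3.2 h4 h5.2.2 h6.2.2 h7.2,
    dx_of h3.1 h3.2 h4 h1.1 h1.2 h2 h6.2.2 h5.2.2 h7.1⟩

/-- **The equations of the chain.** -/
theorem cum_of (hE : EdgM R S z) (b : Bool) :
    CUM R a S b (WM S b z) (aM S b ql) (aM S b qr) (YM S b z) where
  con := conM_of h
  l0 := by
    unfold aM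
    rw [h.l0, mul_zero, neg_zero]
    cases lfM S b 0
    · rw [kp_false, map_zero, zero_div]
    · rw [kp_true, zero_div]
  rR := by
    unfold aM
    rw [h.rR, mul_zero, neg_zero]
    cases lfM S b R
    · rw [kp_false, map_zero, zero_div]
    · rw [kp_true, zero_div]
  eo := fun i hi hS => by
    have hO := hE.opp i hi hS
    have hq : EQs (lfM S b i) (UM S b z i) (UM S b z (i + 1)) := by
      unfold EQs UM
      rw [lfM_false hS]
      rcases lfM S b i with _ | _
      · rw [Bool.not_false, kq_false, kq_true]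
        simp only [Bool.false_eq_true, if_false]
        have := EQ.swap hO
        rw [conj_conj] at this
        exact this
      · rw [Bool.not_true, kq_false, kq_true]
        simp only [if_true]
        exact hO
    have k := hq.eo
    rw [← lfM_false hS, bE_r h b hi, bE_l h b hi, gdv_UM h b hi.le, gdv_UM h b hi] at k
    unfold YM
    rw [hS]
    simpa using k
  es := fun i hi hS => by
    have hd := dx_r h hE hi hS
    have hq : DXs (lfM S b i) (UM S b z i) (UM S b z (i + 1)) := by
      unfold DXs UM
      rw [lfM_true hS]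
      rcases lfM S b i with _ | _
      · rw [kq_false, kq_false, conj_conj, conj_conj]
        simpa using hd
      · rw [kq_true, kq_true]
        simpa using hd
    have k := hq.es
    have hbl := bE_l h b hi
    rw [lfM_true hS] at hbl
    rw [bE_r h b hi, hbl, gdv_UM h b hi.le, gdv_UM h b hi] at k
    unfold YM
    rw [hS]
    simpa using k
  ver := fun i hi => ver_of h b hi
  pos := fun i k hi hk => pos_of h b hi hk

end crt

end Pool.Agent.S5.CV
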