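import Pool.Agent.S5.CV.CumM
import Pool.Agent.S3.CV.Defs

/-!
# Stage 3b, complex volume: the critical value of a mixed chain is its complex volume
-/

namespace Pool.Agent.S5.CV

open Pool.Agent.H63.VC3 Pool.Agent.H63.VC5 Complex
open Pool.Agent.H25.RK (gdv)
open Pool.Agent.H1TB (conwayH)
open Pool.Agent.S3 (sP wr Reg qq yy arsh TT csq csqT_ne csq_sq exp_gd arshT_im pi_yy cosh_qq
  sinh_arsh cosh_arsh yy_conj yy_re_pos yy_re_lt)
open Pool.Agent.S3.CV (EQ bS pi_ne' exp_yy sP_even)
open Pool.Agent.S3.E (uu)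
open Pool.Agent.S3.G (Yy)
open Pool.Agent.S5.G (CrtM kp kp_true kp_false YrM WV)
open scoped ComplexConjugate BigOperators

theorem exp_yyX {u w : ℂ} (h : DX u w) :
    exp (2 * Real.pi * I * yy u w) = (1 + I * TT u w) / (1 - I * TT u w) := by
  have h1 := h.pi_yy
  have h2 := exp_gd h.arT
  rw [← h1, sinh_arsh, cosh_arsh] at h2
  have h3 := csq_sq (TT u w)
  have h4 := h.csqT_ne
  have e : exp (2 * Real.pi * I * yy u w) = exp (I * (Real.pi * yy u w)) ^ 2 := by
    rw [← Complex.exp_nat_mul]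
    congr 1
    push_cast
    ring
  have h5 : (1 + I * TT u w) * (1 - I * TT u w) = csq (TT u w) ^ 2 := by
    rw [h3]
    linear_combination (-(TT u w) ^ 2) * I_sq
  have h6 : 1 - I * TT u w ≠ 0 := fun h0 => by
    rw [h0, mul_zero] at h5
    exact pow_ne_zero 2 h4 h5.symm
  rw [e, h2, div_pow, div_eq_div_iff (pow_ne_zero 2 h4) h6]
  linear_combination (1 + I * TT u w) * h5

theorem Yy_TT {T κ c q w : ℂ} (hq : cosh q = T / c) (hc : c * κ = 1) (hw : w = q) :
    Yy κ (cosh w) = (1 + I * T) / (1 - I * T) := by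
  have hκ : κ ≠ 0 := fun h0 => by
    rw [h0, mul_zero] at hc
    exact zero_ne_one hc
  have hc0 : c ≠ 0 := fun h0 => by
    rw [h0, zero_mul] at hc
    exact zero_ne_one hc
  have e : cosh w = κ * T := by
    rw [hw, hq, div_eq_iff hc0]
    linear_combination (-T) * hc
  unfold Yy
  rw [e]
  have e1 : κ + I * (κ * T) = κ * (1 + I * T) := by ring
  have e2 : κ - I * (κ * T) = κ * (1 - I * T) := by ring
  rw [e1, e2, mul_div_mul_left _ _ hκ]

theorem exp_kp (l : Bool) (Y : ℂ) : exp (2 * Real.pi * I * kp l Y) =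
    if l then exp (2 * Real.pi * I * Y) else (conj (exp (2 * Real.pi * I * Y)))⁻¹ := by
  cases l
  · rw [kp_false]
    simp only [Bool.false_eq_true, if_false]
    rw [← exp_conj, ← Complex.exp_neg]
    congr 1
    rw [map_mul, map_mul, map_mul, conj_I, conj_ofReal, Complex.conj_ofNat]
    ring
  · rw [kp_true]
    simp

theorem exp_inj' {x y : ℂ} (h : exp (2 * Real.pi * I * x) = exp (2 * Real.pi * I * y))
    (hx : -(1 / 2) < x.re ∧ x.re < 1 / 2) (hy : 0 < y.re ∧ y.re < 1 / 2) : x = y := by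
  obtain ⟨n, hn⟩ := Complex.exp_eq_exp_iff_exists_int.1 h
  have hp : (2 * Real.pi * I : ℂ) ≠ 0 := Complex.two_pi_I_ne_zero
  have e : x = y + n := by
    have : (2 * Real.pi * I : ℂ) * x = (2 * Real.pi * I) * (y + n) := by
      rw [hn]; ring
    exact mul_left_cancel₀ hp this
  have hre : x.re = y.re + n := by
    rw [e]; simp
  have n0 : n = 0 := by
    have h1 : (n : ℝ) < 1 := by linarith [hx.2, hy.1]
    have h2 : (-1 : ℝ) < n := by linarith [hx.1, hy.2]
    have h3 : n < 1 := by exact_mod_cast h1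
    have h4 : -1 < n := by exact_mod_cast h2
    omega
  rw [e, n0]
  simp

section crt

variable {R : ℕ} {a : ℕ → ℕ} {S : ℕ → Bool} {z ql qr : ℕ → ℂ} (h : CrtM R a S z ql qr)
  (hE : EdgM R S z)
include h hE

omit h in
/-- The variable of an edge. -/
theorem YM_kp (b : Bool) {i : ℕ} (hi : i < R) :
    YM S b z i = kp (lfM S b i) (yy (uu (z i)) (kq (S i) (uu (z (i + 1))))) := by
  unfold YM UM
  rcases hS : S i with _ | _
  · have hr := (hE.opp i hi hS).q.reg
    simp only [Bool.false_eq_true, if_false]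
    rw [lfM_false hS, kq_false]
    rcases lfM S b i with _ | _
    · rw [Bool.not_false, kq_true, kq_false, kp_false, ← yy_conj hr, conj_conj]
    · rw [Bool.not_true, kq_false, kq_true, kp_true]
  · simp only [if_true]
    rw [lfM_true hS, kq_true]
    unfold yE
    rcases lfM S b i with _ | _
    · simp only [Bool.false_eq_true, if_false]
      rw [kq_false, kq_false, conj_conj, conj_conj, kp_false]
    · simp only [if_true]
      rw [kq_true, kq_true, kp_true]

theorem yy_fact {i : ℕ} (hi : i < R) :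
    (0 < (yy (uu (z i)) (kq (S i) (uu (z (i + 1))))).re ∧
      (yy (uu (z i)) (kq (S i) (uu (z (i + 1))))).re < 1 / 2) ∧
    exp (2 * Real.pi * I * yy (uu (z i)) (kq (S i) (uu (z (i + 1))))) = YrM S z qr i := by
  have hq := qq_r h hi
  have h3 := h.zre (i + 1) hi
  have h4 := h.zim (i + 1) hi
  have hc := cosh_uu' h3.1 h3.2 h4
  unfold YrM
  rcases hS : S i with _ | _
  · have hr := (hE.opp i hi hS).q.reg
    rw [hS, kq_false] at hq
    rw [kq_false, kp_false]
    refine ⟨⟨yy_re_pos hr, yy_re_lt hr⟩, ?_⟩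
    rw [exp_yy hr]
    refine (Yy_TT (cosh_qq hr) ?_ hq.symm).symm
    rw [cosh_conj, ← map_mul, hc, map_one]
  · have hd := (dx_r h hE hi hS).1
    rw [hS, kq_true] at hq
    rw [kq_true, kp_true]
    refine ⟨hd.yre, ?_⟩
    rw [exp_yyX hd]
    exact (Yy_TT hd.cosh_qq hc hq.symm).symm

theorem YM_re (b : Bool) {i : ℕ} (hi : i < R) : 0 < (YM S b z i).re ∧ (YM S b z i).re < 1 / 2 := by
  rw [YM_kp hE b hi]
  have := (yy_fact h hE hi).1
  cases lfM S b i
  · rw [kp_false, conj_re]
    exact this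
  · rw [kp_true]
    exact this

theorem YM_exp (b : Bool) {i : ℕ} (hi : i < R) : exp (2 * Real.pi * I * YM S b z i) =
    if lfM S b i then YrM S z qr i else (conj (YrM S z qr i))⁻¹ := by
  rw [YM_kp hE b hi, exp_kp, (yy_fact h hE hi).2]

omit hE in
theorem lfM_sign {r : ℕ → ℤ} (hra : ∀ i, i ≤ R → (r i).natAbs = a i)
    (hrs : ∀ i, i < R → (S i = true ↔ 0 < r i * r (i + 1))) {i : ℕ} (hi : i ≤ R) :
    lfM S (decide (r 0 < 0)) i = decide (r i < 0) := by
  have hn : ∀ i, i ≤ R → r i ≠ 0 := by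
    intro i hi h0
    have h1 := hra i hi
    have h2 := h.ha i hi
    rw [h0] at h1
    simp at h1
    omega
  induction i with
  | zero => rfl
  | succ i ih =>
    have h1 := ih (by omega)
    have h2 := hrs i (by omega)
    have n0 := hn i (by omega)
    have n1 := hn (i + 1) hi
    rcases hS : S i with _ | _
    · rw [lfM_false hS, h1]
      rw [hS] at h2
      have h3 : ¬ 0 < r i * r (i + 1) := fun h4 => by simpa using h2.2 h4
      rcases lt_or_gt_of_ne n0 with h4 | h4
      · have h5 : ¬ r (i + 1) < 0 := fun h6 => h3 (mul_pos_of_neg_of_neg h4 h6)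
        simp [h4, h5]
      · have h5 : r (i + 1) < 0 := by
          rcases lt_or_gt_of_ne n1 with h6 | h6
          · exact h6
          · exact absurd (mul_pos h4 h6) h3
        have h6 : ¬ r i < 0 := by omega
        simp [h6, h5]
    · rw [lfM_true hS, h1]
      have h3 := h2.1 hS
      by_cases h4 : r i < 0
      · have h5 : r (i + 1) < 0 := (neg_iff_neg_of_mul_pos h3).1 h4
        simp [h4, h5]
      · have h5 : ¬ r (i + 1) < 0 := fun h6 => h4 ((neg_iff_neg_of_mul_pos h3).2 h6)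
        simp [h4, h5]

/-- The value of the potential. -/
theorem WUM_WV (r : ℕ → ℤ) (hra : ∀ i, i ≤ R → (r i).natAbs = a i)
    (hrs : ∀ i, i < R → (S i = true ↔ 0 < r i * r (i + 1)))
    (y : Fin R → ℂ) (v : Fin (R + 1) → ℂ)
    (hy : ∀ j, -(1 / 2) < (y j).re ∧ (y j).re < 1 / 2)
    (hv : ∀ i : Fin (R + 1), v i = if r i < 0 then z i / Real.pi else -(conj (z i) / Real.pi))
    (hY : ∀ j : Fin R, exp (2 * Real.pi * I * y j) =
      if r j < 0 then YrM S z qr j else (conj (YrM S z qr j))⁻¹) :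
    WUM R a S (decide (r 0 < 0)) (WM S (decide (r 0 < 0)) z) (YM S (decide (r 0 < 0)) z) =
      WV (fun i : Fin (R + 1) => (r i : ℝ) / 2) y v := by
  set b := decide (r 0 < 0) with hb
  have hl : ∀ i, i ≤ R → lfM S b i = decide (r i < 0) := fun i hi => lfM_sign h hra hrs hi
  have hyj : ∀ j : Fin R, y j = YM S b z j := by
    intro j
    refine exp_inj' ?_ (hy j) (YM_re h hE b j.2)
    rw [YM_exp h hE b j.2, hY j, hl j j.2.le]
    by_cases h0 : r j < 0 <;> simp [h0]
  have hvi : ∀ i : Fin (R + 1), v i = (sgM S b i : ℂ) * WM S b z i := by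
    intro i
    have hi : (i : ℕ) ≤ R := by omega
    rw [hv i]
    unfold sgM WM
    rw [hl i hi]
    by_cases h0 : r i < 0
    · rw [decide_eq_true h0, if_pos h0, kp_true]
      simp
    · rw [decide_eq_false h0, if_neg h0, kp_false]
      simp
  have hri : ∀ i : Fin (R + 1), (r i : ℝ) / 2 = -(sgM S b i : ℝ) * (a i : ℝ) / 2 := by
    intro i
    have hi : (i : ℕ) ≤ R := by omega
    have h1 := hra i hi
    have h2 : (r i : ℤ) = -(sgM S b i) * (a i : ℤ) := by
      unfold sgM
      rw [hl i hi]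
      by_cases h0 : r i < 0
      · rw [decide_eq_true h0]
        simp only [if_true]
        omega
      · rw [decide_eq_false h0]
        simp only [Bool.false_eq_true, if_false]
        omega
    rw [h2]
    push_cast
    ring
  have hs : ∀ (i : ℕ) (Y W : ℂ), sP Y (.op ((sgM S b i : ℂ) * W)) = sP Y (.op W) := by
    intro i Y W
    unfold sgM
    split
    · rw [Int.cast_one, one_mul]
    · rw [Int.cast_neg, Int.cast_one, neg_one_mul, sP_even]
  unfold WUM WV
  rw [Finset.sum_range, Finset.sum_range]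
  congr 1
  · refine Finset.sum_congr rfl fun j _ => ?_
    rw [hvi, hvi, hyj, hs, hs]
    simp
  · refine Finset.sum_congr rfl fun i _ => ?_
    rw [hvi]
    simp only [hri]

/-- **The critical value of a mixed chain is its complex volume.** -/
theorem cv_mixed (r : ℕ → ℤ) (hra : ∀ i, i ≤ R → (r i).natAbs = a i)
    (hrs : ∀ i, i < R → (S i = true ↔ 0 < r i * r (i + 1)))
    (y : Fin R → ℂ) (v : Fin (R + 1) → ℂ)
    (hy : ∀ j, -(1 / 2) < (y j).re ∧ (y j).re < 1 / 2)
    (hv : ∀ i : Fin (R + 1), v i = if r i < 0 then z i / Real.pi else -(conj (z i) / Real.pi))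
    (hY : ∀ j : Fin R, exp (2 * Real.pi * I * y j) =
      if r j < 0 then YrM S z qr j else (conj (YrM S z qr j))⁻¹) :
    ∃ Z : ℂ, S3.CV.IsComplexVolume (conwayH ((List.range (R + 1)).map r)) (decide (r 0 < 0)) Z ∧
      ∃ k : ℤ, Z = 2 * Real.pi * I * WV (fun i : Fin (R + 1) => (r i : ℝ) / 2) y v +
        (Real.pi : ℂ) ^ 2 / 2 * ∑ i : Fin (R + 1), (r i : ℂ) + k * (Real.pi : ℂ) ^ 2 := by
  obtain ⟨Z, hZ, n, hn⟩ := (cum_of h hE (decide (r 0 < 0))).main ((conM_of h).far hra hrs)
  refine ⟨Z, hZ, ?_⟩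
  have e2 : ∃ l : ℤ, ∑ i ∈ Finset.range (R + 1), (a i : ℂ) =
      ∑ i : Fin (R + 1), (r i : ℂ) + 2 * l := by
    refine ⟨∑ i : Fin (R + 1), (if r i < 0 then (a i : ℤ) else 0), ?_⟩
    rw [Finset.sum_range]
    push_cast
    rw [Finset.mul_sum, ← Finset.sum_add_distrib]
    refine Finset.sum_congr rfl fun i _ => ?_
    have h1 := hra i (by omega)
    by_cases h0 : r i < 0
    · rw [if_pos h0]
      have h2 : (r i : ℤ) = -(a i : ℤ) := by omega
      rw [h2]
      push_cast
      ring
    · rw [if_neg h0]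
      have h2 : (r i : ℤ) = (a i : ℤ) := by omega
      rw [h2]
      push_cast
      ring
  obtain ⟨l, hl⟩ := e2
  rw [hl, WUM_WV h hE r hra hrs y v hy hv hY] at hn
  refine ⟨n + l, ?_⟩
  rw [hn]
  push_cast
  ring

end crt

end Pool.Agent.S5.CV
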