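import Pool.Agent.S5.CV.LamY

/-!
# Stage 3b, complex volume: the variables of an edge with equal signs

Both variables `u`, `w` are in the first quadrant, `arg cosh < π / 4`, `|cosh w|² ≥ 1 / 2`.
-/

namespace Pool.Agent.S5.CV

open Pool.Agent.H63.VC3 Pool.Agent.H63.VC5 Complex Filter Topology
open Pool.Agent.H25.RK (gdv gdv_re_lt gdv_hasDerivAt)
open Pool.Agent.S3 Pool.Agent.S3.CV
open scoped ComplexConjugate

/-- The domain. -/
structure DX (u w : ℂ) : Prop where
  ur : 0 < u.re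
  ui : 0 < u.im
  up : u.im < Real.pi / 2
  uf : (cosh u).im < (cosh u).re
  wr : 0 ≤ w.re
  wi : 0 ≤ w.im
  wp : w.im < Real.pi / 2
  wf : (cosh w).im < (cosh w).re
  wn : 1 / 2 ≤ Complex.normSq (cosh w)

theorem sq_slit {z : ℂ} (h : 0 < z.re) : z ^ 2 ∈ slitPlane := by
  rw [mem_slitPlane_iff, sq, mul_re, mul_im]
  rcases eq_or_ne z.im 0 with h0 | h0
  · left
    rw [h0, mul_zero, sub_zero]
    positivity
  · right
    intro h1
    have h2 : z.re * z.im = 0 := by linarith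
    rcases mul_eq_zero.1 h2 with h3 | h3
    · linarith
    · exact h0 h3

theorem re_div_pos {a b : ℂ} (h : 0 < a.re * b.re + a.im * b.im) : 0 < (a / b).re := by
  have hb : b ≠ 0 := by
    rintro rfl
    simp at h
  rw [Complex.div_re, ← add_div]
  exact div_pos h (Complex.normSq_pos.2 hb)

theorem arg_quarter {z : ℂ} (h0 : 0 ≤ z.im) (h1 : z.im < z.re) :
    0 ≤ z.arg ∧ z.arg < Real.pi / 4 := by
  have hpi := Real.pi_pos
  have hre : 0 < z.re := lt_of_le_of_lt h0 h1
  have hz : z ≠ 0 := by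
    rintro rfl
    simp at hre
  have hn : 0 < ‖z‖ := norm_pos_iff.2 hz
  have a0 : 0 ≤ z.arg := Complex.arg_nonneg_iff.2 h0
  have a1 := (abs_lt.1 (abs_arg_lt_pi_div_two_iff.2 (Or.inl hre))).2
  refine ⟨a0, ?_⟩
  by_contra hc
  push Not at hc
  have e1 : Real.sin z.arg * ‖z‖ = z.im := by rw [sin_arg]; field_simp
  have e2 : Real.cos z.arg * ‖z‖ = z.re := by rw [cos_arg hz]; field_simp
  have s1 : Real.sin (Real.pi / 4) ≤ Real.sin z.arg :=
    Real.sin_le_sin_of_le_of_le_pi_div_two (by linarith) a1.le hc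
  have s2 : Real.cos z.arg ≤ Real.cos (Real.pi / 4) :=
    Real.cos_le_cos_of_nonneg_of_le_pi (by linarith) (by linarith) hc
  rw [Real.sin_pi_div_four] at s1
  rw [Real.cos_pi_div_four] at s2
  have : Real.cos z.arg * ‖z‖ ≤ Real.sin z.arg * ‖z‖ :=
    mul_le_mul_of_nonneg_right (s2.trans s1) hn.le
  rw [e1, e2] at this
  linarith

theorem arg_half {z : ℂ} (h0 : 0 < z.re) (h1 : 0 < z.im) : 0 < z.arg ∧ z.arg < Real.pi / 2 :=
  S3.G.arg_quad h0 h1

variable {u w : ℂ} (h : DX u w)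
include h

theorem DX.l : |u.im| < Real.pi / 2 :=
  abs_lt.2 ⟨by linarith [h.ui, Real.pi_pos], h.up⟩

theorem DX.r : |w.im| < Real.pi / 2 :=
  abs_lt.2 ⟨by linarith [h.wi, Real.pi_pos], h.wp⟩

theorem DX.cu : 0 < (cosh u).re ∧ 0 < (cosh u).im := by
  refine ⟨cosh_re_pos h.l, ?_⟩
  rw [cosh_im']
  exact mul_pos (Real.sinh_pos_iff.2 h.ur)
    (Real.sin_pos_of_pos_of_lt_pi h.ui (by linarith [h.up, Real.pi_pos]))

theorem DX.su : 0 < (sinh u).re ∧ 0 < (sinh u).im := by
  refine ⟨?_, ?_⟩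
  · rw [sinh_re']
    exact mul_pos (Real.sinh_pos_iff.2 h.ur) (cos_pos' h.l)
  · rw [sinh_im']
    exact mul_pos (Real.cosh_pos _)
      (Real.sin_pos_of_pos_of_lt_pi h.ui (by linarith [h.up, Real.pi_pos]))

theorem DX.cw : 0 < (cosh w).re ∧ 0 ≤ (cosh w).im := by
  refine ⟨cosh_re_pos h.r, ?_⟩
  rw [cosh_im']
  exact mul_nonneg (Real.sinh_nonneg_iff.2 h.wr)
    (Real.sin_nonneg_of_nonneg_of_le_pi h.wi (by linarith [h.wp, Real.pi_pos]))

theorem DX.sq_im : 0 < (cosh w ^ 2 + sinh u ^ 2).im := by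
  obtain ⟨a1, a2⟩ := h.su
  obtain ⟨b1, b2⟩ := h.cw
  rw [sq, sq, add_im, mul_im, mul_im]
  have := mul_pos a1 a2
  have := mul_nonneg b1.le b2
  nlinarith

theorem DX.add_im' : 0 < (cosh (u + w)).im := by
  rw [cosh_im', add_re, add_im]
  refine mul_pos (Real.sinh_pos_iff.2 (by linarith [h.ur, h.wr])) ?_
  exact Real.sin_pos_of_pos_of_lt_pi (by linarith [h.ui, h.wi]) (by linarith [h.up, h.wp])

theorem DX.sub' : |(u - w).im| < Real.pi / 2 := by
  rw [sub_im, abs_lt]
  constructor <;> linarith [h.ui, h.wi, h.up, h.wp]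

theorem DX.add_slit : cosh (u + w) ∈ slitPlane :=
  mem_slitPlane_iff.2 (Or.inr h.add_im'.ne')

theorem DX.exp_add' : exp (Lc (u + w)) = cosh (u + w) :=
  exp_log (slitPlane_ne_zero h.add_slit)

theorem DX.TT_sq : TT u w ^ 2 = cosh w ^ 2 + sinh u ^ 2 := by
  rw [TT, ← exp_nat_mul]
  have e : ((2 : ℕ) : ℂ) * ((Lc (u + w) + Lc (u - w)) / 2) = Lc (u + w) + Lc (u - w) := by
    push_cast; ring
  rw [e, exp_add, h.exp_add', exp_Lc h.sub', cosh_add, cosh_sub]
  linear_combination (cosh w) ^ 2 * cosh_sq_sub_sinh_sq u + (sinh u ^ 2) * cosh_sq_sub_sinh_sq w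

theorem DX.TT_pos : 0 < (TT u w).re ∧ 0 < (TT u w).im := by
  have hpi := Real.pi_pos
  have h1 := h.sq_im
  rw [← h.TT_sq, sq, mul_im] at h1
  have h2 : 0 < (TT u w).re * (TT u w).im := by linarith
  rcases lt_trichotomy (TT u w).re 0 with h3 | h3 | h3
  · exfalso
    have h4 : (TT u w).im < 0 := by
      by_contra hc
      push Not at hc
      have := mul_nonpos_of_nonpos_of_nonneg h3.le hc
      linarith
    have a1 : 0 < (Lc (u + w)).im ∧ (Lc (u + w)).im < Real.pi := by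
      rw [Lc, log_im]
      exact S3.G.arg_up h.add_im'
    have a2 : |(Lc (u - w)).im| < Real.pi / 2 := by
      rw [Lc, log_im]
      exact abs_arg_lt_pi_div_two_iff.2 (Or.inl (cosh_re_pos h.sub'))
    have a3 := abs_lt.1 a2
    have e : ((Lc (u + w) + Lc (u - w)) / 2).im = ((Lc (u + w)).im + (Lc (u - w)).im) / 2 := by
      rw [show (2 : ℂ) = ((2 : ℝ) : ℂ) by norm_num, div_ofReal_im, add_im]
    have h5 := h4
    have h6 := h3
    rw [TT, exp_im, e] at h5
    rw [TT, exp_re, e] at h6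
    set s := ((Lc (u + w)).im + (Lc (u - w)).im) / 2 with hs
    have hE := Real.exp_pos ((Lc (u + w) + Lc (u - w)) / 2).re
    have h7 : Real.sin s < 0 := by
      by_contra hc
      push Not at hc
      have := mul_nonneg hE.le hc
      linarith
    have h8 : s < 0 := by
      by_contra hc
      push Not at hc
      have := Real.sin_nonneg_of_nonneg_of_le_pi hc (by rw [hs]; linarith [a1.2, a3.2])
      linarith
    have h9 : 0 < Real.cos s :=
      Real.cos_pos_of_mem_Ioo ⟨by rw [hs]; linarith [a1.1, a3.1], by linarith⟩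
    have := mul_pos hE h9
    linarith
  · rw [h3, zero_mul] at h2
    exact absurd h2 (lt_irrefl _)
  · exact ⟨h3, (pos_iff_pos_of_mul_pos h2).1 h3⟩

theorem DX.cwne : cosh w ≠ 0 := cosh_ne h.r

theorem DX.cune : cosh u ≠ 0 := cosh_ne h.l

theorem DX.div_re : 0 < (TT u w / cosh w).re := by
  apply re_div_pos
  obtain ⟨a1, a2⟩ := h.TT_pos
  obtain ⟨b1, b2⟩ := h.cw
  have := mul_pos a1 b1
  have := mul_nonneg a2.le b2
  linarith

theorem DX.div_sq : (TT u w / cosh w) ^ 2 = 1 + (sinh u / cosh w) ^ 2 := by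
  have hw := h.cwne
  rw [div_pow, h.TT_sq, div_pow]
  field_simp

theorem DX.slitq : 1 + (sinh u / cosh w) ^ 2 ∈ slitPlane := by
  rw [← h.div_sq]
  exact sq_slit h.div_re

theorem DX.csq_eq : csq (sinh u / cosh w) = TT u w / cosh w :=
  eq_of_sq (by rw [csq_sq, h.div_sq]) (csq_re_pos h.slitq) h.div_re

theorem DX.cosh_qq : cosh (qq u w) = TT u w / cosh w := by
  rw [qq, cosh_arsh, h.csq_eq]

theorem DX.qim : |(qq u w).im| < Real.pi / 2 := arsh_im_lt h.slitq

theorem DX.qre : 0 < (qq u w).re := by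
  have h1 : 0 < (sinh u / cosh w).re := by
    apply re_div_pos
    obtain ⟨a1, a2⟩ := h.su
    obtain ⟨b1, b2⟩ := h.cw
    have := mul_pos a1 b1
    have := mul_nonneg a2.le b2
    linarith
  rw [← sinh_qq, sinh_re'] at h1
  exact Real.sinh_pos_iff.1 ((pos_iff_pos_of_mul_pos h1).2 (cos_pos' h.qim))

theorem DX.TT_add_sinh : 0 < (TT u w + sinh u).re ∧ 0 < (TT u w + sinh u).im := by
  obtain ⟨a1, a2⟩ := h.TT_pos
  obtain ⟨b1, b2⟩ := h.su
  rw [add_re, add_im]
  exact ⟨by linarith, by linarith⟩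

theorem DX.TT_split : TT u w = cosh w * cosh (qq u w) ∧ sinh u = cosh w * sinh (qq u w) := by
  have hw := h.cwne
  constructor
  · rw [h.cosh_qq]; field_simp
  · rw [sinh_qq]; field_simp

theorem DX.TT_sub_sinh :
    TT u w - sinh u = cosh w * exp (-qq u w) ∧ TT u w + sinh u = cosh w * exp (qq u w) := by
  obtain ⟨h3, h4⟩ := h.TT_split
  constructor
  · rw [← cosh_sub_sinh, mul_sub, ← h3, ← h4]
  · rw [← cosh_add_sinh, mul_add, ← h3, ← h4]

/-- The arguments. -/
theorem DX.Au : 0 < (Lc u).im ∧ (Lc u).im < Real.pi / 4 := by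
  have h1 := arg_quarter h.cu.2.le h.uf
  have h2 := S3.G.arg_up h.cu.2
  rw [Lc, log_im]
  exact ⟨h2.1, h1.2⟩

theorem DX.Aw : 0 ≤ (Lc w).im ∧ (Lc w).im < Real.pi / 4 := by
  have h1 := arg_quarter h.cw.2 h.wf
  rw [Lc, log_im]
  exact h1

/-- The argument of `T + sinh u`. -/
theorem DX.th : 0 < (qq u w).im + (Lc w).im ∧ (qq u w).im + (Lc w).im < Real.pi / 2 := by
  have hpi := Real.pi_pos
  obtain ⟨h1, h2⟩ := arg_half h.TT_add_sinh.1 h.TT_add_sinh.2
  have hne : TT u w + sinh u ≠ 0 := by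
    intro h0
    have := h.TT_add_sinh.1
    rw [h0] at this
    simp at this
  have e : qq u w = Complex.log (TT u w + sinh u) - Lc w := by
    apply log_unique
    · rw [exp_sub, exp_log hne, exp_Lc h.r, h.TT_sub_sinh.2]
      have := h.cwne
      field_simp
    · have q := abs_lt.1 h.qim
      have := h.Aw
      rw [sub_im, log_im, abs_lt]
      constructor <;> linarith [q.1, q.2, this.1, this.2]
  have e2 := congrArg Complex.im e
  rw [sub_im, log_im] at e2
  constructor <;> linarith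

theorem DX.one_add_sq : 1 + TT u w ^ 2 = cosh u ^ 2 + cosh w ^ 2 := by
  rw [h.TT_sq, cosh_sq u]; ring

theorem DX.sum_sq : 0 < (cosh u ^ 2 + cosh w ^ 2).re ∧ 0 < (cosh u ^ 2 + cosh w ^ 2).im := by
  obtain ⟨a1, a2⟩ := h.cu
  obtain ⟨b1, b2⟩ := h.cw
  have a3 := h.uf
  have b3 := h.wf
  rw [sq, sq, add_re, add_im, mul_re, mul_re, mul_im, mul_im]
  constructor
  · nlinarith
  · have := mul_pos a1 a2
    have := mul_nonneg b1.le b2
    nlinarith

theorem DX.slitT : 1 + TT u w ^ 2 ∈ slitPlane := by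
  rw [h.one_add_sq]
  exact mem_slitPlane_iff.2 (Or.inl h.sum_sq.1)

theorem DX.arT : |(arsh (TT u w)).im| < Real.pi / 2 := arsh_im_lt h.slitT

theorem DX.pi_yy : (Real.pi : ℂ) * yy u w = gd (arsh (TT u w)) := by
  rw [yy, gd_eq h.arT]

theorem DX.cos_yy : cos (Real.pi * yy u w) = 1 / csq (TT u w) := by
  rw [h.pi_yy, cos_gd h.arT, cosh_arsh]

theorem DX.csqT : 0 < (csq (TT u w)).re ∧ 0 < (csq (TT u w)).im ∧
    (csq (TT u w)).im < (csq (TT u w)).re := by
  have h1 := csq_re_pos h.slitT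
  have h2 := csq_sq (TT u w)
  obtain ⟨s1, s2⟩ := h.sum_sq
  rw [← h.one_add_sq, ← h2, sq] at s1 s2
  rw [mul_re] at s1
  rw [mul_im] at s2
  have h3 : 0 < (csq (TT u w)).im := by
    by_contra hc
    push Not at hc
    have := mul_nonpos_of_nonneg_of_nonpos h1.le hc
    linarith
  exact ⟨h1, h3, by nlinarith⟩

theorem DX.csqT_ne : csq (TT u w) ≠ 0 := by
  intro h0
  have := h.csqT.1
  rw [h0] at this; simp at this

theorem DX.cos_ne : cos (Real.pi * yy u w) ≠ 0 := by
  rw [h.cos_yy]; exact one_div_ne_zero h.csqT_ne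

theorem DX.sin_yy : sin (Real.pi * yy u w) = TT u w * cos (Real.pi * yy u w) := by
  rw [h.cos_yy, h.pi_yy, sin_gd h.arT, tanh_eq_sinh_div_cosh, sinh_arsh, cosh_arsh]
  ring

theorem DX.cos_sq : cos (Real.pi * yy u w) ^ 2 * (cosh u ^ 2 + cosh w ^ 2) = 1 := by
  rw [h.cos_yy, ← h.one_add_sq, ← csq_sq]
  have := h.csqT_ne
  field_simp

theorem DX.cosq : 0 < (cos (Real.pi * yy u w)).re ∧ (cos (Real.pi * yy u w)).im < 0 ∧
    -(cos (Real.pi * yy u w)).im < (cos (Real.pi * yy u w)).re := by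
  obtain ⟨a1, a2, a3⟩ := h.csqT
  have hn := Complex.normSq_pos.2 h.csqT_ne
  rw [h.cos_yy, one_div, inv_re, inv_im]
  refine ⟨div_pos a1 hn, ?_, ?_⟩
  · rw [neg_div]
    exact neg_neg_of_pos (div_pos a2 hn)
  · rw [neg_div, neg_neg]
    exact div_lt_div_of_pos_right a3 hn

theorem DX.exp_lcy : exp (lcy u w) = cos (Real.pi * yy u w) := exp_log h.cos_ne

theorem DX.be : -(Real.pi / 4) < (lcy u w).im ∧ (lcy u w).im < 0 := by
  obtain ⟨a1, a2, a3⟩ := h.cosq
  have h1 := arg_quarter (z := conj (cos (Real.pi * yy u w))) (by rw [conj_im]; linarith)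
    (by rw [conj_im, conj_re]; exact a3)
  have h2 : (conj (cos (Real.pi * yy u w))).arg = -(cos (Real.pi * yy u w)).arg := by
    rw [arg_conj, if_neg]
    intro h0
    have := abs_arg_lt_pi_div_two_iff.2 (Or.inl a1)
    rw [h0, abs_of_pos Real.pi_pos] at this
    linarith [Real.pi_pos]
  rw [h2] at h1
  rw [lcy, log_im]
  refine ⟨by linarith [h1.2], ?_⟩
  exact Complex.arg_neg_iff.2 a2

theorem DX.yre : 0 < (yy u w).re ∧ (yy u w).re < 1 / 2 := by
  have hpi := Real.pi_pos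
  constructor
  · have h1 : 0 < (gd (arsh (TT u w))).re := by
      rw [← UU_eta (arsh (TT u w))]
      apply gd_re_pos _ h.arT
      have h2 := h.TT_pos.1
      have h3 : (TT u w).re = Real.sinh (arsh (TT u w)).re * Real.cos (arsh (TT u w)).im := by
        rw [← sinh_re', sinh_arsh]
      rw [h3] at h2
      exact Real.sinh_pos_iff.1 ((pos_iff_pos_of_mul_pos h2).2 (cos_pos' h.arT))
    rw [← h.pi_yy, re_ofReal_mul] at h1
    exact (pos_iff_pos_of_mul_pos h1).1 hpi
  · have h1 := (abs_lt.1 (gd_re_lt h.arT)).2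
    rw [← h.pi_yy, re_ofReal_mul] at h1
    nlinarith

theorem DX.yim : 0 < (yy u w).im := by
  have hpi := Real.pi_pos
  have a := abs_lt.1 h.arT
  have h3 : (TT u w).im = Real.cosh (arsh (TT u w)).re * Real.sin (arsh (TT u w)).im := by
    rw [← sinh_im', sinh_arsh]
  have h2 := h.TT_pos.2
  rw [h3] at h2
  have h4 : 0 < Real.sin (arsh (TT u w)).im :=
    (pos_iff_pos_of_mul_pos h2).1 (Real.cosh_pos _)
  have h5 : 0 < (arsh (TT u w)).im := by
    by_contra hc
    push Not at hc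
    have := Real.sin_nonpos_of_nonpos_of_neg_pi_le hc (by linarith [a.1])
    linarith
  have h1 : 0 < (gd (arsh (TT u w))).im := by
    rw [← UU_eta (arsh (TT u w))]
    exact gd_im_pos h5 a.2
  rw [← h.pi_yy, im_ofReal_mul] at h1
  exact (pos_iff_pos_of_mul_pos h1).1 hpi

theorem DX.vre : 0 < (gdv u).re ∧ (gdv u).re < 1 / 2 :=
  ⟨gdv_re_pos h.l h.ur, (abs_lt.1 (gdv_re_lt h.l)).2⟩

theorem DX.vim : 0 < (gdv u).im := by
  have h1 : 0 < (gd u).im := by
    rw [← UU_eta u]
    exact gd_im_pos h.ui h.up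
  rw [gd_eq h.l, im_ofReal_mul] at h1
  exact (pos_iff_pos_of_mul_pos h1).1 Real.pi_pos

theorem DX.sin_sub : sin (Real.pi * (yy u w - gdv u))
    = cos (Real.pi * yy u w) * (cosh w / cosh u) * exp (-qq u w) := by
  have hu := h.cune
  rw [mul_sub, Complex.sin_sub, h.sin_yy, cos_pi_gdv h.l, sin_pi_gdv h.l,
    tanh_eq_sinh_div_cosh]
  have := h.TT_sub_sinh.1
  field_simp
  linear_combination (cos (Real.pi * yy u w)) * this

theorem DX.sin_add : sin (Real.pi * (yy u w + gdv u))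
    = cos (Real.pi * yy u w) * (cosh w / cosh u) * exp (qq u w) := by
  have hu := h.cune
  rw [mul_add, Complex.sin_add, h.sin_yy, cos_pi_gdv h.l, sin_pi_gdv h.l,
    tanh_eq_sinh_div_cosh]
  have := h.TT_sub_sinh.2
  field_simp
  linear_combination (cos (Real.pi * yy u w)) * this

theorem DX.exp_Lm : exp (Lm u w) = 2 * sin (Real.pi * (yy u w - gdv u)) := by
  rw [h.sin_sub, ← h.exp_lcy, ← exp_Lc h.l, ← exp_Lc h.r, Lm]
  rw [show (Real.log 2 : ℂ) + lcy u w + Lc w - Lc u - qq u w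
    = Real.log 2 + (lcy u w + (Lc w - Lc u) + -qq u w) by ring]
  rw [Complex.exp_add, exp_log_two, Complex.exp_add, Complex.exp_add, Complex.exp_sub]

theorem DX.exp_Lp : exp (Lp u w) = 2 * sin (Real.pi * (yy u w + gdv u)) := by
  rw [h.sin_add, ← h.exp_lcy, ← exp_Lc h.l, ← exp_Lc h.r, Lp]
  rw [show (Real.log 2 : ℂ) + lcy u w + Lc w - Lc u + qq u w
    = Real.log 2 + (lcy u w + (Lc w - Lc u) + qq u w) by ring]
  rw [Complex.exp_add, exp_log_two, Complex.exp_add, Complex.exp_add, Complex.exp_sub]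

theorem DX.Lm_im : -Real.pi < (Lm u w).im ∧ (Lm u w).im < Real.pi / 2 := by
  have a := h.Au
  have b := h.Aw
  have c := h.be
  have d := h.th
  have e : (Lm u w).im = (lcy u w).im + (Lc w).im - (Lc u).im - (qq u w).im := by
    unfold Lm
    rw [sub_im, sub_im, add_im, add_im, ofReal_im]
    ring
  rw [e]
  constructor <;> linarith [a.1, a.2, b.1, b.2, c.1, c.2, d.1, d.2]

theorem DX.Lp_im : -(Real.pi / 2) < (Lp u w).im ∧ (Lp u w).im < Real.pi / 2 := by
  have a := h.Au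
  have b := h.Aw
  have c := h.be
  have d := h.th
  have e : (Lp u w).im = (lcy u w).im + (Lc w).im - (Lc u).im + (qq u w).im := by
    unfold Lp
    rw [add_im, sub_im, add_im, add_im, ofReal_im]
    ring
  rw [e]
  constructor <;> linarith [a.1, a.2, b.1, b.2, c.1, c.2, d.1, d.2]

/-- The slot `y - v`. -/
theorem DX.dm : fdom (yy u w - gdv u) ∧ he (yy u w - gdv u) = Lm u w := by
  have hpi := Real.pi_pos
  have b := h.Lm_im
  have hL : Lm u w = Complex.log (2 * sin (Real.pi * (yy u w - gdv u))) :=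
    eq_log_of h.exp_Lm b.1 (by linarith [b.2])
  have r0 : -1 / 2 < (yy u w - gdv u).re := by
    rw [sub_re]; linarith [h.yre.1, h.vre.2]
  have r1 : (yy u w - gdv u).re < 1 / 2 := by
    rw [sub_re]; linarith [h.yre.2, h.vre.1]
  have hf : fdom (yy u w - gdv u) := by
    by_cases hz : (yy u w - gdv u).im = 0
    · right
      refine ⟨?_, by linarith⟩
      by_contra hc
      push Not at hc
      have e1 : (yy u w - gdv u) = (((yy u w - gdv u).re : ℝ) : ℂ) := by
        apply Complex.ext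
        · simp
        · rw [ofReal_im]; exact hz
      have e2 : 2 * sin (Real.pi * (yy u w - gdv u)) =
          ((2 * Real.sin (Real.pi * (yy u w - gdv u).re) : ℝ) : ℂ) := by
        conv_lhs => rw [e1]
        push_cast
        rfl
      have s0 : Real.sin (Real.pi * (yy u w - gdv u).re) ≤ 0 := by
        apply Real.sin_nonpos_of_nonpos_of_neg_pi_le
        · exact mul_nonpos_of_nonneg_of_nonpos hpi.le hc
        · have := mul_lt_mul_of_pos_left r0 hpi
          linarith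
      have s1 : Real.sin (Real.pi * (yy u w - gdv u).re) ≠ 0 := by
        intro h0
        have := h.exp_Lm
        rw [e2, h0] at this
        simp at this
      have s2 : 2 * Real.sin (Real.pi * (yy u w - gdv u).re) < 0 := by
        have := lt_of_le_of_ne s0 s1
        linarith
      have h3 := congrArg Complex.im hL
      rw [e2, log_im, arg_ofReal_of_neg s2] at h3
      linarith [b.2]
    · exact Or.inl hz
  exact ⟨hf, by rw [he_eq_log hf r0 (by linarith), hL]⟩

/-- The slot `y + v`. -/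
theorem DX.dp : fdom (yy u w + gdv u) ∧ he (yy u w + gdv u) = Lp u w := by
  have hpi := Real.pi_pos
  have b := h.Lp_im
  have hL : Lp u w = Complex.log (2 * sin (Real.pi * (yy u w + gdv u))) :=
    eq_log_of h.exp_Lp (by linarith [b.1]) (by linarith [b.2])
  have r0 : -1 / 2 < (yy u w + gdv u).re := by
    rw [add_re]; linarith [h.yre.1, h.vre.1]
  have r1 : (yy u w + gdv u).re < 1 := by
    rw [add_re]; linarith [h.yre.2, h.vre.2]
  have hf : fdom (yy u w + gdv u) := by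
    left
    rw [add_im]
    linarith [h.yim, h.vim]
  exact ⟨hf, by rw [he_eq_log hf r0 r1, hL]⟩

theorem DX.hh_half : hh (yy u w + 1 / 2) = Real.log 2 + lcy u w := by
  have hpi := Real.pi_pos
  have b := h.be
  rw [hh, mul_add, show (Real.pi : ℂ) * (1 / 2) = (Real.pi : ℂ) / 2 by ring,
    Complex.sin_add_pi_div_two, ← h.exp_lcy, ← exp_log_two, ← exp_add, log_exp]
  · rw [add_im, ofReal_im]; linarith [b.1]
  · rw [add_im, ofReal_im]; linarith [b.2]

end Pool.Agent.S5.CV
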