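import Pool.Agent.S5.CV.CvM
import Pool.Agent.S3.E.GeoC

/-!
# Stage 3b, complex volume: the edges with opposite signs

The domain conditions of the edges with opposite signs follow from the equations.
-/

namespace Pool.Agent.S5.CV

open Pool.Agent.H63.VC3 Pool.Agent.H63.VC5 Complex
open Pool.Agent.H25.RK (gdv)
open Pool.Agent.S3 (Reg QO qq yy Lm Lc lcy Lc_conj exp_Lm neg_lcy_le yy_re_pos yy_re_lt cosh_qq
  cosh_re' cosh_im' sinh_re' sinh_im')
open Pool.Agent.S3.CV (EQ pi_ne' exp_yy)
open Pool.Agent.S3.E (uu ph)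
open Pool.Agent.S3.G (Yy sin_split cos_split)
open Pool.Agent.S5.G (CrtM kp kp_true kp_false)
open scoped ComplexConjugate

theorem arg_cos {z : ℂ} (h : 0 < z.re) (h' : z.re < Real.pi / 2) (hI : 0 < z.im) :
    (cos z).arg = -ph z.re z.im := by
  have hp := S3.E.cos_polar h h'
  have e : cos z = (‖cos z‖ : ℂ) * (cos ((-ph z.re z.im : ℝ) : ℂ) +
      sin ((-ph z.re z.im : ℝ) : ℂ) * I) := by
    rw [← exp_mul_I]
    push_cast
    exact hp
  have h1 := S3.E.ph_pos h h' hI
  have h2 := S3.E.ph_lt z.re z.im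
  have hn : 0 < ‖cos z‖ := norm_pos_iff.2 (cos_ne_uu h h' hI)
  calc (cos z).arg = ((‖cos z‖ : ℂ) * (cos ((-ph z.re z.im : ℝ) : ℂ) +
      sin ((-ph z.re z.im : ℝ) : ℂ) * I)).arg := congrArg arg e
    _ = -ph z.re z.im := Complex.arg_mul_cos_add_sin_mul_I hn
      ⟨by linarith [Real.pi_pos], by linarith [Real.pi_pos]⟩

section uu

variable {z : ℂ} (h : 0 < z.re) (h' : z.re < Real.pi / 2) (hI : 0 < z.im)
include h h' hI

/-- `tan` of the imaginary part of `u`. -/
theorem uu_tan : Real.sin (uu z).im * Real.cos z.re = Real.cos (uu z).im * Real.sinh z.im := by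
  have h1 := cosh_uu' h h' hI
  have h2 := sinh_uu h h' hI
  have hne := cos_ne_uu h h' hI
  have h3 : sinh (uu z) * cos z = sin z := by
    rw [h2, tan_eq_sin_div_cos, div_mul_cancel₀ _ hne]
  have hc := cos_split z
  have hs := sin_split z
  have hn : 0 < Complex.normSq (cos z) := Complex.normSq_pos.2 hne
  have e1 : cosh (uu z) * (Complex.normSq (cos z) : ℂ) = conj (cos z) := by
    rw [← Complex.mul_conj, ← mul_assoc, h1, one_mul]
  have e2 : sinh (uu z) * (Complex.normSq (cos z) : ℂ) = sin z * conj (cos z) := by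
    rw [← Complex.mul_conj, ← mul_assoc, h3]
  have r1 := congrArg Complex.re e1
  have r2 := congrArg Complex.im e2
  rw [mul_comm, re_ofReal_mul, conj_re, hc.1, cosh_re'] at r1
  rw [mul_comm, im_ofReal_mul, mul_im, conj_re, conj_im, hc.1, hc.2, hs.1, hs.2, sinh_im'] at r2
  have hC := Real.cosh_pos z.im
  have hX := Real.cosh_pos (uu z).re
  have h4 := Real.cosh_sq z.im
  have h5 := Real.sin_sq_add_cos_sq z.re
  have r3 : Complex.normSq (cos z) * (Real.cosh (uu z).re * Real.sin (uu z).im) =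
      Real.sinh z.im * Real.cosh z.im := by
    rw [r2]
    linear_combination Real.sinh z.im * Real.cosh z.im * h5
  have key : Complex.normSq (cos z) * Real.cosh (uu z).re * Real.cosh z.im *
      (Real.sin (uu z).im * Real.cos z.re) = Complex.normSq (cos z) * Real.cosh (uu z).re *
      Real.cosh z.im * (Real.cos (uu z).im * Real.sinh z.im) := by
    linear_combination (Real.cosh z.im * Real.cos z.re) * r3 -
      (Real.cosh z.im * Real.sinh z.im) * r1
  exact mul_left_cancel₀ (by positivity) key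

end uu

/-- The real part of a slot with opposite signs. -/
theorem slot_re {z w q : ℂ} (h : 0 < z.re) (h' : z.re < Real.pi / 2) (hI : 0 < z.im)
    (hq : sinh q = conj (cos w) * tan z) (hr : 0 < q.re) (hqi : |q.im| < Real.pi / 2) :
    Real.sin w.re * Real.sinh w.im * (Real.sinh z.im * Real.cosh z.im) <
      Real.cos w.re * Real.cosh w.im * (Real.sin z.re * Real.cos z.re) := by
  have hne := cos_ne_uu h h' hI
  have hn : 0 < Complex.normSq (cos z) := Complex.normSq_pos.2 hne
  have hp : 0 < (sinh q).re := by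
    rw [sinh_re']
    exact mul_pos (Real.sinh_pos_iff.2 hr)
      (Real.cos_pos_of_mem_Ioo ⟨by linarith [(abs_lt.1 hqi).1], (abs_lt.1 hqi).2⟩)
  have e : (Complex.normSq (cos z) : ℂ) * sinh q = conj (cos w) * (sin z * conj (cos z)) := by
    rw [hq, tan_eq_sin_div_cos, ← Complex.mul_conj]
    field_simp
  have r := congrArg Complex.re e
  have hc := cos_split z
  have hs := sin_split z
  have hw := cos_split w
  rw [re_ofReal_mul, mul_re, mul_re, mul_im, conj_re, conj_im, conj_re, conj_im, hc.1, hc.2, hs.1,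
    hs.2, hw.1, hw.2] at r
  have h1 := mul_pos hn hp
  rw [r] at h1
  have h4 := Real.cosh_sq z.im
  have h5 := Real.sin_sq_add_cos_sq z.re
  have e1 : Real.cos w.re * Real.cosh w.im * (Real.sin z.re * Real.cosh z.im * (Real.cos z.re *
      Real.cosh z.im) - Real.cos z.re * Real.sinh z.im * - -(Real.sin z.re * Real.sinh z.im)) -
      - -(Real.sin w.re * Real.sinh w.im) * (Real.sin z.re * Real.cosh z.im *
      - -(Real.sin z.re * Real.sinh z.im) + Real.cos z.re * Real.sinh z.im * (Real.cos z.re *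
      Real.cosh z.im)) = Real.cos w.re * Real.cosh w.im * (Real.sin z.re * Real.cos z.re) -
      Real.sin w.re * Real.sinh w.im * (Real.sinh z.im * Real.cosh z.im) := by
    linear_combination (Real.cos w.re * Real.cosh w.im * Real.sin z.re * Real.cos z.re) * h4 -
      (Real.sin w.re * Real.sinh w.im * Real.sinh z.im * Real.cosh z.im) * h5
  linarith [e1]

/-- The pair of an edge with opposite signs is regular. -/
theorem reg_opp {z w q q' : ℂ} (h : 0 < z.re) (h' : z.re < Real.pi / 2) (hI : 0 < z.im)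
    (g : 0 < w.re) (g' : w.re < Real.pi / 2) (gI : 0 < w.im)
    (hq : sinh q = conj (cos w) * tan z) (hr : 0 < q.re) (hqi : |q.im| < Real.pi / 2)
    (hq' : sinh q' = conj (cos z) * tan w) (hr' : 0 < q'.re) (hqi' : |q'.im| < Real.pi / 2) :
    Reg (uu z) (conj (uu w)) := by
  have a1 := slot_re h h' hI hq hr hqi
  have a2 := slot_re g g' gI hq' hr' hqi'
  have hpi := Real.pi_pos
  have sz := Real.sin_pos_of_pos_of_lt_pi h (by linarith)
  have sw := Real.sin_pos_of_pos_of_lt_pi g (by linarith)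
  have cz := Real.cos_pos_of_mem_Ioo ⟨by linarith, h'⟩
  have cw := Real.cos_pos_of_mem_Ioo ⟨by linarith, g'⟩
  have hz := Real.sinh_pos_iff.2 hI
  have hw := Real.sinh_pos_iff.2 gI
  have Hz := Real.cosh_pos z.im
  have Hw := Real.cosh_pos w.im
  have key : Real.sinh z.im * Real.sinh w.im < Real.cos z.re * Real.cos w.re := by
    by_contra hc
    rw [not_lt] at hc
    have m1 := mul_lt_mul'' a1 a2 (by positivity) (by positivity)
    have m2 := mul_self_le_mul_self (by positivity) hc
    have m3 := mul_le_mul_of_nonneg_left m2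
      (show 0 ≤ Real.sin z.re * Real.sin w.re * (Real.cosh z.im * Real.cosh w.im) by positivity)
    nlinarith
  have t1 := uu_tan h h' hI
  have t2 := uu_tan g g' gI
  have u1 := uu_im h h' hI
  have u2 := uu_im g g' gI
  have c1 := Real.cos_pos_of_mem_Ioo (x := (uu z).im) ⟨by linarith [u1.1], u1.2⟩
  have c2 := Real.cos_pos_of_mem_Ioo (x := (uu w).im) ⟨by linarith [u2.1], u2.2⟩
  have hcos : 0 < Real.cos ((uu z).im + (uu w).im) := by
    rw [Real.cos_add]
    have k1 := mul_lt_mul_of_pos_left key (mul_pos c1 c2)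
    have k2 : Real.sin (uu z).im * Real.sin (uu w).im * (Real.cos z.re * Real.cos w.re) =
        Real.cos (uu z).im * Real.cos (uu w).im * (Real.sinh z.im * Real.sinh w.im) := by
      linear_combination (Real.sin (uu w).im * Real.cos w.re) * t1 +
        (Real.cos (uu z).im * Real.sinh z.im) * t2
    have k3 : Real.sin (uu z).im * Real.sin (uu w).im * (Real.cos z.re * Real.cos w.re) <
        Real.cos (uu z).im * Real.cos (uu w).im * (Real.cos z.re * Real.cos w.re) := by
      rw [k2]; exact k1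
    have k4 := lt_of_mul_lt_mul_right k3 (mul_pos cz cw).le
    linarith
  show |(uu z).im| + |(conj (uu w)).im| < Real.pi / 2
  rw [conj_im, abs_neg, abs_of_pos u1.1, abs_of_pos u2.1]
  by_contra hc
  rw [not_lt] at hc
  have := Real.cos_nonpos_of_pi_div_two_le_of_le hc (by linarith [u1.2, u2.2])
  linarith

theorem slot_norm {x y R I₀ : ℝ} (hI : 0 < I₀) (h0 : 0 < R) (h1 : R < Real.pi / 2)
    (hy0 : Real.pi / 4 < y) (hy1 : y < Real.pi / 2) (hs : R + y ≤ 3 * Real.pi / 4) :
    Real.sinh (x + I₀) ^ 2 + Real.sin (y - R) ^ 2 <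
      (Real.sinh (x - I₀) ^ 2 + Real.sin (y + R) ^ 2) * Real.exp (2 * I₀) ^ 2 := by
  have hpi := Real.pi_pos
  have c1 : Real.cos (2 * (y + R)) ≤ 0 :=
    Real.cos_nonpos_of_pi_div_two_le_of_le (by linarith) (by linarith)
  have c2 : Real.cos (2 * (y + R)) ≤ Real.cos (2 * (y - R)) := by
    have s1 := Real.sin_pos_of_pos_of_lt_pi (x := 2 * y) (by linarith) (by linarith)
    have s2 := Real.sin_pos_of_pos_of_lt_pi (x := 2 * R) (by linarith) (by linarith)
    rw [mul_add, mul_sub, Real.cos_add, Real.cos_sub]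
    nlinarith
  have e1 : Real.sinh (x - I₀) ^ 2 * Real.exp (2 * I₀) ^ 2 - Real.sinh (x + I₀) ^ 2 =
      (Real.exp (2 * I₀) ^ 4 - 1) / (4 * Real.exp (2 * x) * Real.exp (2 * I₀)) -
        Real.exp (2 * I₀) ^ 2 / 2 + 1 / 2 := by
    rw [Real.sinh_eq, Real.sinh_eq, show -(x - I₀) = I₀ - x by ring,
      show -(x + I₀) = -x - I₀ by ring, Real.exp_sub, Real.exp_sub, Real.exp_sub, Real.exp_add,
      Real.exp_neg, two_mul, two_mul, Real.exp_add, Real.exp_add]
    have := Real.exp_pos x
    have := Real.exp_pos I₀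
    field_simp
    ring
  have q1 := Real.cos_two_mul (y + R)
  have q2 := Real.cos_two_mul (y - R)
  have q3 := Real.sin_sq_add_cos_sq (y + R)
  have q4 := Real.sin_sq_add_cos_sq (y - R)
  have q5 : Real.sin (y + R) ^ 2 = (1 - Real.cos (2 * (y + R))) / 2 := by linarith
  have q6 : Real.sin (y - R) ^ 2 = (1 - Real.cos (2 * (y - R))) / 2 := by linarith
  have hB : 1 < Real.exp (2 * I₀) := by
    rw [Real.one_lt_exp_iff]
    linarith
  have hB2 : 1 ≤ Real.exp (2 * I₀) ^ 2 := by nlinarith
  have hB4 : 1 < Real.exp (2 * I₀) ^ 4 := one_lt_pow₀ hB (by norm_num)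
  have hpos : 0 < (Real.exp (2 * I₀) ^ 4 - 1) / (4 * Real.exp (2 * x) * Real.exp (2 * I₀)) :=
    div_pos (by linarith) (by positivity)
  have k1 := mul_le_mul_of_nonneg_left hB2 (neg_nonneg.2 c1)
  rw [add_mul, q5, q6]
  nlinarith

/-- The branch of `log 2 sin π (Y - W)` at an edge with opposite signs. -/
theorem good_opp {z w q : ℂ} (h : 0 < z.re) (h' : z.re < Real.pi / 2) (hI : 0 < z.im)
    (g : 0 < w.re) (g' : w.re < Real.pi / 2) (gI : 0 < w.im)
    (hr : Reg (uu z) (conj (uu w))) (hqq : qq (uu z) (conj (uu w)) = q)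
    (hq : sinh q = conj (cos w) * tan z) (hqi : 0 < q.im ∧ q.im < Real.pi / 2)
    (az : -(Real.pi / 4) < (cos z).arg) (aw : -(Real.pi / 4) < (cos w).arg)
    (hs : q.im ≤ Real.pi / 4 ∨ z.re + q.im ≤ 3 * Real.pi / 4) :
    |(Lm (uu z) (conj (uu w))).im| < Real.pi := by
  have hpi := Real.pi_pos
  rw [arg_cos h h' hI] at az
  rw [arg_cos g g' gI] at aw
  have p1 := S3.E.ph_pos h h' hI
  have p2 := S3.E.ph_pos g g' gI
  have f1 := (S3.E.Lc_uu h h' hI).2
  have f2 := (S3.E.Lc_uu g g' gI).2
  have c1 : (Lc (conj (uu w))).im = -ph w.re w.im := by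
    rw [Lc_conj (uu_abs g g' gI), conj_im, f2]
  have gg := neg_lcy_le hr (by rw [c1, f1]; linarith)
  rw [c1, f1, neg_neg] at gg
  have em : (Lm (uu z) (conj (uu w))).im = (lcy (uu z) (conj (uu w))).im +
      (Lc (conj (uu w))).im - (Lc (uu z)).im - (qq (uu z) (conj (uu w))).im := by
    rw [Lm]; simp only [add_im, sub_im, ofReal_im, zero_add]
  rw [c1, f1, hqq] at em
  rw [abs_lt]
  refine ⟨?_, by linarith [gg.2, hqi.1]⟩
  rcases le_or_gt q.im (Real.pi / 4) with hy | hy
  · linarith [gg.1]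
  · have hs' : z.re + q.im ≤ 3 * Real.pi / 4 := by
      rcases hs with hs | hs
      · linarith
      · exact hs
    by_contra hc
    rw [not_lt] at hc
    have hlow : -(5 * Real.pi / 4) < (Lm (uu z) (conj (uu w))).im := by linarith [gg.1, hqi.2]
    have hsin : 0 ≤ Real.sin (Lm (uu z) (conj (uu w))).im := by
      have e : Real.sin (Lm (uu z) (conj (uu w))).im =
          Real.sin (-((Lm (uu z) (conj (uu w))).im + Real.pi)) := by
        rw [Real.sin_neg, Real.sin_add_pi, neg_neg]
      rw [e]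
      exact Real.sin_nonneg_of_nonneg_of_le_pi (by linarith) (by linarith)
    have him : 0 ≤ (exp (Lm (uu z) (conj (uu w)))).im := by
      rw [exp_im]
      exact mul_nonneg (Real.exp_pos _).le hsin
    have hz0 : (Real.pi : ℂ) * gdv (uu z) = z := by
      rw [gdv_uu' h h' hI, mul_div_cancel₀ _ pi_ne']
    set Y := yy (uu z) (conj (uu w)) with hY
    have y0 := yy_re_pos hr
    have y1 := yy_re_lt hr
    rw [exp_Lm hr, ← hY, mul_sub, hz0, show (2 : ℂ) = ((2 : ℝ) : ℂ) by norm_num, im_ofReal_mul,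
      (sin_split _).2] at him
    have hre : (Real.pi * Y - z).re = Real.pi * Y.re - z.re := by
      rw [sub_re, re_ofReal_mul]
    have hD1 : (Real.pi * Y - z).re < Real.pi / 2 := by
      rw [hre]; nlinarith
    have hD0 : -(Real.pi / 2) < (Real.pi * Y - z).re := by
      rw [hre]
      have := mul_pos hpi y0
      linarith
    have hcos := Real.cos_pos_of_mem_Ioo ⟨hD0, hD1⟩
    have hDim : 0 ≤ (Real.pi * Y - z).im := by
      by_contra hn
      rw [not_le] at hn
      have := mul_neg_of_pos_of_neg hcos (Real.sinh_neg_iff.2 hn)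
      linarith
    -- the exponential of the edge variable
    have hY2 : exp (2 * Real.pi * I * Y) * sinh (q - I * z) = sinh (q + I * z) := by
      have hcw := cosh_uu' g g' gI
      have e1 : exp (2 * Real.pi * I * Y) = Yy (conj (cos w)) (cosh q) := by
        rw [hY, exp_yy hr]
        refine (Yy_TT (cosh_qq hr) ?_ hqq.symm).symm
        rw [cosh_conj, ← map_mul, hcw, map_one]
      have hcz := cos_ne_uu h h' hI
      have e2 : conj (cos w) * sin z = sinh q * cos z := by
        rw [hq, tan_eq_sin_div_cos]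
        field_simp
      have e3 : sinh (q + I * z) = (conj (cos w) + I * cosh q) * sin z := by
        rw [sinh_add, mul_comm I z, sinh_mul_I, cosh_mul_I]
        linear_combination -e2
      have e4 : sinh (q - I * z) = (conj (cos w) - I * cosh q) * sin z := by
        rw [sinh_sub, mul_comm I z, sinh_mul_I, cosh_mul_I]
        linear_combination -e2
      have hne : conj (cos w) - I * cosh q ≠ 0 := by
        intro h0
        have h1 : exp (2 * Real.pi * I * Y) = 0 := by
          rw [e1]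
          unfold Yy
          rw [h0, div_zero]
        exact Complex.exp_ne_zero _ h1
      rw [e1, e3, e4]
      unfold Yy
      field_simp
    have hE : exp (2 * Real.pi * I * Y) = exp (2 * I * (Real.pi * Y - z)) * exp (2 * I * z) := by
      rw [← Complex.exp_add]
      congr 1
      ring
    have n1 : Complex.normSq (exp (2 * I * (Real.pi * Y - z))) ≤ 1 := by
      rw [Complex.normSq_eq_norm_sq, Complex.norm_exp]
      have e : (2 * I * (Real.pi * Y - z)).re = -(2 * (Real.pi * Y - z).im) := by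
        rw [show (2 * I * (Real.pi * Y - z) : ℂ) = ((2 : ℝ) : ℂ) * (I * (Real.pi * Y - z)) by
          push_cast; ring, re_ofReal_mul, I_mul_re]
        ring
      rw [e]
      have : Real.exp (-(2 * (Real.pi * Y - z).im)) ≤ 1 := by
        rw [Real.exp_le_one_iff]
        linarith
      have h0 := Real.exp_pos (-(2 * (Real.pi * Y - z).im))
      nlinarith
    have n2 : Complex.normSq (exp (2 * I * z)) * Real.exp (2 * z.im) ^ 2 = 1 := by
      rw [Complex.normSq_eq_norm_sq, Complex.norm_exp]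
      have e : (2 * I * z).re = -(2 * z.im) := by
        rw [show (2 * I * z : ℂ) = ((2 : ℝ) : ℂ) * (I * z) by push_cast; ring, re_ofReal_mul,
          I_mul_re]
        ring
      rw [e, ← mul_pow, ← Real.exp_add]
      simp
    have n3 := congrArg Complex.normSq hY2
    rw [hE, Complex.normSq_mul, Complex.normSq_mul] at n3
    have ns : ∀ v : ℂ, Complex.normSq (sinh v) = Real.sinh v.re ^ 2 + Real.sin v.im ^ 2 := by
      intro v
      rw [Complex.normSq_apply, sinh_re', sinh_im']
      have k1 := Real.cosh_sq v.re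
      have k2 := Real.sin_sq_add_cos_sq v.im
      linear_combination (Real.sin v.im ^ 2) * k1 + (Real.sinh v.re ^ 2) * k2
    have m1 : (q - I * z).re = q.re + z.im := by rw [sub_re, I_mul_re]; ring
    have m2 : (q - I * z).im = q.im - z.re := by rw [sub_im, I_mul_im]
    have m3 : (q + I * z).re = q.re - z.im := by rw [add_re, I_mul_re]; ring
    have m4 : (q + I * z).im = q.im + z.re := by rw [add_im, I_mul_im]
    have key := slot_norm (x := q.re) hI h h' hy hqi.2 hs'
    rw [ns, ns, m1, m2, m3, m4] at n3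
    set A := Real.sinh (q.re + z.im) ^ 2 + Real.sin (q.im - z.re) ^ 2 with hA
    set B := Real.sinh (q.re - z.im) ^ 2 + Real.sin (q.im + z.re) ^ 2 with hB
    have hA0 : 0 ≤ A := by positivity
    have k5 : B * Real.exp (2 * z.im) ^ 2 =
        Complex.normSq (exp (2 * I * (Real.pi * Y - z))) * A := by
      rw [← n3]
      linear_combination (Complex.normSq (exp (2 * I * (Real.pi * Y - z))) * A) * n2
    rw [k5] at key
    have := mul_le_mul_of_nonneg_right n1 hA0
    linarith

/-- The bounds at the edges, besides `CrtM`. -/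
structure EdgN (R : ℕ) (S : ℕ → Bool) (z ql qr : ℕ → ℂ) : Prop where
  l : ∀ i, i < R → S i = false → (ql (i + 1)).im ≤ Real.pi / 4 ∨
    (z (i + 1)).re + (ql (i + 1)).im ≤ 3 * Real.pi / 4
  r : ∀ i, i < R → S i = false → (qr i).im ≤ Real.pi / 4 ∨
    (z i).re + (qr i).im ≤ 3 * Real.pi / 4
  nrm : ∀ i, i < R → S i = true → Complex.normSq (cos (z i)) ≤ 2 ∧
    Complex.normSq (cos (z (i + 1))) ≤ 2

/-- The edges of a mixed chain. -/
theorem EdgN.edg {R : ℕ} {a : ℕ → ℕ} {S : ℕ → Bool} {z ql qr : ℕ → ℂ} (hN : EdgN R S z ql qr)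
    (h : CrtM R a S z ql qr) : EdgM R S z := by
  refine ⟨?_, hN.nrm⟩
  intro i hi hS
  have h1 := h.zre i hi.le
  have h2 := h.zim i hi.le
  have h3 := h.zre (i + 1) hi
  have h4 := h.zim (i + 1) hi
  have sr := h.sr i hi
  have sl := h.sl i hi
  have q1 := qq_r h hi
  have q2 := qq_l h hi
  rw [hS, kp_false] at sr sl
  rw [hS, kq_false] at q1 q2
  have a1 := h.rim i hi
  have a2 := h.lim i hi
  have b1 := h.rimo i hi hS
  have b2 := h.limo i hi hS
  have t1 := h.arg i hi.le
  have t2 := h.arg (i + 1) hi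
  have hr := reg_opp h1.1 h1.2 h2 h3.1 h3.2 h4 sr (h.rre i hi) (abs_lt.2 a1) sl (h.lre i hi)
    (abs_lt.2 a2)
  have hr' : Reg (uu (z (i + 1))) (conj (uu (z i))) := by
    have := hr.symm
    unfold Reg at this ⊢
    rwa [conj_im, abs_neg] at this ⊢
  have g1 := good_opp h1.1 h1.2 h2 h3.1 h3.2 h4 hr q1 sr ⟨b1, a1.2⟩ t1.1 t2.1 (hN.r i hi hS)
  have g2 := good_opp h3.1 h3.2 h4 h1.1 h1.2 h2 hr' q2 sl ⟨b2, a2.2⟩ t2.1 t1.1 (hN.l i hi hS)
  have u1 := uu_re h1.1 h1.2 h2
  have u2 := uu_im h1.1 h1.2 h2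
  have u3 := uu_re h3.1 h3.2 h4
  have u4 := uu_im h3.1 h3.2 h4
  refine ⟨⟨hr, u1.le, ?_, u2.1.le, ?_⟩, u1, u2.1, ?_, ?_, g1, ?_⟩
  · rw [conj_re]; exact u3.le
  · rw [conj_im]; linarith [u4.1]
  · rw [conj_re]; exact u3
  · rw [conj_im]; linarith [u4.1]
  · have e := S3.Lm_conj hr'
    rw [conj_conj] at e
    rw [e, conj_im, abs_neg]
    exact g2

open Pool.Agent.H1TB (conwayH) in
/-- **The critical value of a mixed chain is its complex volume.** -/
theorem cv_mixed' {R : ℕ} {a : ℕ → ℕ} {S : ℕ → Bool} {z ql qr : ℕ → ℂ}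
    (h : CrtM R a S z ql qr) (hN : EdgN R S z ql qr)
    (r : ℕ → ℤ) (hra : ∀ i, i ≤ R → (r i).natAbs = a i)
    (hrs : ∀ i, i < R → (S i = true ↔ 0 < r i * r (i + 1)))
    (y : Fin R → ℂ) (v : Fin (R + 1) → ℂ)
    (hy : ∀ j, -(1 / 2) < (y j).re ∧ (y j).re < 1 / 2)
    (hv : ∀ i : Fin (R + 1), v i = if r i < 0 then z i / Real.pi else -(conj (z i) / Real.pi))
    (hY : ∀ j : Fin R, exp (2 * Real.pi * I * y j) =
      if r j < 0 then G.YrM S z qr j else (conj (G.YrM S z qr j))⁻¹) :
    ∃ Z : ℂ, S3.CV.IsComplexVolume (conwayH ((List.range (R + 1)).map r)) (decide (r 0 < 0)) Z ∧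
      ∃ k : ℤ, Z = 2 * Real.pi * I * G.WV (fun i : Fin (R + 1) => (r i : ℝ) / 2) y v +
        (Real.pi : ℂ) ^ 2 / 2 * ∑ i : Fin (R + 1), (r i : ℂ) + k * (Real.pi : ℂ) ^ 2 :=
  cv_mixed h (hN.edg h) r hra hrs y v hy hv hY

end Pool.Agent.S5.CV
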