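import Pool.Agent.S5.CV.EdgeX

/-!
# Stage 3b, complex volume: an edge with opposite signs
-/

namespace Pool.Agent.S5.CV

open Pool.Agent.H63.VC3 Pool.Agent.H63.VC5 Complex Filter Topology
open Pool.Agent.H25.RK (gdv gdv_re_lt gdv_hasDerivAt)
open Pool.Agent.S3 Pool.Agent.S3.CV
open scoped ComplexConjugate

/-- The facts about an edge with opposite signs. -/
structure EO (l : Bool) (W W' b b' Y : ℂ) : Prop where
  ds : Ds W b
  ds' : Ds W' b'
  e0 : hh b' - hh W' = -(hh b - hh W)
  im : 0 < (exp (-(2 * (sc l * (hh b - hh W))))).im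
  l1 : Complex.log (exp (-(2 * (sc l * (hh b - hh W))))) = -(2 * (sc l * (hh b - hh W)))
  l2 : Complex.log (1 - exp (-(2 * (sc l * (hh b - hh W))))) =
    hh (W + b) - hh W + (hh (W' + b') - hh W') - sc l * (hh b - hh W) - Real.pi * I / 2
  val : ∀ p q : ℤ, 2 * rogers (exp (-(2 * (sc l * (hh b - hh W))))) p q =
    2 * Real.pi * I * (sP Y (.op W) + sP Y (.op W')) - (Real.pi : ℂ) ^ 2 / 2 -
      2 * (Real.pi : ℂ) ^ 2 * sc l * (W * b - W' * b') - sc l * (2 * Lam W b - 2 * Lam W' b') -
      Real.pi * I * (sc l * (hh b - hh W) + Real.pi * I / 2) +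
      Real.pi * I * (p * (hh (W + b) - hh W + (hh (W' + b') - hh W') -
        (sc l * (hh b - hh W) + Real.pi * I / 2)) + q * (-(2 * (sc l * (hh b - hh W)))))

/-- The equations of an edge with opposite signs. -/
def EQs (l : Bool) (x y : ℂ) : Prop := EQ (if l then x else y) (if l then y else x)

theorem EQs.eo {l : Bool} {x y : ℂ} (h : EQs l x y) :
    EO l (gdv x) (gdv y) (bE l x y) (bE (!l) y x) (yy x y) := by
  cases l
  · have he : EQ y x := by simpa [EQs] using h
    have hb : bE false x y = bT y x := by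
      have := bT_eq he.q.reg
      simpa [bE] using this
    have hb' : bE (!false) y x = bS y x := by simp [bE]
    have f0 := he.f0
    have f1 := he.f1
    have g0 := he.qp.e0
    have g1 := he.qp.e1
    have z1 := he.log_zH
    have z2 := he.log_one_sub_zH
    have hE := he.edge
    have hD : -(2 * (sc false * (hh (bT y x) - hh (gdv x)))) = -(2 * dS y x) + Real.pi * I := by
      rw [f0, sc_false]; ring
    have hz : exp (-(2 * (sc false * (hh (bT y x) - hh (gdv x))))) = zH y x := by
      rw [hD, zH_exp]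
    rw [hb, hb']
    refine ⟨he.ds', he.qp.ds, ?_, ?_, ?_, ?_, ?_⟩
    · rw [f0, g0]; ring
    · rw [hz]; exact he.zH_im
    · rw [hz, z1, hD]
    · rw [hz, z2, f0, f1, g1, sc_false]; ring
    · intro p q
      rw [hz, he.hinge, sc_false]
      have hy : yy y x = yy x y := yy_comm x y
      rw [hy] at hE f1 g1
      rw [f0, f1, g1]
      linear_combination hE
  · have he : EQ x y := by simpa [EQs] using h
    have hb : bE true x y = bS x y := by simp [bE]
    have hb' : bE (!true) y x = bT x y := by
      have := bT_eq he.q.reg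
      simpa [bE] using this
    have f0 := he.f0
    have f1 := he.f1
    have g0 := he.qp.e0
    have g1 := he.qp.e1
    have z1 := he.log_zH
    have z2 := he.log_one_sub_zH
    have hE := he.edge
    have hD : -(2 * (sc true * (hh (bS x y) - hh (gdv x)))) = -(2 * dS x y) + Real.pi * I := by
      rw [g0, sc_true]; ring
    have hz : exp (-(2 * (sc true * (hh (bS x y) - hh (gdv x))))) = zH x y := by
      rw [hD, zH_exp]
    rw [hb, hb']
    refine ⟨he.qp.ds, he.ds', ?_, ?_, ?_, ?_, ?_⟩
    · rw [f0, g0]; ring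
    · rw [hz]; exact he.zH_im
    · rw [hz, z1, hD]
    · rw [hz, z2, g0, f1, g1, sc_true]; ring
    · intro p q
      rw [hz, he.hinge, sc_true]
      rw [g0, f1, g1]
      linear_combination hE

end Pool.Agent.S5.CV
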