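import Pool.Agent.S5.CV.SlotXD

/-!
# Stage 3b, complex volume: the identity of an edge with equal signs
-/

namespace Pool.Agent.S5.CV

open Pool.Agent.H63.VC3 Pool.Agent.H63.VC5 Complex Filter Topology
open Pool.Agent.H25.RK (gdv gdv_re_lt gdv_hasDerivAt)
open Pool.Agent.S3 Pool.Agent.S3.CV
open scoped ComplexConjugate

/-- The sign as a complex number. -/
noncomputable def sc (l : Bool) : ℂ := if l then 1 else -1

theorem sc_true : sc true = 1 := if_pos rfl

theorem sc_false : sc false = -1 := if_neg (by simp)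

theorem sc_not (l : Bool) : sc (!l) = -sc l := by
  cases l
  · rw [Bool.not_false, sc_true, sc_false, neg_neg]
  · rw [Bool.not_true, sc_true, sc_false]

theorem conj_sc (l : Bool) : conj (sc l) = sc l := by
  cases l
  · rw [sc_false, map_neg, map_one]
  · rw [sc_true, map_one]

theorem sc_sq (l : Bool) : sc l ^ 2 = 1 := by
  cases l
  · rw [sc_false]; norm_num
  · rw [sc_true]; norm_num

/-- The facts about an edge with equal signs: `W`, `W'` are the variables of the two regions, `b`,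
`b'` the angles, `Y` the variable of the edge. -/
structure ES (l : Bool) (W W' b b' Y : ℂ) : Prop where
  dx : Dx W b
  dx' : Dx W' b'
  yre : 0 < Y.re ∧ Y.re < 1 / 2
  f1 : fdom (Y - W)
  f2 : fdom (Y + W)
  f3 : fdom (Y - W')
  f4 : fdom (Y + W')
  e0 : hh b' - hh W' = -(hh b - hh W) - sc l * (Real.pi * I)
  e1 : hh (W' + b') - hh W' = hh (W + b) - hh W - (hh b - hh W) - sc l * (Real.pi * I / 2)
  lam : 2 * Lam W b + 2 * Lam W' b' +
    sc l * (Real.pi * I) * (2 * (hh (W + b) - hh W) - (hh b - hh W)) -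
    2 * sc l * (Real.pi * I) * (sP Y (.op W) + sP Y (.op W')) - 2 * (Real.pi : ℂ) ^ 2 / 3 +
    2 * (Real.pi : ℂ) ^ 2 * (W * b + W' * b') = 0

theorem nS_swap (u w : ℂ) : nS w u = nS u w + dS u w := by
  unfold nS dS
  rw [lcy_comm]
  ring

theorem dS_swap (u w : ℂ) : dS w u = -dS u w := by
  unfold dS
  ring

theorem XS_sum {u w : ℂ} (h : DX u w) : XS u w + XS w u = -((Real.pi : ℂ) ^ 2 / 6) := by
  have hd := h.d_im
  have hl : Complex.log (exp (-(2 * dS u w))) = -(2 * dS u w) := by
    rw [Complex.log_exp]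
    · rw [neg_im, show (2 : ℂ) = ((2 : ℝ) : ℂ) by norm_num, im_ofReal_mul]
      linarith [hd.1, hd.2, Real.pi_pos]
    · rw [neg_im, show (2 : ℂ) = ((2 : ℝ) : ℂ) by norm_num, im_ofReal_mul]
      linarith [hd.1, hd.2, Real.pi_pos]
  have hinv := dilog_inv (-exp (-(2 * dS u w))) (by
    rw [neg_neg]
    refine mem_slitPlane_iff_arg.2 ⟨?_, Complex.exp_ne_zero _⟩
    intro h0
    have h1 := congrArg Complex.im hl
    rw [Complex.log_im, h0, neg_im, show (2 : ℂ) = ((2 : ℝ) : ℂ) by norm_num,
      im_ofReal_mul] at h1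
    linarith [hd.1, hd.2, Real.pi_pos])
  rw [neg_neg, hl] at hinv
  have hi : (-exp (-(2 * dS u w)))⁻¹ = -exp (2 * dS u w) := by
    rw [inv_neg, Complex.exp_neg, inv_inv]
  rw [hi] at hinv
  have e : XS w u = dilog (-exp (2 * dS u w)) + 2 * (dS u w * (nS u w + dS u w)) := by
    unfold XS
    rw [nS_swap, dS_swap]
    have e2 : -(2 * -dS u w) = 2 * dS u w := by ring
    rw [e2]
    ring
  rw [e]
  unfold XS
  linear_combination hinv

theorem ES_true {u w : ℂ} (h : DX u w) (h' : DX w u) :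
    ES true (gdv u) (gdv w) (bS u w) (bS w u) (yy u w) := by
  have m1 := h.dm.1
  have m2 := h.dp.1
  have m3 := h'.dm.1
  have m4 := h'.dp.1
  rw [yy_comm] at m3 m4
  have e0 := h.e0
  have e1 := h.e1
  have f0 := h'.e0
  have f1 := h'.e1
  rw [nS_swap, dS_swap, yy_comm] at f1
  rw [dS_swap] at f0
  have hA := slotX h
  have hB := slotX h'
  have hX := XS_sum h
  unfold SlA at hA hB
  rw [dS_swap, yy_comm] at hB
  refine ⟨h.dx, h'.dx, h.yre, m1, m2, m3, m4, ?_, ?_, ?_⟩
  · rw [f0, e0, sc_true]; ring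
  · rw [f1, e0, e1, sc_true]; ring
  · have s1 : sP (yy u w) (.op (gdv u)) =
        2 * ff (yy u w + 1 / 2) - fe (yy u w - gdv u) - fe (yy u w + gdv u) := rfl
    have s2 : sP (yy u w) (.op (gdv w)) =
        2 * ff (yy u w + 1 / 2) - fe (yy u w - gdv w) - fe (yy u w + gdv w) := rfl
    rw [s1, s2, sc_true, e1, e0]
    rw [e1] at hA
    rw [f1] at hB
    linear_combination hA + hB - hX + (Real.pi : ℂ) ^ 2 / 2 * I_sq

theorem Bx.hh_conj {b : ℂ} (h : Bx b) : hh (conj b) = conj (hh b) := by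
  rw [← h.he_eq, ← h.conj.he_eq, S3.G.he_conj' h.fd]

theorem sP_conj' {Y W : ℂ} (h1 : fdom (Y - W)) (h2 : fdom (Y + W)) :
    sP (conj Y) (.op (conj W)) = conj (sP Y (.op W)) := by
  show 2 * ff (conj Y + 1 / 2) - fe (conj Y - conj W) - fe (conj Y + conj W) =
    conj (2 * ff (Y + 1 / 2) - fe (Y - W) - fe (Y + W))
  rw [← map_add, ← map_sub, S3.G.fe_conj h1, S3.G.fe_conj h2, S3.G.half_conj, ff_conj, map_sub,
    map_sub, map_mul, Complex.conj_ofNat]

theorem fdom_conj {z : ℂ} (h : fdom z) : fdom (conj z) := by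
  rcases h with h | h
  · left; rw [conj_im, neg_ne_zero]; exact h
  · right; rw [conj_re]; exact h

theorem ES.conj {l : Bool} {W W' b b' Y : ℂ} (h : ES l W W' b b' Y) :
    ES (!l) (conj W) (conj W') (conj b) (conj b') (conj Y) := by
  have g1 := EdgeS_hh h.dx.w0 h.dx.w1
  have g2 := EdgeS_hh h.dx'.w0 h.dx'.w1
  have g3 := EdgeS_hh h.dx.s0 h.dx.s1
  have g4 := EdgeS_hh h.dx'.s0 h.dx'.s1
  have k1 : hh (conj W) = conj (hh W) := by rw [← g1, conj_conj]
  have k2 : hh (conj W') = conj (hh W') := by rw [← g2, conj_conj]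
  have k3 : hh (conj W + conj b) = conj (hh (W + b)) := by rw [← map_add, ← g3, conj_conj]
  have k4 : hh (conj W' + conj b') = conj (hh (W' + b')) := by rw [← map_add, ← g4, conj_conj]
  have k5 := h.dx.bx.hh_conj
  have k6 := h.dx'.bx.hh_conj
  have k7 := LX_conj h.dx
  have k8 := LX_conj h.dx'
  have k9 := sP_conj' h.f1 h.f2
  have k10 := sP_conj' h.f3 h.f4
  refine ⟨h.dx.conj, h.dx'.conj, ?_, ?_, ?_, ?_, ?_, ?_, ?_, ?_⟩
  · rw [conj_re]; exact h.yre
  · rw [← map_sub]; exact fdom_conj h.f1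
  · rw [← map_add]; exact fdom_conj h.f2
  · rw [← map_sub]; exact fdom_conj h.f3
  · rw [← map_add]; exact fdom_conj h.f4
  · have k := congrArg conj h.e0
    simp only [map_sub, map_neg, map_mul, conj_sc, conj_ofReal, conj_I] at k
    rw [k1, k2, k5, k6, k, sc_not]
    ring
  · have k := congrArg conj h.e1
    simp only [map_sub, map_mul, map_div₀, map_ofNat, conj_sc, conj_ofReal, conj_I] at k
    rw [k1, k2, k3, k4, k5, k, sc_not]
    ring
  · have k := congrArg conj h.lam
    simp only [map_add, map_sub, map_mul, map_div₀, map_ofNat, map_pow, map_zero, conj_sc,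
      conj_ofReal, conj_I] at k
    rw [k1, k3, k5, k7, k8, k9, k10, sc_not]
    linear_combination k

/-- The angle of a slot. -/
noncomputable def bE (l : Bool) (x y : ℂ) : ℂ := if l then bS x y else conj (bS (conj x) (conj y))

/-- The variable of an edge. -/
noncomputable def yE (l : Bool) (x y : ℂ) : ℂ := if l then yy x y else conj (yy (conj x) (conj y))

/-- The domain of an edge with equal signs. -/
def DXs (l : Bool) (x y : ℂ) : Prop :=
  (if l then DX x y else DX (conj x) (conj y)) ∧ (if l then DX y x else DX (conj y) (conj x))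

/-- **An edge with equal signs.** -/
theorem DXs.es {l : Bool} {x y : ℂ} (h : DXs l x y) :
    ES l (gdv x) (gdv y) (bE l x y) (bE l y x) (yE l x y) := by
  cases l
  · have h1 : DX (conj x) (conj y) := by simpa [DXs] using h.1
    have h2 : DX (conj y) (conj x) := by simpa [DXs] using h.2
    have k := (ES_true h1 h2).conj
    have g1 := h1.l
    have g2 := h2.l
    rw [conj_im, abs_neg] at g1 g2
    rw [conj_gdv g1, conj_gdv g2] at k
    simpa [bE, yE] using k
  · have h1 : DX x y := by simpa [DXs] using h.1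
    have h2 : DX y x := by simpa [DXs] using h.2
    simpa [bE, yE] using ES_true h1 h2

end Pool.Agent.S5.CV
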