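import Pool.Agent.S5.CV.SumM

/-!
# Stage 3b, complex volume: the layers of the fans of a mixed chain
-/

namespace Pool.Agent.S5.CV

open Pool.Agent.H63.VC3 Pool.Agent.H63.VC5 Complex
open Pool.Agent.S3 (sP)
open Pool.Agent.S3.CV (cP cS clR om cl3 cS_first cS_last Ds LS_refl TriS_cS_succ TriS_cP_succ
  TriS_cS_zero TriS_cS_one)

variable {R : ℕ} {a : ℕ → ℕ} {S : ℕ → Bool} {b : Bool} {W bL bR Y : ℕ → ℂ}

theorem re_nat_mul (k : ℕ) (z : ℂ) : ((k : ℂ) * z).re = (k : ℝ) * z.re := by
  rw [show ((k : ℕ) : ℂ) = (((k : ℕ) : ℝ) : ℂ) by push_cast; rfl, re_ofReal_mul]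

theorem akM_re (i k : ℕ) : (akM W bL i k).re = (k : ℝ) * (W i).re + (bL i).re := by
  unfold akM
  rw [add_re, re_nat_mul]

variable (h : CUM R a S b W bL bR Y)
include h

theorem CUM.w0 {i : ℕ} (hi : i ≤ R) : 0 < (W i).re := by
  have hR := h.con.hR
  rcases Nat.lt_or_ge i R with h1 | h1
  · rcases hS : S i with _ | _
    · exact (h.eo i h1 hS).ds.w0
    · exact (h.es i h1 hS).dx.w0
  · obtain ⟨j, rfl⟩ : ∃ j, i = j + 1 := ⟨i - 1, by omega⟩
    rcases hS : S j with _ | _
    · exact (h.eo j (by omega) hS).ds'.w0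
    · exact (h.es j (by omega) hS).dx'.w0

theorem CUM.ver_re {i : ℕ} (hi : i ≤ R) :
    (a i : ℝ) * (W i).re + (bL i).re + (bR i).re = 1 := by
  have h1 := congrArg Complex.re (h.ver i hi)
  rw [add_re, add_re, one_re, re_nat_mul] at h1
  exact h1

/-- The first angle is positive. -/
theorem CUM.wl {i : ℕ} (hi : i ≤ R) : 0 < (W i).re + (bL i).re := by
  have hw := h.w0 hi
  rcases Nat.eq_zero_or_pos i with h1 | h1
  · subst h1
    rw [h.l0, zero_re]
    linarith
  · obtain ⟨j, rfl⟩ : ∃ j, i = j + 1 := ⟨i - 1, by omega⟩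
    rcases hS : S j with _ | _
    · have := (h.eo j (by omega) hS).ds'.b0
      linarith
    · have := (h.es j (by omega) hS).dx'.s0
      rwa [add_re] at this

/-- The last angle is positive. -/
theorem CUM.wr {i : ℕ} (hi : i ≤ R) : 0 < (W i).re + (bR i).re := by
  have hw := h.w0 hi
  rcases Nat.lt_or_ge i R with h1 | h1
  · rcases hS : S i with _ | _
    · have := (h.eo i h1 hS).ds.b0
      linarith
    · have := (h.es i h1 hS).dx.s0
      rwa [add_re] at this
  · have e : i = R := by omega
    rw [e, h.rR, zero_re]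
    rw [e] at hw
    linarith

theorem CUM.l_nonneg {i : ℕ} (hi : i ≤ R) (hS : ¬ (0 < i ∧ S (i - 1) = true)) :
    0 ≤ (bL i).re := by
  rcases Nat.eq_zero_or_pos i with h1 | h1
  · subst h1
    rw [h.l0, zero_re]
  · obtain ⟨j, rfl⟩ : ∃ j, i = j + 1 := ⟨i - 1, by omega⟩
    rw [Nat.add_sub_cancel] at hS
    have hS' : S j = false := by
      rcases h2 : S j with _ | _
      · rfl
      · exact absurd ⟨h1, h2⟩ hS
    exact (h.eo j (by omega) hS').ds'.b0.le

theorem CUM.r_nonneg {i : ℕ} (hi : i ≤ R) (hS : ¬ (i < R ∧ S i = true)) :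
    0 ≤ (bR i).re := by
  rcases Nat.lt_or_ge i R with h1 | h1
  · have hS' : S i = false := by
      rcases h2 : S i with _ | _
      · rfl
      · exact absurd ⟨h1, h2⟩ hS
    exact (h.eo i h1 hS').ds.b0.le
  · have e : i = R := by omega
    rw [e, h.rR, zero_re]

theorem CUM.wh {i : ℕ} (hi : i ≤ R) : (W i).re < 1 / 2 := by
  have hR := h.con.hR
  by_cases h1 : i < R ∧ S i = true
  · exact (h.es i h1.1 h1.2).dx.wh
  · by_cases h2 : 0 < i ∧ S (i - 1) = true
    · obtain ⟨j, rfl⟩ : ∃ j, i = j + 1 := ⟨i - 1, by omega⟩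
      rw [Nat.add_sub_cancel] at h2
      exact (h.es j (by omega) h2.2).dx'.wh
    · have l0 := h.l_nonneg hi h2
      have r0 := h.r_nonneg hi h1
      have hv := h.ver_re hi
      have hw := h.w0 hi
      have ha : (2 : ℝ) ≤ a i := by exact_mod_cast h.con.ha i hi
      have hp := mul_le_mul_of_nonneg_right ha hw.le
      have hlt : 0 < (bL i).re + (bR i).re := by
        rcases Nat.lt_or_ge i R with h3 | h3
        · have hS' : S i = false := by
            rcases h4 : S i with _ | _
            · rfl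
            · exact absurd ⟨h3, h4⟩ h1
          have := (h.eo i h3 hS').ds.b0
          linarith
        · obtain ⟨j, rfl⟩ : ∃ j, i = j + 1 := ⟨i - 1, by omega⟩
          rw [Nat.add_sub_cancel] at h2
          have hS' : S j = false := by
            rcases h4 : S j with _ | _
            · rfl
            · exact absurd ⟨by omega, h4⟩ h2
          have := (h.eo j (by omega) hS').ds'.b0
          linarith
      linarith

theorem CUM.ak_last {i : ℕ} (hi : i ≤ R) : akM W bL i (a i) = 1 - bR i := by
  have hv := h.ver i hi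
  unfold akM
  linear_combination hv

theorem CUM.ak_pred {i : ℕ} (hi : i ≤ R) : akM W bL i (a i - 1) = 1 - W i - bR i := by
  have hv := h.ver i hi
  have h1 := h.con.ha i hi
  unfold akM
  rw [Nat.cast_sub (by omega)]
  push_cast
  linear_combination hv

theorem CUM.ak_pred2 {i : ℕ} (hi : i ≤ R) : akM W bL i (a i - 2) = 1 - W i - (W i + bR i) := by
  have hv := h.ver i hi
  have h1 := h.con.ha i hi
  unfold akM
  rw [Nat.cast_sub (by omega)]
  push_cast
  linear_combination hv

/-- A regular slot. -/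
theorem CUM.dsk {i k : ℕ} (hi : i ≤ R) (h1 : 1 ≤ k) (h2 : k + 1 ≤ a i)
    (h3 : i = R → k + 2 ≤ a i) (h4 : i < R → S i = true → k + 2 ≤ a i) :
    Ds (W i) (akM W bL i k) := by
  have hw := h.w0 hi
  have hl := h.wl hi
  have hr := h.wr hi
  have hv := h.ver_re hi
  refine ⟨hw, ?_, ?_⟩
  · rw [akM_re]
    have hk : (1 : ℝ) ≤ k := by exact_mod_cast h1
    have := mul_le_mul_of_nonneg_right hk hw.le
    linarith
  · rw [akM_re]
    by_cases h5 : i < R ∧ S i = true
    · have hk : (k : ℝ) + 2 ≤ a i := by exact_mod_cast h4 h5.1 h5.2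
      have := mul_le_mul_of_nonneg_right hk hw.le
      linarith
    · rcases Nat.lt_or_ge i R with h6 | h6
      · have hS' : S i = false := by
          rcases h7 : S i with _ | _
          · rfl
          · exact absurd ⟨h6, h7⟩ h5
        have hb := (h.eo i h6 hS').ds.b0
        have hk : (k : ℝ) + 1 ≤ a i := by exact_mod_cast h2
        have := mul_le_mul_of_nonneg_right hk hw.le
        linarith
      · have hk : (k : ℝ) + 2 ≤ a i := by exact_mod_cast h3 (by omega)
        have e : i = R := by omega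
        have hb : (bR i).re = 0 := by rw [e, h.rR, zero_re]
        have := mul_le_mul_of_nonneg_right hk hw.le
        linarith

/-- The slot behind a layer. -/
theorem CUM.dxk {i j : ℕ} (hi : i ≤ R) (h0 : i = 0 → 1 ≤ j) (h2 : j + 2 ≤ a i) :
    Dx (W i) (akM W bL i j) := by
  rcases Nat.eq_zero_or_pos j with hj | hj
  · subst hj
    rw [akM_zero]
    obtain ⟨i, rfl⟩ : ∃ i', i = i' + 1 := ⟨i - 1, by
      rcases Nat.eq_zero_or_pos i with h1 | h1
      · have := h0 h1
        omega
      · omega⟩
    rcases hS : S i with _ | _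
    · exact Dx.of_Ds (h.eo i (by omega) hS).ds' (h.wh hi)
    · exact (h.es i (by omega) hS).dx'
  · exact Dx.of_Ds (h.dsk hi hj (by omega) (fun _ => by omega) (fun _ _ => by omega)) (h.wh hi)

/-- The slot at the end before an edge with equal signs. -/
theorem CUM.dsr {i : ℕ} (hi : i < R) (hS : S i = true) : Ds (W i) (W i + bR i) := by
  have hw := h.w0 hi.le
  have hl := h.wl hi.le
  have hr := h.wr hi.le
  have hv := h.ver_re hi.le
  refine ⟨hw, by rw [add_re]; exact hr, ?_⟩
  rw [add_re]
  have h1 := h.con.ha i hi.le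
  rcases Nat.lt_or_ge 2 (a i) with h2 | h2
  · have hk : (3 : ℝ) ≤ a i := by exact_mod_cast h2
    have := mul_le_mul_of_nonneg_right hk hw.le
    linarith
  · have h3 : a i = 2 := by omega
    have h4 : i ≠ 0 := by
      rintro rfl
      have := h.con.hfst hS
      omega
    obtain ⟨j, rfl⟩ : ∃ j, i = j + 1 := ⟨i - 1, by omega⟩
    have h5 : S j = false := by
      rcases h6 : S j with _ | _
      · rfl
      · have := h.con.hmid j hi h6 hS
        omega
    have hb := (h.eo j (by omega) h5).ds'.b0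
    rw [h3] at hv
    push_cast at hv
    linarith

theorem CUM.hd_last {i : ℕ} (hi : i ≤ R) : hdM W bL i (a i) = hh (bR i) - hh (W i) := by
  unfold hdM
  rw [h.ak_last hi, hhx_refl]

theorem CUM.hd_pred {i : ℕ} (hi : i ≤ R) :
    hdM W bL i (a i - 1) = hh (W i + bR i) - hh (W i) := by
  unfold hdM
  rw [h.ak_pred hi, ← hhx_refl (W i + bR i)]
  congr 2
  ring

theorem CUM.hd_pred2 {i : ℕ} (hi : i ≤ R) :
    hdM W bL i (a i - 2) = hh (2 * W i + bR i) - hh (W i) := by
  unfold hdM
  rw [h.ak_pred2 hi, ← hhx_refl (2 * W i + bR i)]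
  congr 2
  ring

omit h in
theorem hd_zeroM (i : ℕ) : hdM W bL i 0 = hh (bL i) - hh (W i) := by
  unfold hdM
  rw [akM_zero]

omit h in
theorem hd_oneM (i : ℕ) : hdM W bL i 1 = hh (W i + bL i) - hh (W i) := by
  unfold hdM akM
  rw [Nat.cast_one, one_mul]

omit h in
/-- The branches of a layer. -/
theorem nu_half (R : ℕ) (a : ℕ → ℕ) (S : ℕ → Bool) (b : Bool) (i j : ℕ) : ∃ r : ℤ,
    2 * r = 2 * nuM R a S b i (j + 1) - nuM R a S b i j - nuM R a S b i (j + 2) := by
  obtain ⟨n, hn⟩ := nuM_par (R := R) (a := a) (S := S) (b := b) i j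
  obtain ⟨m, hm⟩ := nuM_par (R := R) (a := a) (S := S) (b := b) i (j + 2)
  rw [hn, hm, rg_succ]
  exact ⟨nuM R a S b i (j + 1) - rg R a S b i j - n - m, by ring⟩

/-- The layers of a fan. -/
theorem CUM.fan {i j : ℕ} (hi : i ≤ R) (hk : j + 1 ∈ layM R a S i) (hk2 : j + 1 < a i) :
    ∃ P Q : ℤ, Complex.log (zM S b W bL i (j + 1)) + P * (Real.pi * I) =
        2 * lgLM S b (LPM R a S b W bL) (lamM R a S b W bL) i (j + 1) -
          2 * lgRM S b (LPM R a S b W bL) (lamM R a S b W bL) i (j + 1) ∧
      -Complex.log (1 - zM S b W bL i (j + 1)) + Q * (Real.pi * I) =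
        2 * lgRM S b (LPM R a S b W bL) (lamM R a S b W bL) i (j + 1) -
          lamM R a S b W bL i j - lgNM a (lamM R a S b W bL) i (j + 1) ∧
      Cg (2 * rogers (zM S b W bL i (j + 1)) P Q)
        (GkM R a S b W bL bR i (j + 1) - GkM R a S b W bL bR i j -
          (sgM S b i : ℂ) * (Real.pi : ℂ) ^ 2 / 3) := by
  obtain ⟨-, k0, kl, kR⟩ := (h.con.mem_lay hi).1 hk
  obtain ⟨r, hr⟩ := nu_half R a S b i j
  have hsg := sgM_sc S b i
  have hpos := h.pos i (j + 1) hi hk
  have hlg : lgNM a (lamM R a S b W bL) i (j + 1) = lamM R a S b W bL i (j + 2) := by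
    unfold lgNM
    rw [if_neg (Nat.ne_of_lt hk2)]
  have hLj : LkM a S W bL bR i j = Lam (W i) (akM W bL i j) := by
    unfold LkM
    rw [if_neg (fun h => by have := h.2; omega)]
  have hr' : (2 : ℂ) * r = 2 * (nuM R a S b i (j + 1) : ℂ) - nuM R a S b i j -
      nuM R a S b i (j + 2) := by exact_mod_cast hr
  rw [hlg]
  by_cases hX : i < R ∧ S i = true ∧ j + 2 = a i
  · -- the last layer before an edge with equal signs
    obtain ⟨hiR, hS, hja⟩ := hX
    have hj1 : a i - 1 = j + 1 := by omega
    have hj2 : a i - 2 = j := by omega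
    have eL := h.hd_last hi
    have eP := h.hd_pred hi
    have eQ := h.hd_pred2 hi
    have eK := h.ak_pred2 hi
    rw [hj2] at eQ eK
    rw [hj1] at eP
    rw [← hja] at eL
    have hx := (h.es i hiR hS).dx
    have hx' := h.dsr hiR hS
    have hz : zM S b W bL i (j + 1) = if lfM S b i then
        exp (2 * (hh (W i) - hh (W i + bR i))) else
        exp (-(2 * (hh (W i) - hh (W i + bR i)))) := by
      unfold zM
      rw [eP]
      cases lfM S b i
      · rw [sc_false, if_neg (by simp)]
        congr 1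
        ring
      · rw [sc_true, if_pos rfl]
        congr 1
        ring
    obtain ⟨P, Q, e1, e2, e3⟩ := fanX (lfM S b i) hx hx' hz hpos
      (LP := LPM R a S b W bL i) (l0 := lamM R a S b W bL i (j + 2))
      (l1 := lamM R a S b W bL i (j + 1)) (l2 := lamM R a S b W bL i j)
      (N := LNM a W bL i) (m := pM R a S b i) (mk := pM R a S b i + nuM R a S b i (j + 1))
      (m0 := pM R a S b i + nuM R a S b i (j + 2)) (m2 := pM R a S b i + nuM R a S b i j)
      (r := r) (by linear_combination hr) rfl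
      (by unfold lamM; rw [eP]) (by unfold lamM; rw [eL]) (by unfold lamM; rw [eQ])
    refine ⟨P, Q, e1, ?_, ?_⟩
    · rw [e2]
      unfold lgRM
      ring
    · refine e3.trans (Cg.of_eq ?_)
      have hLk : LkM a S W bL bR i (j + 1) =
          (Real.pi : ℂ) ^ 2 * W i - Lam (W i) (bR i) := by
        unfold LkM
        rw [if_pos ⟨hS, by omega⟩]
      have hrf := LS_refl _ _ hx'
      have hsc : (if lfM S b i then (1 : ℂ) else -1) = sc (lfM S b i) := rfl
      unfold GkM CcM
      rw [hLk, hLj, hsg, hsc, eK]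
      have hA : hh (W i + bR i) = hdM W bL i (j + 1) + hh (W i) := by rw [eP]; ring
      have hB : hh (bR i) = hdM W bL i (j + 2) + hh (W i) := by rw [eL]; ring
      have hC : hh (2 * W i + bR i) = hdM W bL i j + hh (W i) := by rw [eQ]; ring
      rw [hA, hB, hC]
      push_cast
      linear_combination (-(2 * sc (lfM S b i))) * hrf -
        (Real.pi * I * sc (lfM S b i) * hdM W bL i (j + 1)) * hr'
  · -- the other layers
    have hx : Dx (W i) (akM W bL i j) := h.dxk hi (fun h0 => by have := k0 h0; omega) (by omega)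
    have hx' : Ds (W i) (W i + akM W bL i j) := by
      rw [← akM_succ]
      refine h.dsk hi (by omega) (by omega) (fun h0 => by have := kR h0; omega)
        (fun h0 h1 => ?_)
      by_contra hc
      exact hX ⟨h0, h1, by omega⟩
    have hz : zM S b W bL i (j + 1) = if lfM S b i then
        exp (2 * (hh (W i) - hh (W i + akM W bL i j))) else
        exp (-(2 * (hh (W i) - hh (W i + akM W bL i j)))) := by
      unfold zM hdM
      rw [akM_succ]
      cases lfM S b i
      · rw [sc_false, if_neg (by simp)]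
        congr 1
        ring
      · rw [sc_true, if_pos rfl]
        congr 1
        ring
    obtain ⟨P, Q, e1, e2, e3⟩ := fanX (lfM S b i) hx hx' hz hpos
      (LP := LPM R a S b W bL i) (l0 := lamM R a S b W bL i j)
      (l1 := lamM R a S b W bL i (j + 1)) (l2 := lamM R a S b W bL i (j + 2))
      (N := LNM a W bL i) (m := pM R a S b i) (mk := pM R a S b i + nuM R a S b i (j + 1))
      (m0 := pM R a S b i + nuM R a S b i j) (m2 := pM R a S b i + nuM R a S b i (j + 2))
      (r := r) (by linear_combination hr) rfl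
      (by unfold lamM hdM; rw [akM_succ]) rfl (by
        unfold lamM hdM
        rw [akM_succ, akM_succ]
        congr 4
        ring_nf)
    refine ⟨P, Q, e1, e2, ?_⟩
    refine e3.trans (Cg.of_eq ?_)
    have hLk : LkM a S W bL bR i (j + 1) = Lam (W i) (akM W bL i (j + 1)) := by
      unfold LkM
      rw [if_neg]
      rintro ⟨h1, h2⟩
      rcases Nat.lt_or_ge i R with h3 | h3
      · exact hX ⟨h3, h1, by omega⟩
      · have := kR (by omega)
        omega
    have hsc : (if lfM S b i then (1 : ℂ) else -1) = sc (lfM S b i) := rfl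
    have hA : hh (W i + akM W bL i j) = hdM W bL i (j + 1) + hh (W i) := by
      unfold hdM; rw [akM_succ]; ring
    have hB : hh (akM W bL i j) = hdM W bL i j + hh (W i) := by
      unfold hdM; ring
    have hC : hh (2 * W i + akM W bL i j) = hdM W bL i (j + 2) + hh (W i) := by
      unfold hdM; rw [akM_succ, akM_succ]; ring_nf
    unfold GkM CcM
    rw [hLk, hLj, hsg, hsc, hA, hB, hC, ← akM_succ]
    push_cast
    linear_combination (-(Real.pi * I * sc (lfM S b i) * hdM W bL i (j + 1))) * hr'

end Pool.Agent.S5.CV
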