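import Pool.Agent.S5.CV.TotM
import Pool.Agent.S5.G.Vol
import Pool.Agent.S3.CV.FinS

/-!
# Stage 3b, complex volume: the critical point of a mixed chain

`cv_mixed`: the value of the potential at the critical point is the complex volume.
-/

namespace Pool.Agent.S5.CV

open Pool.Agent.H63.VC3 Pool.Agent.H63.VC5 Complex
open Pool.Agent.H25.RK (gdv)
open Pool.Agent.H1TB (conwayH)
open Pool.Agent.S3 (sP wr Reg QO qq yy Lm Lp Lm_conj UU_re UU_im UU_conj eq_arsh cosh_qq TT arsh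
  cosh_ne)
open Pool.Agent.S3.CV (EQ Ds bS conj_gdv om cP cS pi_ne' exp_yy)
open Pool.Agent.S3.E (uu)
open Pool.Agent.S3.G (zz Xx ze im_shape Yy)
open Pool.Agent.S5.G (CrtM kp kp_true kp_false kp_ne YrM YlM WV)
open scoped ComplexConjugate BigOperators

/-! ### The variable `u` -/

section uu

variable {z : ℂ} (h : 0 < z.re) (h' : z.re < Real.pi / 2) (hI : 0 < z.im)
include h h' hI

theorem uu_re : 0 < (uu z).re := by
  rw [uu, UU_re]
  exact S3.E.xx_pos h h' hI

theorem uu_im : 0 < (uu z).im ∧ (uu z).im < Real.pi / 2 := by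
  rw [uu, UU_im]
  exact ⟨S3.E.th_pos h h' hI, S3.E.th_lt h h' hI⟩

theorem uu_abs : |(uu z).im| < Real.pi / 2 := by
  have := uu_im h h' hI
  rw [abs_of_pos this.1]
  exact this.2

theorem sinh_uu : sinh (uu z) = tan z := S3.E.sinh_u h h' hI

theorem cosh_uu' : cosh (uu z) * cos z = 1 := S3.E.cosh_uu h h' hI

theorem cos_ne_uu : cos z ≠ 0 := by
  intro h0
  have := cosh_uu' h h' hI
  rw [h0, mul_zero] at this
  exact zero_ne_one this

theorem cosh_uu_inv : cosh (uu z) = (cos z)⁻¹ :=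
  eq_inv_of_mul_eq_one_left (cosh_uu' h h' hI)

theorem gdv_uu' : gdv (uu z) = z / Real.pi := by
  have h1 := S3.gd_eq (uu_abs h h' hI)
  have h2 : S3.gd (uu z) = z := by
    rw [uu]
    exact S3.E.gd_uu h h' hI
  rw [h2] at h1
  rw [eq_div_iff pi_ne', mul_comm]
  exact h1.symm

theorem gdv_uu_conj : gdv (conj (uu z)) = conj z / Real.pi := by
  have h1 := conj_gdv (w := conj (uu z)) (by
    rw [conj_im, abs_neg]
    exact uu_abs h h' hI)
  rw [conj_conj, gdv_uu' h h' hI, map_div₀, conj_ofReal] at h1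
  exact h1.symm

end uu

/-- The variable at the other end of an edge. -/
noncomputable def kq (s : Bool) (u : ℂ) : ℂ := if s then u else conj u

theorem kq_true (u : ℂ) : kq true u = u := if_pos rfl

theorem kq_false (u : ℂ) : kq false u = conj u := if_neg (by simp)

theorem conj_kq (s : Bool) (u : ℂ) : conj (kq s u) = kq (!s) u := by
  cases s
  · rw [kq_false, Bool.not_false, kq_true, conj_conj]
  · rw [kq_true, Bool.not_true, kq_false]

theorem cosh_kq (s : Bool) (u : ℂ) : cosh (kq s u) = kp s (cosh u) := by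
  cases s
  · rw [kq_false, kp_false, cosh_conj]
  · rw [kq_true, kp_true]

theorem kp_inv (s : Bool) (c : ℂ) : kp s c⁻¹ = (kp s c)⁻¹ := by
  cases s
  · rw [kp_false, kp_false, map_inv₀]
  · rw [kp_true, kp_true]

/-- The angle of a slot. -/
theorem qq_slot {z w q : ℂ} {s : Bool} (h : 0 < z.re) (h' : z.re < Real.pi / 2) (hI : 0 < z.im)
    (g : 0 < w.re) (g' : w.re < Real.pi / 2) (gI : 0 < w.im)
    (hq : sinh q = kp s (cos w) * tan z) (hqi : |q.im| < Real.pi / 2) :
    qq (uu z) (kq s (uu w)) = q := by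
  rw [qq, sinh_uu h h' hI, cosh_kq, cosh_uu_inv g g' gI, kp_inv, div_inv_eq_mul]
  refine (eq_arsh ?_ hqi).symm
  rw [hq, mul_comm]

theorem EQ.swap {u w : ℂ} (h : EQ u w) : EQ (conj w) (conj u) := by
  refine ⟨h.q.conj, ?_, ?_, ?_, ?_, ?_, ?_⟩
  · rw [conj_re]; exact h.wr
  · rw [conj_im]; linarith [h.wi]
  · rw [conj_re]; exact h.ur
  · rw [conj_im]; linarith [h.ui]
  · rw [Lm_conj h.q.reg.symm, conj_im, abs_neg]; exact h.g'
  · rw [Lm_conj h.q.reg, conj_im, abs_neg]; exact h.g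

/-- The edges of a mixed chain. -/
structure EdgM (R : ℕ) (S : ℕ → Bool) (z : ℕ → ℂ) : Prop where
  opp : ∀ i, i < R → S i = false → EQ (uu (z i)) (conj (uu (z (i + 1))))
  nrm : ∀ i, i < R → S i = true → Complex.normSq (cos (z i)) ≤ 2 ∧
    Complex.normSq (cos (z (i + 1))) ≤ 2

/-- The domain of an edge with equal signs. -/
theorem dx_of {z w : ℂ} (h : 0 < z.re) (h' : z.re < Real.pi / 2) (hI : 0 < z.im)
    (g : 0 < w.re) (g' : w.re < Real.pi / 2) (gI : 0 < w.im)
    (hz : -(cos z).im < (cos z).re) (hw : -(cos w).im < (cos w).re)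
    (hn : Complex.normSq (cos w) ≤ 2) : DX (uu z) (uu w) := by
  have key : ∀ v : ℂ, 0 < v.re → v.re < Real.pi / 2 → 0 < v.im → -(cos v).im < (cos v).re →
      (cosh (uu v)).im < (cosh (uu v)).re := by
    intro v v0 v1 v2 v3
    have hne := cos_ne_uu v0 v1 v2
    have hp := Complex.normSq_pos.2 hne
    rw [cosh_uu_inv v0 v1 v2, Complex.inv_re, Complex.inv_im]
    exact div_lt_div_of_pos_right v3 hp
  refine ⟨uu_re h h' hI, (uu_im h h' hI).1, (uu_im h h' hI).2, key z h h' hI hz,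
    (uu_re g g' gI).le, (uu_im g g' gI).1.le, (uu_im g g' gI).2, key w g g' gI hw, ?_⟩
  rw [cosh_uu_inv g g' gI, Complex.normSq_inv]
  have hp := Complex.normSq_pos.2 (cos_ne_uu g g' gI)
  rw [one_div]
  exact (inv_le_inv₀ (by norm_num) hp).2 hn

section crt

variable {R : ℕ} {a : ℕ → ℕ} {S : ℕ → Bool} {z ql qr : ℕ → ℂ}

/-- The oriented variables. -/
noncomputable def UM (S : ℕ → Bool) (b : Bool) (z : ℕ → ℂ) (i : ℕ) : ℂ :=
  kq (lfM S b i) (uu (z i))

/-- The variables of the regions. -/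
noncomputable def WM (S : ℕ → Bool) (b : Bool) (z : ℕ → ℂ) (i : ℕ) : ℂ :=
  kp (lfM S b i) (z i) / Real.pi

/-- The angles at the ends of the regions. -/
noncomputable def aM (S : ℕ → Bool) (b : Bool) (q : ℕ → ℂ) (i : ℕ) : ℂ :=
  kp (lfM S b i) (-(I * q i)) / Real.pi

/-- The variables of the edges. -/
noncomputable def YM (S : ℕ → Bool) (b : Bool) (z : ℕ → ℂ) (i : ℕ) : ℂ :=
  if S i then yE (lfM S b i) (UM S b z i) (UM S b z (i + 1))
  else yy (UM S b z i) (UM S b z (i + 1))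

theorem kp_div (s : Bool) (x : ℂ) : kp s (x / Real.pi) = kp s x / Real.pi := by
  cases s
  · rw [kp_false, kp_false, map_div₀, conj_ofReal]
  · rw [kp_true, kp_true]

theorem conM_of (h : CrtM R a S z ql qr) : ConM R a S := ⟨h.hR, h.ha, h.hfst, h.hlst, h.hmid⟩

variable (h : CrtM R a S z ql qr)
include h

theorem gdv_UM (b : Bool) {i : ℕ} (hi : i ≤ R) : gdv (UM S b z i) = WM S b z i := by
  have h1 := h.zre i hi
  have h2 := h.zim i hi
  unfold UM WM
  cases lfM S b i
  · rw [kq_false, kp_false]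
    exact gdv_uu_conj h1.1 h1.2 h2
  · rw [kq_true, kp_true]
    exact gdv_uu' h1.1 h1.2 h2

theorem qq_r {i : ℕ} (hi : i < R) : qq (uu (z i)) (kq (S i) (uu (z (i + 1)))) = qr i := by
  have h1 := h.zre i hi.le
  have h2 := h.zim i hi.le
  have h3 := h.zre (i + 1) hi
  have h4 := h.zim (i + 1) hi
  have h5 := h.rim i hi
  exact qq_slot h1.1 h1.2 h2 h3.1 h3.2 h4 (h.sr i hi) (abs_lt.2 h5)

theorem qq_l {i : ℕ} (hi : i < R) : qq (uu (z (i + 1))) (kq (S i) (uu (z i))) = ql (i + 1) := by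
  have h1 := h.zre i hi.le
  have h2 := h.zim i hi.le
  have h3 := h.zre (i + 1) hi
  have h4 := h.zim (i + 1) hi
  have h5 := h.lim i hi
  exact qq_slot h3.1 h3.2 h4 h1.1 h1.2 h2 (h.sl i hi) (abs_lt.2 h5)

omit h in
/-- The next variable. -/
theorem kq_next (S : ℕ → Bool) (b : Bool) (i : ℕ) (u : ℂ) :
    kq (lfM S b (i + 1)) u = kq (lfM S b i) (kq (S i) u) := by
  rcases hS : S i with _ | _
  · rw [lfM_false hS, kq_false]
    cases lfM S b i
    · rw [Bool.not_false, kq_true, kq_false, conj_conj]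
    · rw [Bool.not_true, kq_false, kq_true]
  · rw [lfM_true hS, kq_true]

omit h in
theorem kq_prev (S : ℕ → Bool) (b : Bool) (i : ℕ) (u : ℂ) :
    kq (lfM S b i) u = kq (lfM S b (i + 1)) (kq (S i) u) := by
  rcases hS : S i with _ | _
  · rw [lfM_false hS, kq_false]
    cases lfM S b i
    · rw [Bool.not_false, kq_true, kq_false]
    · rw [Bool.not_true, kq_false, kq_true, conj_conj]
  · rw [lfM_true hS, kq_true]

omit h in
theorem bE_kq (l : Bool) (x y : ℂ) : bE l (kq l x) (kq l y) = kp l (bS x y) := by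
  unfold bE
  cases l
  · rw [kq_false, kq_false, conj_conj, conj_conj, kp_false]
    simp
  · rw [kq_true, kq_true, kp_true]
    simp

theorem bE_r (b : Bool) {i : ℕ} (hi : i < R) :
    bE (lfM S b i) (UM S b z i) (UM S b z (i + 1)) = aM S b qr i := by
  unfold UM aM
  rw [kq_next, bE_kq, ← kp_div]
  unfold bS
  rw [qq_r h hi]

theorem bE_l (b : Bool) {i : ℕ} (hi : i < R) :
    bE (lfM S b (i + 1)) (UM S b z (i + 1)) (UM S b z i) = aM S b ql (i + 1) := by
  unfold UM aM
  rw [kq_prev S b i (uu (z i)), bE_kq, ← kp_div]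
  unfold bS
  rw [qq_l h hi]

end crt

end Pool.Agent.S5.CV
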