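import Pool.Agent.S5.CV.FanM

/-!
# Stage 3b, complex volume: the hinges and the identifications of a mixed chain
-/

namespace Pool.Agent.S5.CV

open Pool.Agent.H63.VC3 Pool.Agent.H63.VC5 Complex
open Pool.Agent.S3 (sP)
open Pool.Agent.S3.CV (cP cS clR om cl3 cS_first cS_last Ds LS_refl TriS_cS_succ TriS_cP_succ
  TriS_cS_zero TriS_cS_one)

variable {R : ℕ} {a : ℕ → ℕ} {S : ℕ → Bool} {b : Bool} {W bL bR Y : ℕ → ℂ}

/-- The value of an edge. -/
noncomputable def H0M (R : ℕ) (a : ℕ → ℕ) (S : ℕ → Bool) (b : Bool) (W bL bR Y : ℕ → ℂ)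
    (i : ℕ) : ℂ :=
  2 * Real.pi * I * (sP (Y i) (.op (W i)) + sP (Y i) (.op (W (i + 1)))) -
    2 * (Real.pi : ℂ) ^ 2 * (sgM S b i : ℂ) * (W i * bR i - W (i + 1) * bL (i + 1)) -
    2 * (sgM S b i : ℂ) * (Lam (W i) (bR i) - Lam (W (i + 1)) (bL (i + 1))) -
    (if cS a b i (a i + 1) = -om R a b then (Real.pi : ℂ) ^ 2 / 2 else 0)

/-- The value of a hinge. -/
noncomputable def HkM (R : ℕ) (a : ℕ → ℕ) (S : ℕ → Bool) (b : Bool) (W bL bR Y : ℕ → ℂ)
    (i : ℕ) : ℂ :=
  H0M R a S b W bL bR Y i - Real.pi * I * ((sgM S b i : ℂ) * CcM R a S b W bL i (a i - 1)) +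
    Real.pi * I * ((sgM S b (i + 1) : ℂ) * CcM R a S b W bL (i + 1) 0)

theorem sgM_cases (S : ℕ → Bool) (b : Bool) (i : ℕ) : sgM S b i = 1 ∨ sgM S b i = -1 := by
  unfold sgM
  split
  · exact Or.inl rfl
  · exact Or.inr rfl

theorem rg_last (i : ℕ) :
    rg R a S b i (a i) = if cS a b i (a i + 1) = -om R a b then sgM S b i else 0 :=
  rg_prev i (a i)

theorem rg_zero_succ (i : ℕ) : rg R a S b (i + 1) 0 =
    if cS a b i (a i + 1) = -om R a b then sgM S b (i + 1) else 0 := by
  rw [rg_prev, TriS_cS_one]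

theorem rg_one_succ (i : ℕ) : rg R a S b (i + 1) 1 =
    if cP a b i = -om R a b then sgM S b (i + 1) else 0 := by
  rw [rg_next, TriS_cS_zero]

theorem nuM_false {i : ℕ} (hS : S i = false) (k : ℕ) :
    nuM R a S b (i + 1) k = rg R a S b (i + 1) k := by
  apply nuM_reg
  rintro ⟨-, h⟩
  rw [Nat.add_sub_cancel, hS] at h
  exact absurd h (by simp)

theorem nuM_zero_true {i : ℕ} (hS : S i = true) :
    nuM R a S b (i + 1) 0 = 2 * sgM S b i - rg R a S b i (a i) := by
  unfold nuM
  rw [if_pos ⟨by omega, by simpa using hS⟩, if_pos rfl, rg_zero_succ, rg_last, sgM_true hS]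

theorem nuM_one_true {i : ℕ} (hS : S i = true) :
    nuM R a S b (i + 1) 1 = sgM S b i - rg R a S b i (a i) +
      (if cS a b i (a i) = -om R a b then sgM S b i else 0) := by
  have hc := cl3 R a b i (a i)
  unfold nuM
  rw [if_pos ⟨by omega, by simpa using hS⟩, if_neg (by omega), if_pos rfl, rg_one_succ, rg_last,
    sgM_true hS, TriS_cP_succ]
  rcases hc with ⟨c1, c2, c3⟩ | ⟨c1, c2, c3⟩ | ⟨c1, c2, c3⟩
  · rw [if_pos c1, if_neg c2, if_neg c3, if_neg c2]; ring
  · rw [if_neg c1, if_pos c2, if_neg c3, if_pos c2]; ring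
  · rw [if_neg c1, if_neg c2, if_pos c3, if_neg c2]; ring

variable (h : CUM R a S b W bL bR Y)
include h

theorem CUM.nu_last {i : ℕ} (hi : i ≤ R) : nuM R a S b i (a i) = rg R a S b i (a i) :=
  nuM_two (h.con.ha i hi)

/-- The branch of `S_{i,a_i-1}` before an edge with equal signs. -/
theorem CUM.nu_pred {i : ℕ} (hi : i < R) (hS : S i = true) :
    nuM R a S b i (a i - 1) = if cS a b i (a i) = -om R a b then sgM S b i else 0 := by
  have ha := h.con.ha i hi.le
  have e : a i - 1 + 1 = a i := by omega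
  have e2 : nuM R a S b i (a i - 1) = rg R a S b i (a i - 1) := by
    rcases Nat.lt_or_ge 2 (a i) with h1 | h1
    · exact nuM_two (by omega)
    · apply nuM_reg
      rintro ⟨h2, h3⟩
      obtain ⟨j, rfl⟩ : ∃ j, i = j + 1 := ⟨i - 1, by omega⟩
      have := h.con.hmid j hi (by simpa using h3) hS
      omega
  rw [e2, rg_prev, e]

/-- The layer of a hinge. -/
theorem CUM.hin {i : ℕ} (hi : i < R) (hS : S i = false) :
    ∃ P Q : ℤ, Complex.log (zM S b W bL i (a i)) + P * (Real.pi * I) =
        2 * lgLM S b (LPM R a S b W bL) (lamM R a S b W bL) i (a i) -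
          2 * lgRM S b (LPM R a S b W bL) (lamM R a S b W bL) i (a i) ∧
      -Complex.log (1 - zM S b W bL i (a i)) + Q * (Real.pi * I) =
        2 * lgRM S b (LPM R a S b W bL) (lamM R a S b W bL) i (a i) -
          lamM R a S b W bL i (a i - 1) - lgNM a (lamM R a S b W bL) i (a i) ∧
      2 * rogers (zM S b W bL i (a i)) P Q = HkM R a S b W bL bR Y i := by
  have he := h.eo i hi hS
  have ha := h.con.ha i hi.le
  have eL := h.hd_last hi.le
  have eP := h.hd_pred hi.le
  have eZ := hd_zeroM (W := W) (bL := bL) (i + 1)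
  have eO := hd_oneM (W := W) (bL := bL) (i + 1)
  have hsg := sgM_sc S b i
  have hz : zM S b W bL i (a i) = exp (-(2 * (sc (lfM S b i) * (hh (bR i) - hh (W i))))) := by
    unfold zM
    rw [eL]
  have hN : lgNM a (lamM R a S b W bL) i (a i) = lamM R a S b W bL (i + 1) 1 := by
    unfold lgNM
    rw [if_pos rfl]
  -- the branches
  obtain ⟨n, hn⟩ := nuM_par (R := R) (a := a) (S := S) (b := b) i (a i - 1)
  have h3 := rg_three (R := R) (a := a) (S := S) (b := b) i (a i - 1)
  have ej : a i - 1 + 1 = a i := by omega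
  rw [ej] at h3
  have nA := h.nu_last hi.le
  have n0 := nuM_false (R := R) (a := a) (b := b) hS 0
  have n1 := nuM_false (R := R) (a := a) (b := b) hS 1
  rw [rg_zero_succ, sgM_false hS] at n0
  rw [rg_one_succ, sgM_false hS] at n1
  have hA := rg_last (R := R) (a := a) (S := S) (b := b) i
  set A := rg R a S b i (a i) with hAdef
  set B := nuM R a S b i (a i - 1) with hBdef
  set ν := nuM R a S b (i + 1) 1 with hν
  set s := sgM S b i with hs
  set g : ℤ := if cP a b i = -om R a b then s else 0 with hg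
  have n0' : nuM R a S b (i + 1) 0 = -A := by
    rw [n0, hA]
    split <;> simp
  have n1' : ν = -g := by
    rw [n1, hg]
    split <;> simp
  have hss : s = 1 ∨ s = -1 := sgM_cases S b i
  obtain ⟨Q, hQ⟩ : ∃ Q : ℤ, 2 * Q = s * A - B - ν - 1 := by
    rcases hss with h1 | h1
    · refine ⟨A - 1 + g - n, ?_⟩
      rw [n1', hn]
      rw [h1] at h3 ⊢
      linear_combination h3
    · refine ⟨g - n, ?_⟩
      rw [n1', hn]
      rw [h1] at h3 ⊢
      linear_combination h3
  have hQ' : (2 : ℂ) * Q = s * A - B - ν - 1 := by exact_mod_cast hQ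
  have hs2 : (s : ℂ) * s = 1 := by
    have := sgM_sq S b i
    rw [← hs] at this
    exact_mod_cast this
  have hLN : LNM a W bL (i + 1) = LNM a W bL i + hdM W bL i (a i) := rfl
  have hp : pM R a S b (i + 1) = pM R a S b i + A := rfl
  refine ⟨-(s * A), Q, ?_, ?_, ?_⟩
  · rw [hz, he.l1]
    unfold lgLM lgRM LPM lamM
    rw [eL, nA]
    rcases hl : lfM S b i with _ | _
    · rw [hl, sc_false] at hsg
      rw [sc_false, if_neg (by simp), if_neg (by simp)]
      push_cast
      rw [hsg]
      ring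
    · rw [hl, sc_true] at hsg
      rw [sc_true, if_pos rfl, if_pos rfl]
      push_cast
      rw [hsg]
      ring
  · rw [hz, he.l2, hN]
    unfold lgRM LPM lamM
    rw [eL, nA, eP, hLN, hp, eL, eO]
    rcases hl : lfM S b i with _ | _
    · rw [hl, sc_false] at hsg
      rw [hsg] at hQ'
      rw [sc_false, if_neg (by simp)]
      push_cast
      linear_combination (Real.pi * I / 2) * hQ'
    · rw [hl, sc_true] at hsg
      rw [hsg] at hQ'
      rw [sc_true, if_pos rfl]
      push_cast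
      linear_combination (Real.pi * I / 2) * hQ'
  · rw [hz, he.val]
    have e0 := he.e0
    unfold HkM H0M CcM
    have hA' : (if cS a b i (a i + 1) = -om R a b then (Real.pi : ℂ) ^ 2 / 2 else 0) =
        (Real.pi : ℂ) ^ 2 / 2 * (s * A) := by
      rw [hA]
      split
      · rw [hs2]; ring
      · push_cast
        ring
    rw [ej, nA, eL, eP, eZ, eO, hA', sgM_false hS, n0', e0, ← hs, ← hsg]
    push_cast
    linear_combination (-(Real.pi * I * s * (hh (bR i) - hh (W i)))) * hQ' +
      ((Real.pi : ℂ) ^ 2 / 2 * (s * A - 1)) * I_sq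

/-! ### The identifications -/

theorem CUM.lab_first : lamM R a S b W bL 0 1 = LPM R a S b W bL 0 := by
  have hc := cl3 R a b 0 0
  have h0 := cS_first R a b
  have m : nuM R a S b 0 1 = 0 := by
    rw [nuM_reg (by omega)]
    unfold rg
    rcases hc with ⟨c1, -, -⟩ | ⟨-, c2, -⟩ | ⟨-, -, c3⟩
    · rw [if_neg (fun h => h.1 c1)]
    · exact absurd c2 h0
    · rw [if_neg (fun h => h.2 c3)]
  have e : hdM W bL 0 1 = 0 := by
    rw [hd_oneM, h.l0, add_zero, sub_self]
  unfold lamM LPM
  rw [m, e, add_zero, add_zero]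

theorem CUM.hd_end : hdM W bL R (a R - 1) = 0 := by
  rw [h.hd_pred le_rfl, h.rR, add_zero, sub_self]

theorem CUM.nu_end : nuM R a S b R (a R - 1) = 0 := by
  have ha := h.con.ha R le_rfl
  have hR := h.con.hR
  have ej : a R - 1 + 1 = a R := by omega
  have e2 : nuM R a S b R (a R - 1) = rg R a S b R (a R - 1) := by
    rcases Nat.lt_or_ge 2 (a R) with h1 | h1
    · exact nuM_two (by omega)
    · apply nuM_reg
      rintro ⟨h2, h3⟩
      have h4 := h.con.hlst (R - 1) (by omega) h3
      have h5 : R - 1 + 1 = R := by omega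
      rw [h5] at h4
      omega
  rw [e2, rg_prev, ej, if_neg (cS_last R a b)]

theorem CUM.lab_last : lamM R a S b W bL R (a R - 1) = LPM R a S b W bL R := by
  unfold lamM LPM
  rw [h.nu_end, h.hd_end, add_zero, add_zero]

theorem CUM.lab_right {i : ℕ} (hi : i < R) :
    lamM R a S b W bL i (a i) = LPM R a S b W bL (i + 1) := by
  unfold lamM LPM
  rw [h.nu_last hi.le]
  rfl

theorem CUM.lab_left {i : ℕ} (hi : i < R) :
    lamM R a S b W bL (i + 1) 0 = LPM R a S b W bL i := by
  have eL := h.hd_last hi.le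
  have eZ := hd_zeroM (W := W) (bL := bL) (i + 1)
  have hLN : LNM a W bL (i + 1) = LNM a W bL i + hdM W bL i (a i) := rfl
  have hp : pM R a S b (i + 1) = pM R a S b i + rg R a S b i (a i) := rfl
  unfold lamM LPM
  rw [hLN, hp, eL, eZ]
  rcases hS : S i with _ | _
  · rw [nuM_false hS, (h.eo i hi hS).e0, rg_zero_succ, rg_last, sgM_false hS]
    split
    · push_cast
      ring
    · push_cast
      ring
  · rw [nuM_zero_true hS, (h.es i hi hS).e0, ← sgM_sc]
    push_cast
    ring

theorem CUM.lab_same {i : ℕ} (hi : i < R) (hS : S i = true) :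
    lamM R a S b W bL (i + 1) 1 = lamM R a S b W bL i (a i - 1) := by
  have eL := h.hd_last hi.le
  have eP := h.hd_pred hi.le
  have eO := hd_oneM (W := W) (bL := bL) (i + 1)
  have hLN : LNM a W bL (i + 1) = LNM a W bL i + hdM W bL i (a i) := rfl
  have hp : pM R a S b (i + 1) = pM R a S b i + rg R a S b i (a i) := rfl
  unfold lamM
  rw [hLN, hp, eL, eP, eO, nuM_one_true hS, h.nu_pred hi hS, (h.es i hi hS).e1, ← sgM_sc]
  push_cast
  ring

end Pool.Agent.S5.CV
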