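import Pool.Agent.H25.RK.DGI
import Pool.Agent.H63.GO.MTaylor
import Pool.Agent.H63.VC.Asym
import Pool.Agent.H63.VC.Cross
import Pool.Agent.H63.VC.EndB
import Pool.Agent.H63.VC.Riem
import Pool.Agent.H63.VC.SlowL
import Pool.Agent.H63.VC.SlowU
import Pool.Agent.H63.VC3.CritB
import Pool.Agent.H63.VC3.Upper
import Pool.Agent.H63.VC4.GaussN
import Pool.Agent.H63.VC4.KBN
import Pool.Agent.H63.VC4.LaplaceN
import Pool.Agent.H63.VC4.UpperN
import Pool.Agent.H63.VC6.LocU
import Pool.Agent.H63.VC6.SlotU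
import Pool.Agent.H63.VC7.Link
import Pool.Agent.S3.Asm.Def
import Pool.Agent.S3.CV.FinS
import Pool.Agent.S3.Chain
import Pool.Agent.S3.E.Geo
import Pool.Agent.S3.E.Sl
import Pool.Agent.S3.E.Two

/-!
# Stage 3b, complex volume: the function of a triangle beyond the strip

At an edge between two twist regions of the same sign the real part of the angle `b` may be negative;
its imaginary part is then not zero, and `hh b = log (2 sin (π b))` is still analytic.
-/

namespace Pool.Agent.S5.CV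

open Pool.Agent.H63.VC3 Pool.Agent.H63.VC5 Complex Filter Topology
open Pool.Agent.S3 (fdom he he_eq_log)
open Pool.Agent.S3.CV
open scoped ComplexConjugate

/-- The domain of the angle `b`. -/
structure Bx (b : ℂ) : Prop where
  b0 : -(1 / 2) < b.re
  b1 : b.re < 1
  bf : b.im ≠ 0 ∨ 0 < b.re

theorem Bx.fd {b : ℂ} (h : Bx b) : fdom b := by
  rcases h.bf with h1 | h1
  · exact Or.inl h1
  · exact Or.inr ⟨h1, h.b1⟩

theorem Bx.he_eq {b : ℂ} (h : Bx b) : he b = hh b :=
  he_eq_log h.fd (by linarith [h.b0]) h.b1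

theorem Bx.conj {b : ℂ} (h : Bx b) : Bx (conj b) := by
  refine ⟨?_, ?_, ?_⟩
  · rw [conj_re]; exact h.b0
  · rw [conj_re]; exact h.b1
  · rw [conj_re, conj_im, neg_ne_zero]; exact h.bf

theorem Bx.slit {b : ℂ} (h : Bx b) : (2 * sin (Real.pi * b) : ℂ) ∈ slitPlane := by
  have hpi := Real.pi_pos
  rcases lt_or_ge 0 b.re with h0 | h0
  · exact Clausen_slit b h0 h.b1
  · have h1 : b.im ≠ 0 := by
      rcases h.bf with h1 | h1
      · exact h1
      · exact absurd h1 (not_lt.2 h0)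
    refine mem_slitPlane_iff.2 (Or.inr ?_)
    rw [S3.sin_pi_im]
    have c : 0 < Real.cos (Real.pi * b.re) := by
      refine Real.cos_pos_of_mem_Ioo ⟨?_, ?_⟩
      · have := mul_lt_mul_of_pos_left h.b0 hpi
        linarith
      · have := mul_nonpos_of_nonneg_of_nonpos hpi.le h0
        linarith
    have s : Real.sinh (Real.pi * b.im) ≠ 0 := by
      rw [Ne, Real.sinh_eq_zero]
      exact mul_ne_zero hpi.ne' h1
    exact mul_ne_zero two_ne_zero (mul_ne_zero c.ne' s)

theorem Bx.exp {b : ℂ} (h : Bx b) : exp (hh b) = 2 * sin (Real.pi * b) :=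
  Complex.exp_log (Complex.slitPlane_ne_zero h.slit)

theorem Bx.der {b : ℂ} (h : Bx b) :
    HasDerivAt hh (Real.pi * Complex.cot (Real.pi * b)) b := by
  have hs := h.slit
  have hd : HasDerivAt (fun z : ℂ => 2 * Complex.sin (Real.pi * z))
      (2 * (Complex.cos (Real.pi * b) * Real.pi)) b := by
    have h1 : HasDerivAt (fun z : ℂ => (Real.pi : ℂ) * z) Real.pi b := by
      simpa using (hasDerivAt_id b).const_mul (Real.pi : ℂ)
    exact (h1.csin).const_mul 2
  have h2 := hd.clog hs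
  refine h2.congr_deriv ?_
  rw [Complex.cot_eq_cos_div_sin]
  have hne : sin (Real.pi * b) ≠ 0 := fun h0 => by
    have := Complex.slitPlane_ne_zero hs
    rw [h0, mul_zero] at this
    exact this rfl
  field_simp

theorem Bx.im {b : ℂ} (h : Bx b) : |(hh b).im| < Real.pi := by
  have h1 := mem_slitPlane_iff_arg.1 h.slit
  have h2 : (hh b).im = (2 * sin (Real.pi * b)).arg := Complex.log_im _
  rw [h2]
  exact abs_lt.2 ⟨Complex.neg_pi_lt_arg _, lt_of_le_of_ne (Complex.arg_le_pi _) h1.1⟩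

theorem Bx.nhds {b : ℂ} (h : Bx b) : ∀ᶠ x in 𝓝 b, Bx x := by
  have e1 : ∀ᶠ p : ℂ in 𝓝 b, -(1 / 2) < p.re :=
    (isOpen_lt (by fun_prop) (by fun_prop)).mem_nhds h.b0
  have e2 : ∀ᶠ p : ℂ in 𝓝 b, p.re < 1 :=
    (isOpen_lt (by fun_prop) (by fun_prop)).mem_nhds h.b1
  have e3 : ∀ᶠ p : ℂ in 𝓝 b, p.im ≠ 0 ∨ 0 < p.re := by
    rcases h.bf with h1 | h1
    · have : ∀ᶠ p : ℂ in 𝓝 b, p.im ≠ 0 :=
        Complex.continuous_im.continuousAt.eventually_ne h1
      exact this.mono fun p hp => Or.inl hp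
    · have : ∀ᶠ p : ℂ in 𝓝 b, 0 < p.re :=
        (isOpen_lt (by fun_prop) (by fun_prop)).mem_nhds h1
      exact this.mono fun p hp => Or.inr hp
  filter_upwards [e1, e2, e3] with p q1 q2 q3
  exact ⟨q1, q2, q3⟩

/-- The extended domain of `Lam`. -/
structure Dx (w b : ℂ) : Prop where
  w0 : 0 < w.re
  wh : w.re < 1 / 2
  bx : Bx b
  s0 : 0 < (w + b).re
  s1 : (w + b).re < 1

theorem Dx.of_Ds {w b : ℂ} (h : Ds w b) (hw : w.re < 1 / 2) : Dx w b :=
  ⟨h.w0, hw, ⟨by linarith [h.b0], h.b1, Or.inr h.b0⟩, h.s0, h.s1'⟩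

theorem Dx.ds {w b : ℂ} (h : Dx w b) (h0 : 0 < b.re) : Ds w b :=
  ⟨h.w0, h0, by have := h.s1; rwa [add_re] at this⟩

theorem Dx.w1 {w b : ℂ} (h : Dx w b) : w.re < 1 := by linarith [h.wh]

theorem Dx.conj {w b : ℂ} (h : Dx w b) : Dx (conj w) (conj b) := by
  refine ⟨?_, ?_, h.bx.conj, ?_, ?_⟩
  · rw [conj_re]; exact h.w0
  · rw [conj_re]; exact h.wh
  · rw [← map_add, conj_re]; exact h.s0
  · rw [← map_add, conj_re]; exact h.s1

theorem LX_exp_w {w b : ℂ} (h : Dx w b) : exp (hh w) = 2 * sin (Real.pi * w) :=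
  hh_exp w h.w0 h.w1

theorem LX_exp_s {w b : ℂ} (h : Dx w b) : exp (hh (w + b)) = 2 * sin (Real.pi * (w + b)) :=
  hh_exp (w + b) h.s0 h.s1

theorem LX_rel1 {w b : ℂ} (h : Dx w b) :
    exp (hh (w + b) - hh w + Real.pi * I * b) +
      exp (-(-(hh b - hh w) - Real.pi * I * (w + b) + Real.pi * I)) = 1 := by
  have hw := LX_exp_w h
  have hb := h.bx.exp
  have hs := LX_exp_s h
  have hw0 : (2 * sin (Real.pi * w) : ℂ) ≠ 0 := by
    rw [← hw]; exact Complex.exp_ne_zero _
  have e1 : exp (hh (w + b) - hh w + Real.pi * I * b) =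
      2 * sin (Real.pi * (w + b)) / (2 * sin (Real.pi * w)) * exp ((Real.pi * b) * I) := by
    rw [Complex.exp_add, Complex.exp_sub, hs, hw]
    congr 2
    ring
  have e2 : exp (-(-(hh b - hh w) - Real.pi * I * (w + b) + Real.pi * I)) =
      -(2 * sin (Real.pi * b) / (2 * sin (Real.pi * w)) *
        exp ((Real.pi * w + Real.pi * b) * I)) := by
    have : -(-(hh b - hh w) - Real.pi * I * (w + b) + Real.pi * I) =
        (hh b - hh w) + (Real.pi * w + Real.pi * b) * I - Real.pi * I := by ring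
    rw [this, Complex.exp_sub, Complex.exp_add, Complex.exp_sub, hb, hw, Complex.exp_pi_mul_I]
    ring
  rw [e1, e2]
  have ht := LamA_trig (Real.pi * w) (Real.pi * b)
  have e3 : (Real.pi : ℂ) * (w + b) = Real.pi * w + Real.pi * b := by ring
  rw [e3]
  exact LamA_alg _ _ _ _ _ hw0 ht

theorem LX_rel2 {w b : ℂ} (h : Dx w b) :
    exp (hh (w + b) - hh b + Real.pi * I * w) +
      exp (-(hh b - hh w - Real.pi * I * (w + b) + Real.pi * I)) = 1 := by
  have hw := LX_exp_w h
  have hb := h.bx.exp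
  have hs := LX_exp_s h
  have hb0 : (2 * sin (Real.pi * b) : ℂ) ≠ 0 := by
    rw [← hb]; exact Complex.exp_ne_zero _
  have e1 : exp (hh (w + b) - hh b + Real.pi * I * w) =
      2 * sin (Real.pi * (w + b)) / (2 * sin (Real.pi * b)) * exp ((Real.pi * w) * I) := by
    rw [Complex.exp_add, Complex.exp_sub, hs, hb]
    congr 2
    ring
  have e2 : exp (-(hh b - hh w - Real.pi * I * (w + b) + Real.pi * I)) =
      -(2 * sin (Real.pi * w) / (2 * sin (Real.pi * b)) *
        exp ((Real.pi * b + Real.pi * w) * I)) := by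
    have : -(hh b - hh w - Real.pi * I * (w + b) + Real.pi * I) =
        (hh w - hh b) + (Real.pi * b + Real.pi * w) * I - Real.pi * I := by ring
    rw [this, Complex.exp_sub, Complex.exp_add, Complex.exp_sub, hb, hw, Complex.exp_pi_mul_I]
    ring
  rw [e1, e2]
  have ht := LamA_trig (Real.pi * b) (Real.pi * w)
  have e3 : (Real.pi : ℂ) * (w + b) = Real.pi * b + Real.pi * w := by ring
  rw [e3]
  exact LamA_alg _ _ _ _ _ hb0 ht

theorem LX_bd1 {w b : ℂ} (h : Dx w b) :
    |(hh (w + b) - hh w + Real.pi * I * b).im| < 2 * Real.pi := by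
  have hp := Real.pi_pos
  have h1 := abs_lt.1 (hh_im_lt h.s0 h.s1)
  have h2 := abs_lt.1 (hh_im_lt h.w0 h.w1)
  have h3 := h.bx.b0
  have h4 := h.bx.b1
  rw [Complex.add_im, Complex.sub_im, LamA_im_pi]
  have h5 : Real.pi * b.re < Real.pi * 1 := mul_lt_mul_of_pos_left h4 hp
  have h6 : Real.pi * (-(1 / 2)) < Real.pi * b.re := mul_lt_mul_of_pos_left h3 hp
  rw [abs_lt]
  constructor <;> linarith [h1.1, h1.2, h2.1, h2.2]

theorem LX_bd2 {w b : ℂ} (h : Dx w b) :
    |(hh (w + b) - hh b + Real.pi * I * w).im| < 2 * Real.pi := by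
  have hp := Real.pi_pos
  have h1 := abs_lt.1 (hh_im_lt h.s0 h.s1)
  have h2 := abs_lt.1 h.bx.im
  have h3 := h.w0
  have h4 := h.wh
  rw [Complex.add_im, Complex.sub_im, LamA_im_pi]
  have h5 : Real.pi * w.re < Real.pi * (1 / 2) := mul_lt_mul_of_pos_left h4 hp
  have h6 : 0 < Real.pi * w.re := mul_pos hp h3
  rw [abs_lt]
  constructor <;> linarith [h1.1, h1.2, h2.1, h2.2]

theorem LX_nhds {w b : ℂ} (h : Dx w b) : ∀ᶠ x in 𝓝 b, Dx w x := by
  have e1 : ∀ᶠ p : ℂ in 𝓝 b, 0 < (w + p).re :=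
    (isOpen_lt (by fun_prop) (by fun_prop)).mem_nhds h.s0
  have e2 : ∀ᶠ p : ℂ in 𝓝 b, (w + p).re < 1 :=
    (isOpen_lt (by fun_prop) (by fun_prop)).mem_nhds h.s1
  filter_upwards [e1, e2, h.bx.nhds] with p q1 q2 q3
  exact ⟨h.w0, h.wh, q3, q1, q2⟩

theorem LX_ds {w b : ℂ} (h : Dx w b) :
    HasDerivAt (fun b => hh (w + b)) (Real.pi * Complex.cot (Real.pi * (w + b))) b := by
  have := (hh_hasDerivAt (w + b) h.s0 h.s1).comp b ((hasDerivAt_id b).const_add w)
  refine this.congr_deriv ?_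
  ring

theorem LX_b {w b : ℂ} (h : Dx w b) : HasDerivAt (fun b => Lam w b) (LamB_Cb w b) b := by
  have dw := h.bx.der
  have ds := LX_ds h
  have key : HasDerivAt (fun b => Lam w b)
    ((hh b - hh w) * (Real.pi * Complex.cot (Real.pi * (w + b))) +
      (hh w - hh (w + b)) * (Real.pi * Complex.cot (Real.pi * b)) -
      (Real.pi : ℂ) ^ 2 * w) b := by
    set c := (Real.pi : ℂ) * Complex.cot (Real.pi * b) with hc
    set c1 := (Real.pi : ℂ) * Complex.cot (Real.pi * (w + b)) with hc1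
    have did : HasDerivAt (fun b : ℂ => b) 1 b := hasDerivAt_id b
    have df : HasDerivAt (fun b => hh (w + b) - hh w + Real.pi * I * b) (c1 + Real.pi * I) b := by
      have := (ds.sub_const (hh w)).add (did.const_mul ((Real.pi : ℂ) * I))
      refine this.congr_deriv ?_
      ring
    have dg : HasDerivAt (fun b => -(hh b - hh w) - Real.pi * I * (w + b) + Real.pi * I)
        (-c - Real.pi * I) b := by
      have := (((dw.sub_const (hh w)).neg).sub
        ((did.const_add w).const_mul ((Real.pi : ℂ) * I))).add_const ((Real.pi : ℂ) * I)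
      refine this.congr_deriv ?_
      ring
    have df2 : HasDerivAt (fun b => hh (w + b) - hh b + Real.pi * I * w) (c1 - c) b :=
      (ds.sub dw).add_const _
    have dg2 : HasDerivAt (fun b => hh b - hh w - Real.pi * I * (w + b) + Real.pi * I)
        (c - Real.pi * I) b := by
      have := ((dw.sub_const (hh w)).sub
        ((did.const_add w).const_mul ((Real.pi : ℂ) * I))).add_const ((Real.pi : ℂ) * I)
      refine this.congr_deriv ?_
      ring
    have hn := LX_nhds h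
    have r1 := RG_hasDerivAt _ _ _ _ b df dg (hn.mono fun w' h' => LX_rel1 h') (LX_bd1 h)
    have r2 := RG_hasDerivAt _ _ _ _ b df2 dg2 (hn.mono fun w' h' => LX_rel2 h') (LX_bd2 h)
    have r3 : HasDerivAt (fun b : ℂ => (Real.pi : ℂ) ^ 2 / 2 * (w - b))
        (-((Real.pi : ℂ) ^ 2 / 2)) b := by
      have := (did.const_sub w).const_mul ((Real.pi : ℂ) ^ 2 / 2)
      refine this.congr_deriv ?_
      ring
    have r4 : HasDerivAt (fun b : ℂ => (Real.pi : ℂ) * I / 2 * (hh b - hh w))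
        ((Real.pi : ℂ) * I / 2 * c) b :=
      (dw.sub_const (hh w)).const_mul ((Real.pi : ℂ) * I / 2)
    have r := ((((r1.neg).add r2).add r3).add r4).add_const ((Real.pi : ℂ) ^ 2 / 6)
    refine r.congr_deriv ?_
    linear_combination ((Real.pi : ℂ) ^ 2 * w - (Real.pi : ℂ) ^ 2 / 2) * Complex.I_sq
  exact key

end Pool.Agent.S5.CV
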