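import Pool.Agent.S5.CV.LamX

/-!
# Stage 3b, complex volume: the layers next to an edge with equal signs
-/

namespace Pool.Agent.S5.CV

open Pool.Agent.H63.VC3 Pool.Agent.H63.VC5 Complex Filter Topology
open Pool.Agent.S3 (const_of_ray)
open Pool.Agent.S3.CV
open scoped ComplexConjugate

theorem LX_rel {w b : ℂ} (h : Dx w b) (h' : Ds w (w + b)) :
    exp (2 * (hh w - hh (w + b))) + exp (-(2 * hh (w + b) - hh b - hh (2 * w + b))) = 1 := by
  have e0 : w + (w + b) = 2 * w + b := by ring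
  have o0 := h'.s0
  have o1 := h'.s1'
  rw [e0] at o0 o1
  have x0 := h.bx.exp
  have x1 := hh_exp (w + b) h.s0 h.s1
  have x2 := hh_exp (2 * w + b) o0 o1
  have x := hh_exp w h.w0 h.w1
  have n1 := LS_sin_ne h.s0 h.s1
  have a1 : exp (2 * (hh w - hh (w + b))) = exp (hh w) ^ 2 / exp (hh (w + b)) ^ 2 := by
    rw [← exp_nat_mul, ← exp_nat_mul, ← exp_sub]
    congr 1
    push_cast
    ring
  have a2 : exp (-(2 * hh (w + b) - hh b - hh (2 * w + b))) =
      exp (hh b) * exp (hh (2 * w + b)) / exp (hh (w + b)) ^ 2 := by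
    rw [← exp_nat_mul, ← exp_add, ← exp_sub]
    congr 1
    push_cast
    ring
  rw [a1, a2, x, x0, x1, x2]
  have t := LamB_trig (Real.pi * w) (Real.pi * b)
  have e1 : (Real.pi : ℂ) * (w + b) = Real.pi * w + Real.pi * b := by ring
  have e2 : (Real.pi : ℂ) * (2 * w + b) = 2 * (Real.pi * w) + Real.pi * b := by ring
  rw [e1] at n1 ⊢
  rw [e2]
  have hne : (2 * sin (Real.pi * w + Real.pi * b)) ^ 2 ≠ 0 :=
    pow_ne_zero _ (mul_ne_zero two_ne_zero n1)
  rw [← add_div, div_eq_one_iff_eq hne]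
  linear_combination 4 * t

theorem LX_im {w b : ℂ} (h : Dx w b) : |(2 * (hh w - hh (w + b))).im| < 2 * Real.pi := by
  have i1 := abs_lt.1 (hh_im_lt h.w0 h.w1)
  have i2 := abs_lt.1 (hh_im_lt h.s0 h.s1)
  have e : (2 * (hh w - hh (w + b))).im = 2 * ((hh w).im - (hh (w + b)).im) := by
    simp
  rw [e, abs_lt]
  constructor <;> linarith [i1.1, i1.2, i2.1, i2.2]

theorem LX_nhds2 {w b : ℂ} (h : Dx w b) (h' : Ds w (w + b)) :
    ∀ᶠ x in 𝓝 b, Dx w x ∧ Ds w (w + x) := by
  have hc : ContinuousAt (fun x : ℂ => (w, w + x)) b := by fun_prop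
  have h2 := hc.eventually (LS_open h')
  filter_upwards [LX_nhds h, h2] with p q1 q2
  exact ⟨q1, q2⟩

theorem LX_Rr_b {w b : ℂ} (h : Dx w b) (h' : Ds w (w + b)) :
    HasDerivAt (fun b => Rr w b)
      ((hh b + hh (2 * w + b) - 2 * hh w) * (Real.pi * Complex.cot (Real.pi * (w + b))) +
      (hh w - hh (w + b)) * (Real.pi * Complex.cot (Real.pi * b)) +
      (hh w - hh (w + b)) * (Real.pi * Complex.cot (Real.pi * (2 * w + b)))) b := by
  have e0 : w + (w + b) = 2 * w + b := by ring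
  have o0 := h'.s0
  have o1 := h'.s1'
  rw [e0] at o0 o1
  have d0 := h.bx.der
  have d1 := LX_ds h
  have d2 : HasDerivAt (fun b => hh (2 * w + b))
      (Real.pi * Complex.cot (Real.pi * (2 * w + b))) b := by
    have := (hh_hasDerivAt _ o0 o1).comp b ((hasDerivAt_id b).const_add (2 * w))
    refine this.congr_deriv ?_
    ring
  have hf : HasDerivAt (fun b => 2 * (hh w - hh (w + b)))
      (2 * (-(Real.pi * Complex.cot (Real.pi * (w + b))))) b :=
    (d1.const_sub (hh w)).const_mul 2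
  have hg : HasDerivAt (fun b => 2 * hh (w + b) - hh b - hh (2 * w + b))
      (2 * (Real.pi * Complex.cot (Real.pi * (w + b))) - Real.pi * Complex.cot (Real.pi * b) -
        Real.pi * Complex.cot (Real.pi * (2 * w + b))) b :=
    ((d1.const_mul 2).sub d0).sub d2
  have hev : ∀ᶠ x in 𝓝 b, exp (2 * (hh w - hh (w + x))) +
      exp (-(2 * hh (w + x) - hh x - hh (2 * w + x))) = 1 := by
    filter_upwards [LX_nhds2 h h'] with x hx
    exact LX_rel hx.1 hx.2
  have hR := RG_hasDerivAt _ _ _ _ b hf hg hev (LX_im h)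
  have hfun : (fun b => Rr w b) = fun b => GG (2 * (hh w - hh (w + b))) +
      (2 * (hh w - hh (w + b))) * (2 * hh (w + b) - hh b - hh (2 * w + b)) / 2 :=
    funext fun b => LamB_Rr_eq w b
  rw [hfun]
  refine hR.congr_deriv ?_
  ring

/-- The segment which shifts `b` into the strip. -/
theorem LX_seg {w b : ℂ} (h : Dx w b) (hb : b.re ≤ 0) :
    ∃ c : ℝ, 0 < c ∧ 0 < (b + c).re ∧ ∀ s : ℝ, 0 ≤ s → s ≤ 1 →
      Dx w (b + (s : ℂ) * c) ∧ Ds w (w + (b + (s : ℂ) * c)) := by
  have hw := h.w0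
  have hwh := h.wh
  have hs0 := h.s0
  have hb0 := h.bx.b0
  rw [add_re] at hs0
  have him : b.im ≠ 0 := by
    rcases h.bx.bf with h1 | h1
    · exact h1
    · exact absurd h1 (not_lt.2 hb)
  refine ⟨-b.re + (1 - 2 * w.re) / 2, by linarith, ?_, ?_⟩
  · rw [add_re, ofReal_re]
    linarith
  · intro s s0 s1
    have hre : (b + (s : ℂ) * ((-b.re + (1 - 2 * w.re) / 2 : ℝ) : ℂ)).re =
        b.re + s * (-b.re + (1 - 2 * w.re) / 2) := by
      rw [add_re, ← ofReal_mul, ofReal_re]
    have him' : (b + (s : ℂ) * ((-b.re + (1 - 2 * w.re) / 2 : ℝ) : ℂ)).im = b.im := by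
      rw [add_im, ← ofReal_mul, ofReal_im, add_zero]
    have c0 : 0 ≤ s * (-b.re + (1 - 2 * w.re) / 2) := mul_nonneg s0 (by linarith)
    have c1 : s * (-b.re + (1 - 2 * w.re) / 2) ≤ 1 * (-b.re + (1 - 2 * w.re) / 2) :=
      mul_le_mul_of_nonneg_right s1 (by linarith)
    refine ⟨⟨hw, hwh, ⟨?_, ?_, Or.inl ?_⟩, ?_, ?_⟩, hw, ?_, ?_⟩
    · rw [hre]; linarith
    · rw [hre]; linarith
    · rw [him']; exact him
    · rw [add_re, hre]; linarith
    · rw [add_re, hre]; linarith
    · rw [add_re, hre]; linarith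
    · rw [add_re, hre]; linarith

theorem LX_hasDerivAt_seg (b : ℂ) (c s : ℝ) :
    HasDerivAt (fun s : ℝ => b + (s : ℂ) * c) (c : ℂ) s := by
  have h1 := (Complex.ofRealCLM.hasDerivAt (x := s)).mul_const (c : ℂ)
  have h2 := h1.const_add b
  refine h2.congr_deriv ?_
  simp

theorem LX_step {w b : ℂ} (h : Dx w b) (h' : Ds w (w + b)) :
    Rr w b = Lam w b - Lam w (w + b) := by
  rcases lt_or_ge 0 b.re with h0 | h0
  · exact LS_step w b (h.ds h0) h'
  obtain ⟨c, hc, hc1, hseg⟩ := LX_seg h h0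
  have key := const_of_ray (g := fun s : ℝ => Rr w (b + (s : ℂ) * c) - Lam w (b + (s : ℂ) * c) +
    Lam w (w + (b + (s : ℂ) * c))) (by
      intro s hs
      obtain ⟨k1, k2⟩ := hseg s hs.1 hs.2
      have d := LX_hasDerivAt_seg b c s
      have h1 := HasDerivAt.scomp (g₁ := fun b => Rr w b) (h := fun s : ℝ => b + (s : ℂ) * c) s
        (LX_Rr_b k1 k2) d
      have h2 := HasDerivAt.scomp (g₁ := fun b => Lam w b) (h := fun s : ℝ => b + (s : ℂ) * c) s
        (LX_b k1) d
      have h3 := HasDerivAt.scomp (g₁ := fun b => Lam w b)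
        (h := fun s : ℝ => w + (b + (s : ℂ) * c)) s (LS_b w _ k2) (d.const_add w)
      refine ((h1.sub h2).add h3).congr_deriv ?_
      unfold LamB_Cb
      simp only [smul_eq_mul]
      rw [show w + (w + (b + (s : ℂ) * c)) = 2 * w + (b + (s : ℂ) * c) by ring]
      ring)
  simp only [ofReal_one, one_mul, ofReal_zero, zero_mul, add_zero] at key
  obtain ⟨k1, k2⟩ := hseg 1 zero_le_one le_rfl
  rw [ofReal_one, one_mul] at k1 k2
  have h5 := LS_step w (b + c) (k1.ds hc1) k2
  linear_combination h5 - key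

theorem LX_Cb {w b : ℂ} (h : Dx w b) : conj (LamB_Cb (conj w) (conj b)) = LamB_Cb w b := by
  have e1 : conj (hh (conj w)) = hh w := EdgeS_hh h.w0 h.w1
  have e2 : conj (hh (conj (w + b))) = hh (w + b) := EdgeS_hh h.s0 h.s1
  have e3 : conj (hh (conj b)) = hh b := by
    rw [← h.bx.he_eq, ← h.bx.conj.he_eq, S3.G.he_conj' h.bx.fd, conj_conj]
  unfold LamB_Cb
  rw [← map_add]
  simp only [map_add, map_sub, map_mul, map_pow, conj_ofReal, e1, e3, EdgeS_cot, conj_conj]
  rw [← map_add, e2, EdgeS_cot]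

theorem LX_conj {w b : ℂ} (h : Dx w b) :
    Lam (conj w) (conj b) = conj (Lam w b) := by
  rcases lt_or_ge 0 b.re with h0 | h0
  · exact Lam_conj (h.ds h0)
  obtain ⟨c, hc, hc1, hseg⟩ := LX_seg h h0
  have key := const_of_ray (g := fun s : ℝ => conj (Lam (conj w) (conj (b + (s : ℂ) * c))) -
    Lam w (b + (s : ℂ) * c)) (by
      intro s hs
      obtain ⟨k1, -⟩ := hseg s hs.1 hs.2
      have d := LX_hasDerivAt_seg b c s
      have h1 := HasDerivAt.scomp
        (g₁ := fun b => conj (Lam (conj w) (conj b))) (h := fun s : ℝ => b + (s : ℂ) * c) s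
        (by
          have h1 := (LX_b k1.conj).conj_conj
          rw [conj_conj] at h1
          exact h1) d
      have h2 := HasDerivAt.scomp (g₁ := fun b => Lam w b) (h := fun s : ℝ => b + (s : ℂ) * c) s
        (LX_b k1) d
      refine (h1.sub h2).congr_deriv ?_
      rw [LX_Cb k1]
      ring)
  simp only [ofReal_one, one_mul, ofReal_zero, zero_mul, add_zero] at key
  obtain ⟨k1, -⟩ := hseg 1 zero_le_one le_rfl
  rw [ofReal_one, one_mul] at k1
  have h5 := Lam_conj (k1.ds hc1)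
  rw [h5, conj_conj, sub_self] at key
  have h6 := sub_eq_zero.1 key.symm
  rw [← h6, conj_conj]

/-- The layers of a fan, the first one of an edge with equal signs included. The branches `m0`, `m2`
of the slopes behind and in front are arbitrary integers with an even difference. -/
theorem fanX (l : Bool) {w b : ℂ} (h : Dx w b) (h' : Ds w (w + b)) {z : ℂ}
    (hz : z = if l then exp (2 * (hh w - hh (w + b))) else exp (-(2 * (hh w - hh (w + b)))))
    (him : 0 < z.im) {LP l0 l1 l2 N : ℂ} {m mk m0 m2 r : ℤ} (hm : 2 * r = 2 * mk - m0 - m2)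
    (hP : LP = N + Real.pi * I / 2 * m)
    (h1 : l1 = N + (hh (w + b) - hh w) + Real.pi * I / 2 * mk)
    (h0 : l0 = N + (hh b - hh w) + Real.pi * I / 2 * m0)
    (h2 : l2 = N + (hh (2 * w + b) - hh w) + Real.pi * I / 2 * m2) :
    ∃ P Q : ℤ, Complex.log z + P * (Real.pi * I) =
        2 * (if l then LP else l1) - 2 * (if l then l1 else LP) ∧
      -Complex.log (1 - z) + Q * (Real.pi * I) = 2 * (if l then l1 else LP) - l0 - l2 ∧
      Cg (2 * rogers z P Q) ((if l then (1 : ℂ) else -1) * (2 * (Lam w b - Lam w (w + b)) -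
        (Real.pi : ℂ) ^ 2 / 3 + Real.pi * I * ((r : ℂ) * (2 * (hh w - hh (w + b))) -
          ((m : ℂ) - mk) * (2 * hh (w + b) - hh b - hh (2 * w + b))))) := by
  have hm' : (2 : ℂ) * r = 2 * mk - m0 - m2 := by exact_mod_cast hm
  have hexp : exp (-(2 * hh (w + b) - hh b - hh (2 * w + b))) =
      1 - exp (2 * (hh w - hh (w + b))) := by
    have := LX_rel h h'
    linear_combination this
  have hW := LX_im h
  have hR : GG (2 * (hh w - hh (w + b))) + 2 * (hh w - hh (w + b)) *
      (2 * hh (w + b) - hh b - hh (2 * w + b)) / 2 = Lam w b - Lam w (w + b) := by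
    rw [← LX_step h h', Rr]
    ring
  set W0 : ℂ := 2 * (hh w - hh (w + b)) with hW0
  set W1 : ℂ := 2 * hh (w + b) - hh b - hh (2 * w + b) with hW1
  cases l with
  | true =>
    simp only [if_true] at hz ⊢
    have hzi : (exp W0).im ≠ 0 := by rw [← hz]; exact him.ne'
    obtain ⟨M, hM⟩ := RogGG_even0 _ W0 hzi rfl
    obtain ⟨n, hn⟩ := RogGG_even1 _ W1 hzi hexp
    have e1 : Complex.log (exp W0) + ((2 * M + (m - mk) : ℤ) : ℂ) * (Real.pi * I) =
        W0 + ((m - mk : ℤ) : ℂ) * (Real.pi * I) := by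
      push_cast
      linear_combination -hM
    have e2 : -Complex.log (1 - exp W0) + ((2 * n + r : ℤ) : ℂ) * (Real.pi * I) =
        W1 + ((r : ℤ) : ℂ) * (Real.pi * I) := by
      push_cast
      linear_combination -hn
    have key := rogers_GG (exp W0) W0 W1 hzi rfl hexp hW _ _ (m - mk) r e1 e2
    refine ⟨2 * M + (m - mk), 2 * n + r, ?_, ?_, ?_⟩
    · rw [hz, e1, hP, h1, hW0]
      push_cast
      ring
    · rw [hz, e2, h1, h0, h2, hW1]
      linear_combination (Real.pi * I / 2) * hm'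
    · rw [hz]
      refine key.trans (Cg.of_eq ?_)
      rw [hR]
      push_cast
      ring
  | false =>
    simp only [Bool.false_eq_true, if_false] at hz ⊢
    have hz' : z = (exp W0)⁻¹ := by rw [hz, Complex.exp_neg]
    have hzi : (exp W0).im ≠ 0 := by
      intro h00
      rw [hz', Complex.inv_im, h00] at him
      simp at him
    obtain ⟨M, hM⟩ := RogGG_even0 _ W0 hzi rfl
    obtain ⟨n, hn⟩ := RogGG_even1 _ W1 hzi hexp
    have e1 : Complex.log (exp W0) + ((2 * M + (m - mk) : ℤ) : ℂ) * (Real.pi * I) =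
        W0 + ((m - mk : ℤ) : ℂ) * (Real.pi * I) := by
      push_cast
      linear_combination -hM
    have e2 : -Complex.log (1 - exp W0) + ((2 * n + r : ℤ) : ℂ) * (Real.pi * I) =
        W1 + ((r : ℤ) : ℂ) * (Real.pi * I) := by
      push_cast
      linear_combination -hn
    obtain ⟨P, Q, ⟨f1, f2⟩, -⟩ := OrdTerm_inv hzi ⟨e1, e2⟩
    have key := rogers_inv_GG (exp W0) W0 W1 hzi rfl hexp hW P Q (m - mk) r f1 f2
    refine ⟨P, Q, ?_, ?_, ?_⟩
    · rw [hz', f1, hP, h1, hW0]
      push_cast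
      ring
    · rw [hz', f2, hP, h0, h2, hW0, hW1]
      push_cast
      linear_combination (Real.pi * I / 2) * hm'
    · rw [hz']
      refine key.trans (Cg.of_eq ?_)
      rw [hR]
      push_cast
      ring

end Pool.Agent.S5.CV
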