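import Pool.Agent.S5.CV.EdgN
import Pool.Agent.S5.GeoD

/-!
# Stage 3b, complex volume: the bounds of the critical point
-/

namespace Pool.Agent.S5.CV

open Complex
open Pool.Agent.S5.G (CrtM)
open scoped ComplexConjugate

variable {m : ℕ} {a : ℕ → ℕ} {S fl : ℕ → Bool} {z ql qr : ℕ → ℂ}

theorem bx_three (hb : BxG m a S fl z ql qr) {i : ℕ} (hi : i ≤ m) (h3 : a i = 3) :
    2 * (ql i).im - (qr i).im ≤ 5 * Real.pi / 4 ∧
      2 * (qr i).im - (ql i).im ≤ 5 * Real.pi / 4 := by
  have hpi := Real.pi_pos
  have h := hb.three i hi h3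
  have hr := h.r1.le
  have hr2 := h.r2
  have hc := h.c1
  have hp : -(16 * (qB' fl ql qr i).im) ≤ (qO' fl ql qr i).im := by
    rcases h.p0 with h0 | ⟨-, h0 | h0⟩
    · rw [h0, zero_im]
      linarith
    · linarith
    · exact h0.1
  unfold qB' at hp hc
  unfold qO' at hr hr2 hp hc
  rcases hf : fl i with _ | _
  · rw [hf] at hp hr hr2 hc
    simp only [Bool.false_eq_true, if_false] at hp hr hr2 hc
    constructor <;> linarith
  · rw [hf] at hp hr hr2 hc
    simp only [if_true] at hp hr hr2 hc
    constructor <;> linarith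

/-- The bounds at the edges follow from those of the potential. -/
theorem EdgN.of_bx (h : CrtM m a S z ql qr) (hb : BxG m a S fl z ql qr)
    (hn : ∀ i, i ≤ m → Complex.normSq (cos (z i)) ≤ 2) : EdgN m S z ql qr where
  nrm := fun i hi _ => ⟨hn i hi.le, hn (i + 1) hi⟩
  l := fun i hi _ => by
    have hpi := Real.pi_pos
    have ha := h.ha (i + 1) hi
    have e := h.eq_re (i + 1) hi
    have hq := h.lim i hi
    have hz := h.zre (i + 1) hi
    rcases (show a (i + 1) = 2 ∨ a (i + 1) = 3 ∨ (a (i + 1) = 4 ∧ i + 1 < m) ∨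
      (5 ≤ a (i + 1) ∨ (a (i + 1) = 4 ∧ i + 1 = m)) by omega) with h2 | h3 | h4 | h5
    · right
      have hr : 0 ≤ (qr (i + 1)).im := by
        rcases Nat.lt_or_ge (i + 1) m with h0 | h0
        · exact (hb.tr (i + 1) h0 h2).le
        · rw [show i + 1 = m by omega, h.rR, zero_im]
      rw [h2] at e
      push_cast at e
      linarith
    · right
      have hr := (bx_three hb hi h3).1
      rw [h3] at e
      push_cast at e
      linarith
    · right
      have hr := (hb.four (i + 1) (by omega) h4.2 h4.1).s0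
      rw [h4.1] at e
      push_cast at e
      linarith
    · left
      exact (abs_lt.1 (hb.vl i hi h5).1).2.le
  r := fun i hi _ => by
    have hpi := Real.pi_pos
    have ha := h.ha i hi.le
    have e := h.eq_re i hi.le
    have hq := h.rim i hi
    have hz := h.zre i hi.le
    rcases (show a i = 2 ∨ a i = 3 ∨ (a i = 4 ∧ 0 < i) ∨
      (5 ≤ a i ∨ (a i = 4 ∧ i = 0)) by omega) with h2 | h3 | h4 | h5
    · right
      have hr : 0 ≤ (ql i).im := by
        rcases Nat.eq_zero_or_pos i with h0 | h0
        · rw [h0, h.l0, zero_im]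
        · obtain ⟨j, rfl⟩ : ∃ j, i = j + 1 := ⟨i - 1, by omega⟩
          exact (hb.tl j (by omega) h2).le
      rw [h2] at e
      push_cast at e
      linarith
    · right
      have hr := (bx_three hb hi.le h3).2
      rw [h3] at e
      push_cast at e
      linarith
    · right
      have hr := (hb.four i h4.2 hi h4.1).s0
      rw [h4.1] at e
      push_cast at e
      linarith
    · left
      exact (abs_lt.1 (hb.vr i hi h5).1).2.le

end Pool.Agent.S5.CV
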