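import Pool.Agent.S5.CV.DomX

/-!
# Stage 3b, complex volume: the identity of a slot at an edge with equal signs
-/

namespace Pool.Agent.S5.CV

open Pool.Agent.H63.VC3 Pool.Agent.H63.VC5 Complex Filter Topology
open Pool.Agent.H25.RK (gdv gdv_re_lt gdv_hasDerivAt)
open Pool.Agent.S3 Pool.Agent.S3.CV
open scoped ComplexConjugate

section

variable {u w : ℂ} (h : DX u w)
include h

theorem DX.b_im : (bS u w).im < 0 := by
  unfold bS
  rw [Complex.div_ofReal_im, neg_im, I_mul_im]
  have := h.qre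
  rw [neg_div]
  exact neg_neg_of_pos (div_pos this Real.pi_pos)

theorem DX.b_re : -(1 / 2) < (bS u w).re ∧ (bS u w).re < 1 / 2 := by
  have hpi := Real.pi_pos
  have q := abs_lt.1 h.qim
  rw [bS_re]
  constructor
  · rw [lt_div_iff₀ hpi]; linarith only [q.1]
  · rw [div_lt_iff₀ hpi]; linarith only [q.2]

theorem DX.bx : Bx (bS u w) :=
  ⟨h.b_re.1, by linarith only [h.b_re.2], Or.inl h.b_im.ne⟩

/-- `Re cosh q ≥ 1` if `Im q < 0`. -/
theorem DX.cosh_q (hq : (qq u w).im < 0) : 1 < (cosh (qq u w)).re := by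
  have hb := abs_lt.1 h.qim
  have hc : 0 < Real.cos (qq u w).im := cos_pos' h.qim
  have hs : Real.sin (qq u w).im < 0 :=
    Real.sin_neg_of_neg_of_neg_pi_lt hq (by linarith only [hb.1, hq])
  have hsh : 0 < Real.sinh (qq u w).re := Real.sinh_pos_iff.2 h.qre
  have hch := Real.cosh_pos (qq u w).re
  obtain ⟨c1, c2⟩ := h.cw
  have c3 := h.wf
  have e : (sinh u).im = (cosh w).re * (Real.cosh (qq u w).re * Real.sin (qq u w).im) +
      (cosh w).im * (Real.sinh (qq u w).re * Real.cos (qq u w).im) := by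
    rw [h.TT_split.2, mul_im, sinh_re', sinh_im']
  have su := h.su.2
  rw [e] at su
  rw [cosh_re']
  set A := Real.cosh (qq u w).re with hA
  set B := Real.cos (qq u w).im with hB
  set s := Real.sinh (qq u w).re with hs'
  set t := Real.sin (qq u w).im with ht
  have k1 : A ^ 2 = s ^ 2 + 1 := by rw [hA, hs', Real.cosh_sq]
  have k2 : t ^ 2 + B ^ 2 = 1 := by rw [ht, hB]; exact Real.sin_sq_add_cos_sq _
  -- `-A t < s B`
  have k3 : -(A * t) < s * B := by
    by_contra hcon
    push Not at hcon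
    have h1 : 0 < s * B := mul_pos hsh hc
    have h2 : (cosh w).im * (s * B) ≤ (cosh w).re * (s * B) :=
      mul_le_mul_of_nonneg_right c3.le h1.le
    have h3 : (cosh w).re * (s * B) ≤ (cosh w).re * (-(A * t)) :=
      mul_le_mul_of_nonneg_left hcon c1.le
    linarith only [h3, h2, su]
  have k4 : 0 < -(A * t) := by
    have := mul_pos_of_neg_of_neg hs (neg_neg_of_pos hch)
    linarith only [this]
  have k5 : (A * t) ^ 2 < (s * B) ^ 2 := by
    have := mul_self_lt_mul_self k4.le k3
    linarith only [this]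
  have k6 : A ^ 2 + B ^ 2 < 2 * (A * B) ^ 2 := by
    have e1 : (A * t) ^ 2 = A ^ 2 * (1 - B ^ 2) := by rw [← k2]; ring
    have e2 : (s * B) ^ 2 = (A ^ 2 - 1) * B ^ 2 := by rw [k1]; ring
    rw [e1, e2] at k5
    linarith only [k5]
  have k7 : 0 < A * B := mul_pos hch hc
  have k8 : 2 * (A * B) ≤ A ^ 2 + B ^ 2 := by linarith only [sq_nonneg (A - B)]
  (refine lt_of_not_ge fun hng => ?_; linarith only [hng, k6, k2,
    mul_nonneg (sub_nonneg.2 hng) (sub_nonneg.2 k7.le),
    mul_nonneg (sq_nonneg (t)) (sub_nonneg.2 k1.le),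
    mul_nonneg (sq_nonneg (t)) (sub_nonneg.2 k1.ge), mul_nonneg (sq_nonneg (t)) (sq_nonneg (s)),
    mul_nonneg (sq_nonneg (A)) (sub_nonneg.2 k2.le),
    mul_nonneg (sq_nonneg (A)) (sub_nonneg.2 k2.ge)])

/-- `(1 + i T) / cosh w` is in the upper half plane if `Im q < 0`, and its real part is positive. -/
theorem DX.P_pos (hq : (qq u w).im < 0) : 0 < (1 / cosh w + I * cosh (qq u w)).re ∧
    0 < (1 / cosh w + I * cosh (qq u w)).im := by
  have hb := abs_lt.1 h.qim
  have hs : Real.sin (qq u w).im < 0 :=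
    Real.sin_neg_of_neg_of_neg_pi_lt hq (by linarith only [hb.1, hq])
  have hsh : 0 < Real.sinh (qq u w).re := Real.sinh_pos_iff.2 h.qre
  obtain ⟨c1, c2⟩ := h.cw
  have c3 := h.wf
  have hn := h.wn
  have hn0 : 0 < Complex.normSq (cosh w) := by linarith only [hn]
  have hr := h.cosh_q hq
  rw [one_div, add_re, add_im, I_mul_re, I_mul_im, inv_re, inv_im]
  constructor
  · have h1 := div_pos c1 hn0
    rw [cosh_im']
    have := mul_neg_of_pos_of_neg hsh hs
    linarith only [this, h1]
  · have h1 : (cosh w).im / Complex.normSq (cosh w) < 1 := by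
      rw [div_lt_one hn0]
      have e : Complex.normSq (cosh w) = (cosh w).re * (cosh w).re + (cosh w).im * (cosh w).im :=
        Complex.normSq_apply _
      by_contra hcon
      push Not at hcon
      have h2 : Complex.normSq (cosh w) * Complex.normSq (cosh w) ≤
          (cosh w).im * (cosh w).im :=
        mul_le_mul hcon hcon hn0.le c2
      have h3 : 2 * ((cosh w).im * (cosh w).im) < Complex.normSq (cosh w) := by
        rw [e]
        linarith only [hcon, e, c3, mul_nonneg (sub_nonneg.2 c1.le) (sub_nonneg.2 hcon),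
          mul_nonneg (sub_nonneg.2 c1.le) (sub_nonneg.2 hn), mul_pos (sub_pos.2 c1) (sub_pos.2 c3)]
      linarith only [hcon, e, c3, mul_nonneg (sub_nonneg.2 c2) (sub_nonneg.2 hcon),
        mul_nonneg (sub_nonneg.2 c2) (sub_nonneg.2 hn),
        mul_nonneg (sub_nonneg.2 c1.le) (sub_nonneg.2 hcon),
        mul_nonneg (sub_nonneg.2 c1.le) (sub_nonneg.2 hn), mul_pos (sub_pos.2 c1) (sub_pos.2 c3)]
    rw [neg_div]
    linarith only [h1, hr]

theorem DX.tanh_u : 0 < (tanh u).re ∧ 0 < (tanh u).im := by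
  obtain ⟨a1, a2⟩ := h.su
  obtain ⟨b1, b2⟩ := h.cu
  have hn := Complex.normSq_pos.2 h.cune
  rw [tanh_eq_sinh_div_cosh]
  constructor
  · apply re_div_pos
    have := mul_pos a1 b1
    have := mul_pos a2 b2
    linarith [this]
  · apply im_div_pos h.cune
    rw [sinh_re', sinh_im', cosh_re', cosh_im']
    have c := cos_pos' h.l
    have s : 0 < Real.sin u.im :=
      Real.sin_pos_of_pos_of_lt_pi h.ui (by linarith only [Real.pi_pos, h.up])
    have k := Real.cosh_sq u.re
    have e : Real.cosh u.re * Real.sin u.im * (Real.cosh u.re * Real.cos u.im) -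
        Real.sinh u.re * Real.cos u.im * (Real.sinh u.re * Real.sin u.im) =
        Real.sin u.im * Real.cos u.im := by
      linear_combination (Real.sin u.im * Real.cos u.im) * k
    rw [e]
    exact mul_pos s c

theorem DX.sin_s : sin (Real.pi * (gdv u + bS u w)) =
    -(I * (tanh u * (1 / cosh w + I * cosh (qq u w)))) := by
  have hu := h.cune
  have hw := h.cwne
  rw [mul_add, Complex.sin_add, sin_bS, cos_bS, sin_pi_gdv h.l, cos_pi_gdv h.l, sinh_qq,
    tanh_eq_sinh_div_cosh]
  field_simp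
  linear_combination (cosh w * cosh (qq u w) * sinh u) * I_sq

theorem DX.s_re : 0 < (gdv u + bS u w).re ∧ (gdv u + bS u w).re < 1 := by
  have hpi := Real.pi_pos
  have v := h.vre
  have b := h.b_re
  refine ⟨?_, by rw [add_re]; linarith only [b.2, v.2]⟩
  rcases le_or_gt 0 (qq u w).im with hq | hq
  · rw [add_re, bS_re]
    have := div_nonneg hq hpi.le
    linarith only [this, v.1]
  · obtain ⟨p1, p2⟩ := h.P_pos hq
    obtain ⟨t1, t2⟩ := h.tanh_u
    have h1 : 0 < (sin (Real.pi * (gdv u + bS u w))).re := by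
      rw [h.sin_s, neg_re, I_mul_re, neg_neg, mul_im]
      have := mul_pos t1 p2
      have := mul_pos t2 p1
      linarith [this]
    have e : (Real.pi : ℂ) * (gdv u + bS u w) =
        ((Real.pi * (gdv u + bS u w).re : ℝ) : ℂ) +
          ((Real.pi * (gdv u + bS u w).im : ℝ) : ℂ) * I := by
      apply Complex.ext <;> simp
    rw [e, Complex.sin_add_mul_I, add_re, mul_re] at h1
    simp only [← Complex.ofReal_sin, ← Complex.ofReal_cosh, ← Complex.ofReal_cos,
      ← Complex.ofReal_sinh, Complex.ofReal_re, Complex.ofReal_im, mul_zero, sub_zero,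
      Complex.mul_I_re, Complex.mul_im, zero_mul, add_zero, neg_zero] at h1
    by_contra hcon
    push Not at hcon
    have s0 : Real.sin (Real.pi * (gdv u + bS u w).re) ≤ 0 := by
      apply Real.sin_nonpos_of_nonpos_of_neg_pi_le
      · exact mul_nonpos_of_nonneg_of_nonpos hpi.le hcon
      · have : -(1 / 2) < (gdv u + bS u w).re := by
          rw [add_re]; linarith only [b.1, v.1]
        have := mul_lt_mul_of_pos_left this hpi
        linarith only [this, hpi]
    have := mul_nonpos_of_nonpos_of_nonneg s0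
      (Real.cosh_pos (Real.pi * (gdv u + bS u w).im)).le
    linarith only [this, h1]

theorem DX.dx : Dx (gdv u) (bS u w) :=
  ⟨h.vre.1, h.vre.2, h.bx, h.s_re.1, h.s_re.2⟩

theorem DX.sinh_ne : sinh u ≠ 0 := by
  intro h0
  have := h.su.1
  rw [h0] at this
  simp at this

theorem DX.exp_e0 :
    exp (hh (bS u w) - hh (gdv u)) = exp (dS u w - Real.pi * I / 2) := by
  have hu := h.cune
  have hw := h.cwne
  have hs := h.sinh_ne
  rw [Complex.exp_sub, h.bx.exp, LX_exp_w h.dx, sin_bS, sin_pi_gdv h.l, sinh_qq,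
    sub_eq_add_neg (dS u w), Complex.exp_add, exp_neg_half, dS, Complex.exp_sub, exp_Lc h.l,
    exp_Lc h.r, tanh_eq_sinh_div_cosh]
  field_simp

theorem DX.exp_e1 :
    exp (hh (gdv u + bS u w) - hh (gdv u)) =
      exp (nS u w + dS u w - Real.pi * I / 2 + Real.pi * I * yy u w) := by
  have hu := h.cune
  have hw := h.cwne
  have hs := h.sinh_ne
  have hc := h.cos_ne
  have e1 : nS u w + dS u w - Real.pi * I / 2 + Real.pi * I * yy u w =
      -(Real.pi * I / 2) + (Real.pi * yy u w) * I - (lcy u w + Lc w) := by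
    unfold nS dS
    ring
  rw [e1, Complex.exp_sub, Complex.exp_sub, Complex.exp_add, exp_neg_half, Complex.exp_add,
    h.exp_lcy, exp_Lc h.r, LX_exp_s h.dx, LX_exp_w h.dx, mul_add, Complex.sin_add, sin_bS,
    cos_bS, sin_pi_gdv h.l, cos_pi_gdv h.l, sinh_qq, h.cosh_qq, Complex.exp_mul_I,
    h.sin_yy, tanh_eq_sinh_div_cosh]
  field_simp
  linear_combination (TT u w) * I_sq

theorem DX.exp_n2 : exp (2 * nS u w) = 1 + exp (-(2 * dS u w)) := by
  have hu := h.cune
  have hw := h.cwne
  have hc := h.cos_ne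
  have h1 := h.cos_sq
  have e1 : exp (2 * nS u w) = (exp (Lc u) ^ 2 * exp (lcy u w) ^ 2)⁻¹ := by
    rw [← Complex.exp_nat_mul, ← Complex.exp_nat_mul, ← Complex.exp_add, ← Complex.exp_neg]
    congr 1
    unfold nS
    push_cast
    ring
  have e2 : exp (-(2 * dS u w)) = exp (Lc w) ^ 2 / exp (Lc u) ^ 2 := by
    rw [← Complex.exp_nat_mul, ← Complex.exp_nat_mul, ← Complex.exp_sub]
    congr 1
    unfold dS
    push_cast
    ring
  rw [e1, e2, exp_Lc h.l, exp_Lc h.r, h.exp_lcy]
  rw [inv_eq_one_div, div_eq_iff (mul_ne_zero (pow_ne_zero _ hu) (pow_ne_zero _ hc))]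
  field_simp
  linear_combination -h1

theorem DX.d_im : -(Real.pi / 4) < (dS u w).im ∧ (dS u w).im < Real.pi / 4 := by
  have a := h.Au
  have b := h.Aw
  unfold dS
  rw [sub_im]
  constructor <;> linarith [a.1, a.2, b.1, b.2]

theorem DX.n_im : -(Real.pi / 4) < (nS u w).im ∧ (nS u w).im < Real.pi / 4 := by
  have a := h.Au
  have c := h.be
  unfold nS
  rw [sub_im, neg_im]
  constructor <;> linarith [a.1, a.2, c.1, c.2]

theorem DX.hv_im : 0 < (hh (gdv u)).im ∧ (hh (gdv u)).im < Real.pi / 2 := by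
  have hpi := Real.pi_pos
  have e : (hh (gdv u)).im = (2 * sin (Real.pi * gdv u)).arg := Complex.log_im _
  have h1 := h.tanh_u
  rw [e, sin_pi_gdv h.l]
  apply arg_half
  · rw [show (2 : ℂ) = ((2 : ℝ) : ℂ) by norm_num, re_ofReal_mul]; linarith only [h1.1]
  · rw [show (2 : ℂ) = ((2 : ℝ) : ℂ) by norm_num, im_ofReal_mul]; linarith only [h1.2]

/-- `log (sin (π b) / sin (π v)) = δ - π i / 2`. -/
theorem DX.e0 : hh (bS u w) - hh (gdv u) = dS u w - Real.pi * I / 2 := by
  have hpi := Real.pi_pos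
  apply log_unique h.exp_e0
  have i1 := abs_lt.1 h.bx.im
  have i2 := h.hv_im
  have i3 := h.d_im
  have i4 : (hh (bS u w)).im < 0 := by
    have e : (hh (bS u w)).im = (2 * sin (Real.pi * bS u w)).arg := Complex.log_im _
    rw [e, Complex.arg_neg_iff, S3.sin_pi_im]
    have c : 0 < Real.cos (Real.pi * (bS u w).re) := by
      refine Real.cos_pos_of_mem_Ioo ⟨?_, ?_⟩
      · have := mul_lt_mul_of_pos_left h.b_re.1 hpi
        linarith only [this]
      · have := mul_lt_mul_of_pos_left h.b_re.2 hpi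
        linarith only [this]
    have s : Real.sinh (Real.pi * (bS u w).im) < 0 := by
      rw [Real.sinh_neg_iff]
      exact mul_neg_of_pos_of_neg hpi h.b_im
    have := mul_neg_of_pos_of_neg c s
    linarith only [this]
  rw [half_im, sub_im, abs_lt]
  constructor <;> linarith [i1.1, i1.2, i2.1, i2.2, i3.1, i3.2]

/-- `log (sin (π (v + b)) / sin (π v)) = η + δ - π i / 2 + π i y`. -/
theorem DX.e1 : hh (gdv u + bS u w) - hh (gdv u) =
    nS u w + dS u w - Real.pi * I / 2 + Real.pi * I * yy u w := by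
  have hpi := Real.pi_pos
  apply log_unique h.exp_e1
  have i1 := abs_lt.1 (hh_im_lt h.s_re.1 h.s_re.2)
  have i2 := h.hv_im
  have i3 := h.d_im
  have i4 := h.n_im
  have y := h.yre
  have e : (Real.pi * I * yy u w).im = Real.pi * (yy u w).re := by
    rw [mul_assoc, im_ofReal_mul]
    simp
  have p1 : 0 < Real.pi * (yy u w).re := mul_pos hpi y.1
  have p2 : Real.pi * (yy u w).re < Real.pi * (1 / 2) := mul_lt_mul_of_pos_left y.2 hpi
  rw [sub_im, add_im, e, half_im, add_im, abs_lt]
  constructor <;> linarith [i1.1, i1.2, i2.1, i2.2, i3.1, i3.2, i4.1, i4.2]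

/-- `log (1 + e^{-2 δ}) = 2 η`. -/
theorem DX.n2 : Complex.log (1 + exp (-(2 * dS u w))) = 2 * nS u w := by
  have hpi := Real.pi_pos
  have i4 := h.n_im
  rw [← h.exp_n2, Complex.log_exp]
  · rw [show (2 : ℂ) = ((2 : ℝ) : ℂ) by norm_num, im_ofReal_mul]
    linarith only [i4.1, hpi]
  · rw [show (2 : ℂ) = ((2 : ℝ) : ℂ) by norm_num, im_ofReal_mul]
    linarith only [i4.2, hpi]

end

end Pool.Agent.S5.CV
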