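import Pool.Agent.S5.CV.SlotX

/-!
# Stage 3b, complex volume: the identity of a slot at an edge with equal signs, the proof
-/

namespace Pool.Agent.S5.CV

open Pool.Agent.H63.VC3 Pool.Agent.H63.VC5 Complex Filter Topology
open Pool.Agent.H25.RK (gdv gdv_re_lt gdv_hasDerivAt)
open Pool.Agent.S3 Pool.Agent.S3.CV
open scoped ComplexConjugate

/-- The vertical path. -/
noncomputable def vp (w : ℂ) (t : ℝ) : ℂ := (w.re : ℂ) + (t : ℂ) * ((w.im : ℂ) * I)

theorem vp_re (w : ℂ) (t : ℝ) : (vp w t).re = w.re := by simp [vp]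

theorem vp_im (w : ℂ) (t : ℝ) : (vp w t).im = t * w.im := by simp [vp]

theorem vp_one (w : ℂ) : vp w 1 = w := by
  apply Complex.ext
  · rw [vp_re]
  · rw [vp_im, one_mul]

theorem vp_zero (w : ℂ) : vp w 0 = (w.re : ℂ) := by simp [vp]

theorem vp_der (w : ℂ) (t : ℝ) : HasDerivAt (vp w) ((w.im : ℂ) * I) t :=
  (hasDerivAt_ray ((w.im : ℂ) * I) t).const_add _

theorem DX.star {u w : ℂ} (h : DX u w) {t : ℝ} (h0 : 0 ≤ t) (h1 : t ≤ 1) : DX u (vp w t) := by
  have hpi := Real.pi_pos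
  have y0 : 0 ≤ t * w.im := mul_nonneg h0 h.wi
  have y1 : t * w.im ≤ w.im := by nlinarith [h.wi]
  have hs : Real.sin (t * w.im) ≤ Real.sin w.im :=
    Real.sin_le_sin_of_le_of_le_pi_div_two (by linarith) h.wp.le y1
  have hs0 : 0 ≤ Real.sin (t * w.im) :=
    Real.sin_nonneg_of_nonneg_of_le_pi y0 (by linarith [h.wp])
  have hc : Real.cos w.im ≤ Real.cos (t * w.im) :=
    Real.cos_le_cos_of_nonneg_of_le_pi y0 (by linarith [h.wp]) y1
  have hx := Real.sinh_nonneg_iff.2 h.wr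
  have hx2 := Real.cosh_pos w.re
  refine ⟨h.ur, h.ui, h.up, h.uf, ?_, ?_, ?_, ?_, ?_⟩
  · rw [vp_re]; exact h.wr
  · rw [vp_im]; exact y0
  · rw [vp_im]; linarith [h.wp]
  · have k := h.wf
    rw [cosh_re', cosh_im'] at k ⊢
    rw [vp_re, vp_im]
    have k1 := mul_le_mul_of_nonneg_left hs hx
    have k2 := mul_le_mul_of_nonneg_left hc hx2.le
    linarith
  · have k := h.wn
    rw [Complex.normSq_apply, cosh_re', cosh_im'] at k ⊢
    rw [vp_re, vp_im]
    have e : ∀ y : ℝ, Real.cosh w.re * Real.cos y * (Real.cosh w.re * Real.cos y) +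
        Real.sinh w.re * Real.sin y * (Real.sinh w.re * Real.sin y) =
        Real.cosh w.re ^ 2 - Real.sin y ^ 2 := by
      intro y
      have k1 := Real.cosh_sq w.re
      have k2 := Real.sin_sq_add_cos_sq y
      have k3 : Real.cos y ^ 2 = 1 - Real.sin y ^ 2 := by linarith
      have k4 : Real.sinh w.re ^ 2 = Real.cosh w.re ^ 2 - 1 := by linarith
      linear_combination Real.cosh w.re ^ 2 * k3 + Real.sin y ^ 2 * k4
    rw [e] at k ⊢
    have := mul_self_le_mul_self hs0 hs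
    nlinarith

theorem deriv_eq_Icc {f g : ℝ → ℂ} {f' g' : ℂ} {t : ℝ} (ht : t ∈ Set.Icc (0 : ℝ) 1)
    (hf : HasDerivAt f f' t) (hg : HasDerivAt g g' t)
    (he : ∀ x ∈ Set.Icc (0 : ℝ) 1, exp (f x) = exp (g x)) : f' = g' := by
  have h1 := hf.cexp.hasDerivWithinAt (s := Set.Icc (0 : ℝ) 1)
  have h2 := hg.cexp.hasDerivWithinAt (s := Set.Icc (0 : ℝ) 1)
  have h3 := h2.congr (f₁ := fun x => exp (f x)) (fun x hx => he x hx) (he t ht)
  have h4 := (uniqueDiffOn_Icc (by norm_num) t ht).eq_deriv _ h1 h3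
  rw [← he t ht] at h4
  exact mul_left_cancel₀ (Complex.exp_ne_zero _) h4

theorem hasDerivAt_Lc' {z : ℂ} (h : cosh z ∈ slitPlane) : HasDerivAt Lc (tanh z) z := by
  have := (Complex.hasDerivAt_cosh z).clog h
  rw [tanh_eq_sinh_div_cosh]
  exact this

theorem SlotX_deriv {u : ℂ} {w : ℝ → ℂ} {w' : ℂ} {t : ℝ} (ht : t ∈ Set.Icc (0 : ℝ) 1)
    (h : ∀ x ∈ Set.Icc (0 : ℝ) 1, DX u (w x)) (hw : HasDerivAt w w' t) :
    HasDerivAt (fun t => SlA fe fe u (w t)) 0 t := by
  have h0 := h t ht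
  have hD := h0.dx
  have hpi : (Real.pi : ℂ) ≠ 0 := by exact_mod_cast Real.pi_ne_zero
  obtain ⟨y', hy⟩ : ∃ y', HasDerivAt (fun t => yy u (w t)) y' t := by
    have e1 := HasDerivAt.scomp (g₁ := Lc) (h := fun t => u + w t) t
      (hasDerivAt_Lc' h0.add_slit) (hw.const_add u)
    have e2 := HasDerivAt.scomp (g₁ := Lc) (h := fun t => u - w t) t (hasDerivAt_Lc h0.sub')
      (hw.const_sub u)
    have e3 := ((e1.add e2).div_const 2).cexp
    have e4 := HasDerivAt.scomp (g₁ := arsh) (h := fun t => TT u (w t)) t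
      (hasDerivAt_arsh h0.slitT) e3
    have e5 := HasDerivAt.scomp (g₁ := gdv) (h := fun t => arsh (TT u (w t))) t
      (gdv_hasDerivAt h0.arT) e4
    exact ⟨_, e5⟩
  obtain ⟨b', hb⟩ : ∃ b', HasDerivAt (fun t => bS u (w t)) b' t := by
    have h2 := HasDerivAt.scomp (g₁ := cosh) (h := w) t (Complex.hasDerivAt_cosh (w t)) hw
    have h3 := (hasDerivAt_const t (sinh u)).div h2 h0.cwne
    have h4 := HasDerivAt.scomp (g₁ := arsh) (h := fun t => sinh u / cosh (w t)) t
      (hasDerivAt_arsh h0.slitq) h3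
    exact ⟨_, (h4.const_mul I).neg.div_const (Real.pi : ℂ)⟩
  obtain ⟨l', hl⟩ : ∃ l', HasDerivAt (fun t => lcy u (w t)) l' t := by
    have h1 := HasDerivAt.scomp (g₁ := cos) (h := fun t => (Real.pi : ℂ) * yy u (w t)) t
      (Complex.hasDerivAt_cos _) (hy.const_mul (Real.pi : ℂ))
    exact ⟨_, h1.clog_real (mem_slitPlane_iff.2 (Or.inl h0.cosq.1))⟩
  have hLw := HasDerivAt.scomp (g₁ := Lc) (h := w) t (hasDerivAt_Lc h0.r) hw
  obtain ⟨d', hd⟩ : ∃ d', HasDerivAt (fun t => dS u (w t)) d' t :=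
    ⟨_, hLw.const_sub (Lc u)⟩
  have hn : HasDerivAt (fun t => nS u (w t)) (-l') t := hl.const_sub (-Lc u)
  set n' := -l' with hn'
  -- the derivatives of the logarithms
  have cb := HasDerivAt.scomp (g₁ := hh) (h := fun t => bS u (w t)) t hD.bx.der hb
  have cs := HasDerivAt.scomp (g₁ := hh) (h := fun t => gdv u + bS u (w t)) t
    (hh_hasDerivAt _ hD.s0 hD.s1) (hb.const_add (gdv u))
  have E0 := deriv_eq_Icc ht (cb.sub_const (hh (gdv u))) (hd.sub_const ((Real.pi : ℂ) * I / 2))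
    (fun x hx => (h x hx).exp_e0)
  have E1 := deriv_eq_Icc ht (cs.sub_const (hh (gdv u)))
    (((hn.add hd).sub_const ((Real.pi : ℂ) * I / 2)).add (hy.const_mul ((Real.pi : ℂ) * I)))
    (fun x hx => (h x hx).exp_e1)
  simp only [smul_eq_mul] at E0 E1
  -- the functions
  have dm := h0.dm
  have dp := h0.dp
  have hF := HasDerivAt.scomp (g₁ := fe) (h := fun t => yy u (w t) - gdv u) t
    (fe_hasDerivAt dm.1) (hy.sub_const (gdv u))
  rw [dm.2] at hF
  have hG := HasDerivAt.scomp (g₁ := fe) (h := fun t => yy u (w t) + gdv u) t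
    (fe_hasDerivAt dp.1) (hy.add_const (gdv u))
  rw [dp.2] at hG
  have l0 : HasDerivAt ff (hh (yy u (w t) + 1 / 2)) (yy u (w t) + 1 / 2) := by
    have y := h0.yre
    apply ff_hasDerivAt
    · rw [add_re]; norm_num; linarith [y.1]
    · rw [add_re]; norm_num; linarith [y.2]
  have hf := HasDerivAt.scomp (g₁ := ff) (h := fun t => yy u (w t) + 1 / 2) t l0
    (hy.add_const (1 / 2))
  rw [h0.hh_half] at hf
  have hX := HasDerivAt.scomp (g₁ := dilog) (h := fun t => -exp (-(2 * dS u (w t)))) t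
    (dilog_hasDerivAt (-exp (-(2 * dS u (w t)))) (neg_ne_zero.2 (Complex.exp_ne_zero _)) (by
      rw [sub_neg_eq_add, ← h0.exp_n2]
      refine mem_slitPlane_iff_arg.2 ⟨?_, Complex.exp_ne_zero _⟩
      rw [h0.exp_n2]
      intro hc
      have h1 := congrArg Complex.im h0.n2
      rw [Complex.log_im, hc, show (2 : ℂ) = ((2 : ℝ) : ℂ) by norm_num, im_ofReal_mul] at h1
      have i4 := h0.n_im
      linarith [i4.1, i4.2, Real.pi_pos])) ((hd.const_mul 2).neg.cexp.neg)
  rw [sub_neg_eq_add, h0.n2] at hX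
  have hL := HasDerivAt.scomp (g₁ := fun b => Lam (gdv u) b) (h := fun t => bS u (w t)) t
    (LX_b hD) hb
  have total := (((((((hL.const_mul 2).add ((cs.sub_const (hh (gdv u))).const_mul
    ((Real.pi : ℂ) * I))).add
    ((hF.add hG).const_mul (2 * Real.pi * I : ℂ))).sub (hf.const_mul (4 * Real.pi * I : ℂ))).add
    ((((hy.const_mul 2).sub_const 1).mul hd).const_mul (Real.pi * I : ℂ))).add
    (hX.sub ((hd.mul hn).const_mul 2))).sub_const ((Real.pi : ℂ) ^ 2 / 2)).add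
    ((hb.const_mul (gdv u)).const_mul (2 * (Real.pi : ℂ) ^ 2))
  refine total.congr_deriv ?_
  have hE := Complex.exp_ne_zero (-(2 * dS u (w t)))
  have hX' : -(exp (-(2 * dS u (w t))) * -(2 * d')) *
      -(2 * nS u (w t) / -exp (-(2 * dS u (w t)))) = 4 * nS u (w t) * d' := by
    field_simp
    ring
  have hq : qq u (w t) = Real.pi * I * bS u (w t) := by
    have := pi_bS u (w t)
    linear_combination -I * this + qq u (w t) * I_sq
  have e0 := h0.e0
  have e1 := h0.e1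
  simp only [smul_eq_mul, Function.comp_apply, Pi.neg_apply]
  unfold Lm Lp LamB_Cb
  have hD2 : dS u (w t) = Lc u - Lc (w t) := rfl
  linear_combination (2 * (hh (bS u (w t)) - hh (gdv u)) + Real.pi * I) * E1 -
    2 * (hh (gdv u + bS u (w t)) - hh (gdv u)) * E0 +
    2 * (n' + d' + Real.pi * I * y') * e0 - 2 * d' * e1 + hX' +
    4 * Real.pi * I * y' * hD2

/-- **The identity of a slot at an edge with equal signs.** -/
theorem slotX {u w : ℂ} (h : DX u w) : SlA fe fe u w = 0 := by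
  have hpi := Real.pi_pos
  have k := const_of_ray (g := fun s : ℝ => SlA fe fe u (vp w s)) (by
    intro s hs
    exact SlotX_deriv hs (fun x hx => h.star hx.1 hx.2) (vp_der w s))
  simp only [vp_one, vp_zero] at k
  rw [k]
  have h0 : DX u (w.re : ℂ) := by
    have := h.star le_rfl zero_le_one
    rwa [vp_zero] at this
  have hQ : QP u (w.re : ℂ) := by
    refine ⟨⟨?_, h.ur.le, ?_, h.ui.le, ?_⟩, h.ur, h.ui⟩
    · unfold Reg
      rw [ofReal_im, abs_zero, add_zero]
      exact h.l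
    · rw [ofReal_re]; exact h.wr
    · rw [ofReal_im]
  have hg : |(Lm u (w.re : ℂ)).im| < Real.pi := by
    have := h0.Lm_im
    exact abs_lt.2 ⟨this.1, by linarith [this.2]⟩
  have k2 := slotS hQ
  unfold SlA at k2 ⊢
  rw [fL, if_pos (hQ.q.not_loss hg)] at k2
  exact k2

end Pool.Agent.S5.CV
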