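import Pool.Agent.S5.CV.ChainM
import Pool.Agent.S3.CV.SumS

/-!
# Stage 3b, complex volume: the labels and the fans of a mixed chain
-/

namespace Pool.Agent.S5.CV

open Pool.Agent.H63.VC3 Pool.Agent.H63.VC5 Complex
open Pool.Agent.S3 (sP)
open Pool.Agent.S3.CV (cP cS clR om cl3 cS_first cS_last Ds LS_refl TriS_cS_succ TriS_cP_succ
  TriS_cS_zero TriS_cS_one)

theorem lfM_true {S : ℕ → Bool} {b : Bool} {i : ℕ} (h : S i = true) :
    lfM S b (i + 1) = lfM S b i := by
  show (if S i then lfM S b i else !(lfM S b i)) = _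
  rw [h]
  rfl

theorem lfM_false {S : ℕ → Bool} {b : Bool} {i : ℕ} (h : S i = false) :
    lfM S b (i + 1) = !(lfM S b i) := by
  show (if S i then lfM S b i else !(lfM S b i)) = _
  rw [h]
  rfl

theorem sgM_sc (S : ℕ → Bool) (b : Bool) (i : ℕ) : (sgM S b i : ℂ) = sc (lfM S b i) := by
  unfold sgM sc
  split <;> simp

theorem sgM_sq (S : ℕ → Bool) (b : Bool) (i : ℕ) : sgM S b i * sgM S b i = 1 := by
  unfold sgM
  split <;> norm_num

theorem sgM_true {S : ℕ → Bool} {b : Bool} {i : ℕ} (h : S i = true) :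
    sgM S b (i + 1) = sgM S b i := by
  unfold sgM
  rw [lfM_true h]

theorem sgM_false {S : ℕ → Bool} {b : Bool} {i : ℕ} (h : S i = false) :
    sgM S b (i + 1) = -sgM S b i := by
  unfold sgM
  rw [lfM_false h]
  cases lfM S b i <;> simp

section defs

variable (R : ℕ) (a : ℕ → ℕ) (S : ℕ → Bool) (b : Bool) (W bL bR : ℕ → ℂ)

/-- The angle of the layer `k`. -/
noncomputable def akM (i k : ℕ) : ℂ := k * W i + bL i

/-- The logarithm of the slope `S_{i,k}`, without the branch. -/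
noncomputable def hdM (i k : ℕ) : ℂ := hh (akM W bL i k) - hh (W i)

/-- The shapes. -/
noncomputable def zM (i k : ℕ) : ℂ := exp (-(2 * (sc (lfM S b i) * hdM W bL i k)))

/-- The logarithms of the pivots, without the branch. -/
noncomputable def LNM : ℕ → ℂ
  | 0 => 0
  | i + 1 => LNM i + hdM W bL i (a i)

/-- The regular branch. -/
def rg (i k : ℕ) : ℤ := if cP a b i ≠ -om R a b ∧ cS a b i k ≠ -om R a b then sgM S b i else 0

/-- The branch of the slopes, relative to the pivot. -/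
def nuM (i k : ℕ) : ℤ :=
  if 0 < i ∧ S (i - 1) = true then
    (if k = 0 then 2 * sgM S b i - rg R a S b i 0
    else if k = 1 then rg R a S b i 1 + (if cP a b i = -om R a b then 2 * sgM S b i else 0)
    else rg R a S b i k)
  else rg R a S b i k

/-- The branch of the pivots. -/
def pM : ℕ → ℤ
  | 0 => 0
  | i + 1 => pM i + rg R a S b i (a i)

/-- The logarithms of the pivots. -/
noncomputable def LPM (i : ℕ) : ℂ := LNM a W bL i + Real.pi * I / 2 * (pM R a S b i)

/-- The logarithms of the slopes. -/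
noncomputable def lamM (i k : ℕ) : ℂ :=
  LNM a W bL i + hdM W bL i k + Real.pi * I / 2 * ((pM R a S b i + nuM R a S b i k : ℤ) : ℂ)

/-- The function of a layer. -/
noncomputable def LkM (i k : ℕ) : ℂ :=
  if S i = true ∧ k + 1 = a i then (Real.pi : ℂ) ^ 2 * W i - Lam (W i) (bR i)
  else Lam (W i) (akM W bL i k)

/-- The telescoping branch terms. -/
noncomputable def CcM (i k : ℕ) : ℂ :=
  (nuM R a S b i (k + 1) : ℂ) * hdM W bL i k - (nuM R a S b i k : ℂ) * hdM W bL i (k + 1)

/-- The telescoping function of a region. -/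
noncomputable def GkM (i k : ℕ) : ℂ :=
  -(2 * (sgM S b i : ℂ) * LkM a S W bL bR i k) + Real.pi * I * ((sgM S b i : ℂ) * CcM R a S b W bL i k)

/-- A solution of the equations of a mixed chain. -/
structure CUM (Y : ℕ → ℂ) : Prop where
  con : ConM R a S
  l0 : bL 0 = 0
  rR : bR R = 0
  eo : ∀ i, i < R → S i = false → EO (lfM S b i) (W i) (W (i + 1)) (bR i) (bL (i + 1)) (Y i)
  es : ∀ i, i < R → S i = true → ES (lfM S b i) (W i) (W (i + 1)) (bR i) (bL (i + 1)) (Y i)
  ver : ∀ i, i ≤ R → (a i : ℂ) * W i + bL i + bR i = 1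
  pos : ∀ i k, i ≤ R → k ∈ layM R a S i → 0 < (zM S b W bL i k).im

end defs

section labels

variable {R : ℕ} {a : ℕ → ℕ} {S : ℕ → Bool} {b : Bool} {W bL bR Y : ℕ → ℂ}

theorem akM_succ (i k : ℕ) : akM W bL i (k + 1) = W i + akM W bL i k := by
  unfold akM
  push_cast
  ring

theorem akM_zero (i : ℕ) : akM W bL i 0 = bL i := by
  unfold akM
  rw [Nat.cast_zero, zero_mul, zero_add]

theorem rg_succ (i k : ℕ) : rg R a S b i (k + 2) = rg R a S b i k := by
  unfold rg
  rw [TriS_cS_succ]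

theorem nuM_two {i k : ℕ} (hk : 2 ≤ k) : nuM R a S b i k = rg R a S b i k := by
  unfold nuM
  rw [if_neg (show ¬ k = 0 by omega), if_neg (show ¬ k = 1 by omega), ite_self]

theorem nuM_reg {i : ℕ} (h : ¬ (0 < i ∧ S (i - 1) = true)) (k : ℕ) :
    nuM R a S b i k = rg R a S b i k := by
  unfold nuM
  rw [if_neg h]

theorem nuM_par (i k : ℕ) : ∃ n : ℤ, nuM R a S b i k = rg R a S b i k + 2 * n := by
  unfold nuM
  split_ifs with h1 h2 h3 h4
  · exact ⟨sgM S b i - rg R a S b i 0, by rw [h2]; ring⟩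
  · exact ⟨sgM S b i, by rw [h3]⟩
  · exact ⟨0, by rw [h3]; ring⟩
  · exact ⟨0, by ring⟩
  · exact ⟨0, by ring⟩

/-- The regular branches of three consecutive slopes. -/
theorem rg_three (i k : ℕ) : rg R a S b i k + rg R a S b i (k + 1) +
    (if cP a b i = -om R a b then sgM S b i else 0) = sgM S b i := by
  have hc := cl3 R a b i k
  unfold rg
  rcases hc with ⟨c1, c2, c3⟩ | ⟨c1, c2, c3⟩ | ⟨c1, c2, c3⟩
  · rw [if_neg (fun h => h.1 c1), if_neg (fun h => h.1 c1), if_pos c1]; ring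
  · rw [if_neg (fun h => h.2 c2), if_pos ⟨c1, c3⟩, if_neg c1]; ring
  · rw [if_pos ⟨c1, c2⟩, if_neg (fun h => h.2 c3), if_neg c1]; ring

theorem rg_next (i j : ℕ) :
    rg R a S b i (j + 1) = if cS a b i j = -om R a b then sgM S b i else 0 := by
  have hc := cl3 R a b i j
  unfold rg
  rcases hc with ⟨c1, c2, c3⟩ | ⟨c1, c2, c3⟩ | ⟨c1, c2, c3⟩
  · rw [if_neg (fun h => h.1 c1), if_neg c2]
  · rw [if_pos ⟨c1, c3⟩, if_pos c2]
  · rw [if_neg (fun h => h.2 c3), if_neg c2]

theorem rg_prev (i j : ℕ) :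
    rg R a S b i j = if cS a b i (j + 1) = -om R a b then sgM S b i else 0 := by
  have hc := cl3 R a b i j
  unfold rg
  rcases hc with ⟨c1, c2, c3⟩ | ⟨c1, c2, c3⟩ | ⟨c1, c2, c3⟩
  · rw [if_neg (fun h => h.1 c1), if_neg c3]
  · rw [if_neg (fun h => h.2 c2), if_neg c3]
  · rw [if_pos ⟨c1, c2⟩, if_pos c3]

theorem zsignM (i j : ℕ) : zM S b W bL i (j + 1) = (if cS a b i j = -om R a b then -1 else 1) *
    exp (2 * lgLM S b (LPM R a S b W bL) (lamM R a S b W bL) i (j + 1) -
      2 * lgRM S b (LPM R a S b W bL) (lamM R a S b W bL) i (j + 1)) := by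
  obtain ⟨n, hn⟩ := nuM_par (R := R) (a := a) (S := S) (b := b) i (j + 1)
  rw [rg_next] at hn
  have hn' : (nuM R a S b i (j + 1) : ℂ) =
      (if cS a b i j = -om R a b then (sgM S b i : ℂ) else 0) + 2 * n := by
    rw [hn]
    push_cast
    split <;> simp
  have hE : 2 * lgLM S b (LPM R a S b W bL) (lamM R a S b W bL) i (j + 1) -
      2 * lgRM S b (LPM R a S b W bL) (lamM R a S b W bL) i (j + 1) =
      -(2 * (sc (lfM S b i) * hdM W bL i (j + 1))) -
        sc (lfM S b i) * (Real.pi * I * (nuM R a S b i (j + 1) : ℂ)) := by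
    unfold lgLM lgRM LPM lamM sc
    split
    · push_cast
      ring
    · push_cast
      ring
  have hN : ∀ l : Bool, exp (sc l * ((n : ℂ) * (2 * Real.pi * I))) = 1 := by
    have h1 : exp ((n : ℂ) * (2 * Real.pi * I)) = 1 := Complex.exp_int_mul_two_pi_mul_I n
    intro l
    cases l
    · rw [sc_false, neg_one_mul, Complex.exp_neg, h1, inv_one]
    · rw [sc_true, one_mul, h1]
  rw [hE, Complex.exp_sub, hn']
  unfold zM
  have hsg := sgM_sc S b i
  split
  · have e : sc (lfM S b i) * (Real.pi * I * ((sgM S b i : ℂ) + 2 * n)) =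
        Real.pi * I + sc (lfM S b i) * (n * (2 * Real.pi * I)) := by
      rw [hsg]
      linear_combination (Real.pi * I) * sc_sq (lfM S b i)
    rw [e, Complex.exp_add, Complex.exp_pi_mul_I, hN]
    ring
  · have e : sc (lfM S b i) * (Real.pi * I * (0 + 2 * n)) =
        sc (lfM S b i) * (n * (2 * Real.pi * I)) := by ring
    rw [e, hN]
    ring

end labels

end Pool.Agent.S5.CV
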