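import Pool.Agent.S5.CV.HinM
import Pool.Agent.S3.CV.TotS

/-!
# Stage 3b, complex volume: the sum over the layers of a mixed chain
-/

namespace Pool.Agent.S5.CV

open Pool.Agent.H63.VC3 Pool.Agent.H63.VC5 Complex
open Pool.Agent.S3 (sP wr)
open Pool.Agent.S3.CV (cP cS clR om cl3 cS_first cS_last Ds LS_refl TriS_cS_succ TriS_cP_succ
  TriS_cS_zero TriS_cS_one TotS_tele)

variable {R : ℕ} {a : ℕ → ℕ} {S : ℕ → Bool} {b : Bool} {W bL bR Y : ℕ → ℂ}

/-- The value of a layer. -/
noncomputable def TkM (R : ℕ) (a : ℕ → ℕ) (S : ℕ → Bool) (b : Bool) (W bL bR Y : ℕ → ℂ)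
    (i k : ℕ) : ℂ :=
  if k = a i then HkM R a S b W bL bR Y i
  else GkM R a S b W bL bR i k - GkM R a S b W bL bR i (k - 1) -
    (sgM S b i : ℂ) * (Real.pi : ℂ) ^ 2 / 3

/-- The value of the potential. -/
noncomputable def WUM (R : ℕ) (a : ℕ → ℕ) (S : ℕ → Bool) (b : Bool) (W Y : ℕ → ℂ) : ℂ :=
  ∑ i ∈ Finset.range R, (sP (Y i) (.op (W i)) + sP (Y i) (.op (W (i + 1)))) +
  ∑ i ∈ Finset.range (R + 1), wr (-(sgM S b i : ℝ) * (a i : ℝ) / 2) ((sgM S b i : ℂ) * W i)

theorem third (S : ℕ → Bool) (b : Bool) (R : ℕ) : ∃ m : ℤ,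
    ∑ i ∈ Finset.range (R + 1), sgM S b i +
      2 * ∑ i ∈ Finset.range R, (if S i then sgM S b i else 0) + sgM S b 0 + sgM S b R =
        3 * m := by
  induction R with
  | zero => exact ⟨sgM S b 0, by simp; ring⟩
  | succ R ih =>
    obtain ⟨m, hm⟩ := ih
    have e1 := Finset.sum_range_succ (fun i => sgM S b i) (R + 1)
    have e2 := Finset.sum_range_succ (fun i => if S i then sgM S b i else 0) R
    rw [e1, e2]
    rcases hS : S R with _ | _
    · refine ⟨m - sgM S b R, ?_⟩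
      rw [sgM_false hS, if_neg (by simp)]
      linear_combination hm
    · refine ⟨m + sgM S b R, ?_⟩
      rw [sgM_true hS, if_pos rfl]
      linear_combination hm

section withh

variable (h : CUM R a S b W bL bR Y)
include h

theorem CUM.lay_ex {i k : ℕ} (hi : i ≤ R) (hk : k ∈ layM R a S i) :
    ∃ P Q : ℤ, Complex.log (zM S b W bL i k) + P * (Real.pi * I) =
        2 * lgLM S b (LPM R a S b W bL) (lamM R a S b W bL) i k -
          2 * lgRM S b (LPM R a S b W bL) (lamM R a S b W bL) i k ∧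
      -Complex.log (1 - zM S b W bL i k) + Q * (Real.pi * I) =
        2 * lgRM S b (LPM R a S b W bL) (lamM R a S b W bL) i k -
          lamM R a S b W bL i (k - 1) - lgNM a (lamM R a S b W bL) i k ∧
      Cg (2 * rogers (zM S b W bL i k) P Q) (TkM R a S b W bL bR Y i k) := by
  obtain ⟨k1, k2, k3, k4⟩ := (h.con.mem_lay hi).1 hk
  have ha := h.con.ha i hi
  by_cases hka : k = a i
  · subst hka
    have hiR : i < R := by
      rcases Nat.lt_or_ge i R with h1 | h1
      · exact h1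
      · have := k4 (by omega)
        omega
    have hS : S i = false := by
      rcases h1 : S i with _ | _
      · rfl
      · have h2 := k3 hiR
        rw [lw_true h1] at h2
        omega
    obtain ⟨P, Q, e1, e2, e3⟩ := h.hin hiR hS
    refine ⟨P, Q, e1, e2, Cg.of_eq ?_⟩
    unfold TkM
    rw [if_pos rfl, e3]
  · obtain ⟨j, rfl⟩ : ∃ j, k = j + 1 := ⟨k - 1, by omega⟩
    have hlt : j + 1 < a i := by
      rcases Nat.lt_or_ge i R with h1 | h1
      · have h2 := k3 h1
        have h3 := lw_le a S i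
        omega
      · have := k4 (by omega)
        omega
    obtain ⟨P, Q, e1, e2, e3⟩ := h.fan hi hk hlt
    refine ⟨P, Q, e1, e2, e3.trans (Cg.of_eq ?_)⟩
    unfold TkM
    rw [if_neg hka, Nat.add_sub_cancel]

theorem CUM.sum_lay {i : ℕ} (hi : i ≤ R) : ∑ k ∈ layM R a S i, TkM R a S b W bL bR Y i k =
    GkM R a S b W bL bR i (if i = R then a i - 2 else a i - 1) -
      GkM R a S b W bL bR i (if i = 0 then 1 else 0) -
      ((a i : ℂ) - 1 - (if i = 0 then 1 else 0) - (if i = R then 1 else 0)) *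
        ((sgM S b i : ℂ) * (Real.pi : ℂ) ^ 2 / 3) +
      (if i = R then 0 else if S i = true then 0 else HkM R a S b W bL bR Y i) := by
  have ha := h.con.ha i hi
  have hR := h.con.hR
  have hlow : (if i = 0 then 2 else 1) = (if i = 0 then 1 else 0) + 1 := by split <;> rfl
  have hT : ∀ m n : ℕ, n < a i → ∑ k ∈ Finset.Icc m n, TkM R a S b W bL bR Y i k =
      ∑ k ∈ Finset.Icc m n, (GkM R a S b W bL bR i k - GkM R a S b W bL bR i (k - 1) -
        (sgM S b i : ℂ) * (Real.pi : ℂ) ^ 2 / 3) := by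
    intro m n hn
    refine Finset.sum_congr rfl fun k hk => ?_
    have := (Finset.mem_Icc.1 hk).2
    unfold TkM
    rw [if_neg (by omega)]
  unfold layM
  rw [hlow]
  by_cases hiR : i = R
  · have hi0 : i ≠ 0 := by omega
    simp only [if_pos hiR, if_neg hi0]
    rw [hT _ _ (by omega), TotS_tele _ _ (by omega), Nat.cast_sub (by omega)]
    push_cast
    ring
  · simp only [if_neg hiR]
    obtain ⟨n, hn⟩ : ∃ n, a i = n + 1 := ⟨a i - 1, by omega⟩
    have e3 : a i - 1 = n := by omega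
    have e4 : (a i : ℂ) = n + 1 := by rw [hn]; push_cast; rfl
    have hm : (if i = 0 then 1 else 0) ≤ n := by split <;> omega
    rcases hS : S i with _ | _
    · rw [lw_false hS]
      have e : ∑ k ∈ Finset.Icc ((if i = 0 then 1 else 0) + 1) (a i), TkM R a S b W bL bR Y i k =
          ∑ k ∈ Finset.Icc ((if i = 0 then 1 else 0) + 1) n, TkM R a S b W bL bR Y i k +
            TkM R a S b W bL bR Y i (a i) := by
        rw [hn, Finset.sum_Icc_succ_top (by omega)]
      have e2 : TkM R a S b W bL bR Y i (a i) = HkM R a S b W bL bR Y i := by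
        unfold TkM
        rw [if_pos rfl]
      rw [e, e2, hT _ _ (by omega), TotS_tele _ _ hm, e3, e4]
      simp only [Bool.false_eq_true, if_false]
      split
      · push_cast
        ring
      · push_cast
        ring
    · rw [lw_true hS, e3, hT _ _ (by omega), TotS_tele _ _ hm, e4]
      simp only [if_true]
      split
      · push_cast
        ring
      · push_cast
        ring

omit h in
theorem LkM_zero {i : ℕ} (ha : 2 ≤ a i) : LkM a S W bL bR i 0 = Lam (W i) (bL i) := by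
  unfold LkM
  rw [if_neg (fun h => by have := h.2; omega), akM_zero]

/-- The contribution of an edge. -/
theorem CUM.edge_sum {i : ℕ} (hi : i < R) : ∃ n : ℤ,
    GkM R a S b W bL bR i (a i - 1) - GkM R a S b W bL bR (i + 1) 0 +
      (if S i = true then 0 else HkM R a S b W bL bR Y i) =
      2 * Real.pi * I * (sP (Y i) (.op (W i)) + sP (Y i) (.op (W (i + 1)))) -
      2 * (Real.pi : ℂ) ^ 2 * ((sgM S b i : ℂ) * W i) -
      2 * (Real.pi : ℂ) ^ 2 * ((sgM S b i : ℂ) * W i * bR i) -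
      2 * (Real.pi : ℂ) ^ 2 * ((sgM S b (i + 1) : ℂ) * W (i + 1) * bL (i + 1)) -
      (if cS a b i (a i + 1) = -om R a b then (Real.pi : ℂ) ^ 2 / 2 else 0) +
      2 * (Real.pi : ℂ) ^ 2 / 3 * ((if S i then sgM S b i else 0 : ℤ) : ℂ) +
      n * (Real.pi : ℂ) ^ 2 := by
  have ha := h.con.ha i hi.le
  have ha' := h.con.ha (i + 1) hi
  have ej : a i - 1 + 1 = a i := by omega
  have hL0 := LkM_zero (S := S) (W := W) (bL := bL) (bR := bR) ha'
  rcases hS : S i with _ | _
  · refine ⟨0, ?_⟩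
    have hr := LS_refl _ _ (h.eo i hi hS).ds
    have hLk : LkM a S W bL bR i (a i - 1) = Lam (W i) (1 - W i - bR i) := by
      unfold LkM
      rw [if_neg (fun h => by rw [hS] at h; exact absurd h.1 (by simp)), h.ak_pred hi.le]
    simp only [Bool.false_eq_true, if_false]
    unfold GkM HkM H0M
    rw [hLk, hL0, sgM_false hS]
    push_cast
    linear_combination (-(2 * (sgM S b i : ℂ))) * hr
  · have hes := h.es i hi hS
    have eL := h.hd_last hi.le
    have eP := h.hd_pred hi.le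
    have eZ := hd_zeroM (W := W) (bL := bL) (i + 1)
    have eO := hd_oneM (W := W) (bL := bL) (i + 1)
    have hLk : LkM a S W bL bR i (a i - 1) =
        (Real.pi : ℂ) ^ 2 * W i - Lam (W i) (bR i) := by
      unfold LkM
      rw [if_pos ⟨hS, ej⟩]
    have hA := rg_last (R := R) (a := a) (S := S) (b := b) i
    have hnuA := h.nu_last hi.le
    have hnuB := h.nu_pred hi hS
    have n0 := nuM_zero_true (R := R) (a := a) (b := b) hS
    have n1 := nuM_one_true (R := R) (a := a) (b := b) hS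
    have hsg := sgM_sc S b i
    have hs2 : (sgM S b i : ℂ) * sgM S b i = 1 := by
      have := sgM_sq S b i
      exact_mod_cast this
    have hlam := hes.lam
    have e0 := hes.e0
    have e1 := hes.e1
    rw [← hsg] at hlam e0 e1
    set A := rg R a S b i (a i) with hAdef
    set B : ℤ := if cS a b i (a i) = -om R a b then sgM S b i else 0 with hB
    set s := sgM S b i with hs
    refine ⟨(if s = 1 then A else 0) - B, ?_⟩
    have hA' : (if cS a b i (a i + 1) = -om R a b then (Real.pi : ℂ) ^ 2 / 2 else 0) =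
        (Real.pi : ℂ) ^ 2 / 2 * (s * A) := by
      rw [hA]
      split
      · rw [hs2]; ring
      · push_cast
        ring
    have hA2 : (if s = 1 then (A : ℂ) else 0) = (s * A + A) / 2 := by
      rcases sgM_cases S b i with h1 | h1
      · rw [← hs] at h1
        rw [if_pos h1, h1]
        push_cast
        ring
      · rw [← hs] at h1
        rw [h1, if_neg (by norm_num)]
        push_cast
        ring
    simp only [if_true]
    unfold GkM CcM
    rw [hLk, hL0, ej, hnuA, hnuB, zero_add, n0, n1, eL, eP, eZ, eO, e0, e1, hA', sgM_true hS, ← hs]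
    push_cast
    rw [hA2]
    linear_combination (s : ℂ) * hlam + ((B - A / 2) * (Real.pi : ℂ) ^ 2 * s ^ 2) * I_sq +
      (2 * Real.pi * I * (sP (Y i) (.op (W i)) + sP (Y i) (.op (W (i + 1)))) -
        (B - A / 2) * (Real.pi : ℂ) ^ 2) * hs2

theorem CUM.first_G :
    GkM R a S b W bL bR 0 1 = -((sgM S b 0 : ℂ) * (Real.pi : ℂ) ^ 2 / 3) := by
  have hR := h.con.hR
  have hlab := h.lab_first
  have e0 : hdM W bL 0 1 = 0 := by
    rw [hd_oneM, h.l0, add_zero, sub_self]
  have hn : nuM R a S b 0 1 = 0 := by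
    have hc := cl3 R a b 0 0
    have h0 := cS_first R a b
    rw [nuM_reg (by omega)]
    unfold rg
    rcases hc with ⟨c1, -, -⟩ | ⟨-, c2, -⟩ | ⟨-, -, c3⟩
    · rw [if_neg (fun h => h.1 c1)]
    · exact absurd c2 h0
    · rw [if_neg (fun h => h.2 c3)]
  have e1 : akM W bL 0 1 = W 0 := by
    unfold akM
    rw [Nat.cast_one, one_mul, h.l0, add_zero]
  have hL : LkM a S W bL bR 0 1 = (Real.pi : ℂ) ^ 2 / 6 := by
    unfold LkM
    rw [if_neg (fun h' => by have := h.con.hfst h'.1; have := h'.2; omega), e1, Lam_diag]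
  unfold GkM CcM
  rw [hL, e0, hn]
  push_cast
  ring

theorem CUM.last_G : GkM R a S b W bL bR R (a R - 2) =
    -(2 * (sgM S b R : ℂ) * ((Real.pi : ℂ) ^ 2 * W R - (Real.pi : ℂ) ^ 2 / 6)) := by
  have ha := h.con.ha R le_rfl
  have hR := h.con.hR
  have eK := h.ak_pred2 le_rfl
  rw [h.rR, add_zero] at eK
  have ej : a R - 2 + 1 = a R - 1 := by omega
  have hw := h.w0 le_rfl
  have hh' := h.wh le_rfl
  have hD : Ds (W R) (W R) := ⟨hw, hw, by linarith⟩
  have hl := LS_refl _ _ hD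
  rw [Lam_diag, ← eK] at hl
  have hL : LkM a S W bL bR R (a R - 2) = Lam (W R) (akM W bL R (a R - 2)) := by
    unfold LkM
    rw [if_neg (fun h => by have := h.2; omega)]
  unfold GkM CcM
  rw [hL, ej, h.nu_end, h.hd_end]
  push_cast
  linear_combination (-(2 * (sgM S b R : ℂ))) * hl

/-- **The value of the chain.** -/
theorem CUM.total : ∃ n : ℤ, ∑ i ∈ Finset.range (R + 1), ∑ k ∈ layM R a S i,
      TkM R a S b W bL bR Y i k + (Real.pi : ℂ) ^ 2 * KM R a S b =
      2 * Real.pi * I * WUM R a S b W Y +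
        (Real.pi : ℂ) ^ 2 / 2 * ∑ i ∈ Finset.range (R + 1), (a i : ℂ) +
        n * (Real.pi : ℂ) ^ 2 := by
  have hR := h.con.hR
  have key : ∀ i, ∃ n : ℤ, i < R →
      GkM R a S b W bL bR i (a i - 1) - GkM R a S b W bL bR (i + 1) 0 +
        (if S i = true then 0 else HkM R a S b W bL bR Y i) =
      2 * Real.pi * I * (sP (Y i) (.op (W i)) + sP (Y i) (.op (W (i + 1)))) -
      2 * (Real.pi : ℂ) ^ 2 * ((sgM S b i : ℂ) * W i) -
      2 * (Real.pi : ℂ) ^ 2 * ((sgM S b i : ℂ) * W i * bR i) -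
      2 * (Real.pi : ℂ) ^ 2 * ((sgM S b (i + 1) : ℂ) * W (i + 1) * bL (i + 1)) -
      (if cS a b i (a i + 1) = -om R a b then (Real.pi : ℂ) ^ 2 / 2 else 0) +
      2 * (Real.pi : ℂ) ^ 2 / 3 * ((if S i then sgM S b i else 0 : ℤ) : ℂ) +
      n * (Real.pi : ℂ) ^ 2 := by
    intro i
    by_cases hi : i < R
    · obtain ⟨n, hn⟩ := h.edge_sum hi
      exact ⟨n, fun _ => hn⟩
    · exact ⟨0, fun h0 => absurd h0 hi⟩
  choose n hn using key
  obtain ⟨m, hm⟩ := third S b R
  refine ⟨∑ i ∈ Finset.range R, n i + m, ?_⟩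
  rw [Finset.sum_congr rfl (fun i hi => h.sum_lay (by
    have := Finset.mem_range.1 hi; omega))]
  rw [Finset.sum_add_distrib, Finset.sum_sub_distrib, Finset.sum_sub_distrib]
  -- the tops
  have t1 : ∑ i ∈ Finset.range (R + 1), GkM R a S b W bL bR i (if i = R then a i - 2 else a i - 1) =
      ∑ i ∈ Finset.range R, GkM R a S b W bL bR i (a i - 1) + GkM R a S b W bL bR R (a R - 2) := by
    rw [Finset.sum_range_succ, if_pos rfl]
    congr 1
    refine Finset.sum_congr rfl fun i hi => ?_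
    have := Finset.mem_range.1 hi
    rw [if_neg (by omega)]
  have t2 : ∑ i ∈ Finset.range (R + 1), GkM R a S b W bL bR i (if i = 0 then 1 else 0) =
      ∑ i ∈ Finset.range R, GkM R a S b W bL bR (i + 1) 0 + GkM R a S b W bL bR 0 1 := by
    rw [Finset.sum_range_succ', if_pos rfl]
    rfl
  have t3 : ∑ i ∈ Finset.range (R + 1), (if i = R then 0 else if S i = true then 0
      else HkM R a S b W bL bR Y i) =
      ∑ i ∈ Finset.range R, (if S i = true then 0 else HkM R a S b W bL bR Y i) := by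
    rw [Finset.sum_range_succ, if_pos rfl, add_zero]
    refine Finset.sum_congr rfl fun i hi => ?_
    have := Finset.mem_range.1 hi
    rw [if_neg (by omega : ¬ i = R)]
  have t4 : ∑ i ∈ Finset.range (R + 1), ((a i : ℂ) - 1 - (if i = 0 then 1 else 0) -
      (if i = R then 1 else 0)) * ((sgM S b i : ℂ) * (Real.pi : ℂ) ^ 2 / 3) =
      (Real.pi : ℂ) ^ 2 / 3 * (∑ i ∈ Finset.range (R + 1), (sgM S b i : ℂ) * (a i : ℂ) -
        ∑ i ∈ Finset.range (R + 1), (sgM S b i : ℂ) - (sgM S b 0 : ℂ) - (sgM S b R : ℂ)) := by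
    have e0 : ∑ i ∈ Finset.range (R + 1), (if i = 0 then (sgM S b i : ℂ) * (Real.pi : ℂ) ^ 2 / 3
        else 0) = (sgM S b 0 : ℂ) * (Real.pi : ℂ) ^ 2 / 3 := by
      rw [Finset.sum_ite_eq' (Finset.range (R + 1)) 0, if_pos (Finset.mem_range.2 (by omega))]
    have e1 : ∑ i ∈ Finset.range (R + 1), (if i = R then (sgM S b i : ℂ) * (Real.pi : ℂ) ^ 2 / 3
        else 0) = (sgM S b R : ℂ) * (Real.pi : ℂ) ^ 2 / 3 := by
      rw [Finset.sum_ite_eq' (Finset.range (R + 1)) R, if_pos (Finset.mem_range.2 (by omega))]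
    have e2 : ∀ i ∈ Finset.range (R + 1), ((a i : ℂ) - 1 - (if i = 0 then 1 else 0) -
        (if i = R then 1 else 0)) * ((sgM S b i : ℂ) * (Real.pi : ℂ) ^ 2 / 3) =
        (Real.pi : ℂ) ^ 2 / 3 * ((sgM S b i : ℂ) * (a i : ℂ)) -
          (Real.pi : ℂ) ^ 2 / 3 * (sgM S b i : ℂ) -
          (if i = 0 then (sgM S b i : ℂ) * (Real.pi : ℂ) ^ 2 / 3 else 0) -
          (if i = R then (sgM S b i : ℂ) * (Real.pi : ℂ) ^ 2 / 3 else 0) := by
      intro i _
      split <;> split <;> ring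
    rw [Finset.sum_congr rfl e2, Finset.sum_sub_distrib, Finset.sum_sub_distrib,
      Finset.sum_sub_distrib, e0, e1, ← Finset.mul_sum, ← Finset.mul_sum]
    ring
  have t5 := Finset.sum_congr rfl (fun i hi => hn i (Finset.mem_range.1 hi))
  simp only [Finset.sum_add_distrib, Finset.sum_sub_distrib, ← Finset.mul_sum,
    ← Finset.sum_mul] at t5
  have t6 : ∑ i ∈ Finset.range (R + 1), (sgM S b i : ℂ) * W i * bR i =
      ∑ i ∈ Finset.range R, (sgM S b i : ℂ) * W i * bR i := by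
    rw [Finset.sum_range_succ, h.rR, mul_zero, add_zero]
  have t7 : ∑ i ∈ Finset.range (R + 1), (sgM S b i : ℂ) * W i * bL i =
      ∑ i ∈ Finset.range R, (sgM S b (i + 1) : ℂ) * W (i + 1) * bL (i + 1) := by
    rw [Finset.sum_range_succ', h.l0, mul_zero, add_zero]
  have t8 : ∑ i ∈ Finset.range (R + 1), (sgM S b i : ℂ) * W i =
      ∑ i ∈ Finset.range R, (sgM S b i : ℂ) * W i + (sgM S b R : ℂ) * W R := by
    rw [Finset.sum_range_succ]
  have t9 : ∑ i ∈ Finset.range (R + 1), (2 * Real.pi * I *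
      Pool.Agent.S3.wr (-(sgM S b i : ℝ) * (a i : ℝ) / 2) ((sgM S b i : ℂ) * W i)) =
      -(2 * (Real.pi : ℂ) ^ 2) * ∑ i ∈ Finset.range (R + 1), (sgM S b i : ℂ) * W i -
      2 * (Real.pi : ℂ) ^ 2 * ∑ i ∈ Finset.range (R + 1), (sgM S b i : ℂ) * W i * bR i -
      2 * (Real.pi : ℂ) ^ 2 *
        ∑ i ∈ Finset.range (R + 1), (sgM S b i : ℂ) * W i * bL i := by
    rw [Finset.mul_sum, Finset.mul_sum, Finset.mul_sum, ← Finset.sum_sub_distrib,
      ← Finset.sum_sub_distrib]
    refine Finset.sum_congr rfl fun i hi => ?_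
    have hv := h.ver i (by have := Finset.mem_range.1 hi; omega)
    have hs : (sgM S b i : ℂ) ^ 2 = 1 := by
      unfold sgM
      split <;> norm_num
    unfold Pool.Agent.S3.wr
    push_cast
    linear_combination ((sgM S b i : ℂ) ^ 3 * (-2) * (Real.pi : ℂ) ^ 2 * a i * W i ^ 2 +
      4 * (Real.pi : ℂ) ^ 2 * (sgM S b i : ℂ) * W i) * Complex.I_sq +
      2 * (Real.pi : ℂ) ^ 2 * (a i : ℂ) * (sgM S b i : ℂ) * W i ^ 2 * hs +
      2 * (Real.pi : ℂ) ^ 2 * (sgM S b i : ℂ) * W i * hv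
  have t10 : ∑ i ∈ Finset.range R, (if cS a b i (a i + 1) = -om R a b
      then (Real.pi : ℂ) ^ 2 / 2 else 0) = (Real.pi : ℂ) ^ 2 *
      ∑ i ∈ Finset.range R, (if cS a b i (a i + 1) = -om R a b then (1 / 2 : ℂ) else 0) := by
    rw [Finset.mul_sum]
    refine Finset.sum_congr rfl fun i _ => ?_
    split <;> ring
  have t11 : ∑ i ∈ Finset.range (R + 1), (a i : ℂ) / 2 =
      (∑ i ∈ Finset.range (R + 1), (a i : ℂ)) / 2 := by
    rw [Finset.sum_div]
  have t12 : ∑ i ∈ Finset.range (R + 1), (sgM S b i : ℂ) +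
      2 * ∑ i ∈ Finset.range R, ((if S i then sgM S b i else 0 : ℤ) : ℂ) + (sgM S b 0 : ℂ) +
        (sgM S b R : ℂ) = 3 * m := by
    have := congrArg (fun x : ℤ => (x : ℂ)) hm
    simp only [Int.cast_add, Int.cast_mul, Int.cast_sum, Int.cast_ofNat] at this
    exact this
  rw [← Finset.mul_sum, t8, t6, t7] at t9
  rw [t10] at t5
  rw [t1, t2, t3, t4, h.first_G, h.last_G]
  unfold WUM KM
  rw [t11, Finset.sum_add_distrib]
  rw [Int.cast_add, Int.cast_sum]
  linear_combination t5 - t9 + ((Real.pi : ℂ) ^ 2 / 3) * t12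

/-- **The complex volume of a mixed chain.** -/
theorem CUM.main {A : List ℕ} (hA : FarM A R a S) :
    ∃ Z : ℂ, Pool.Agent.S3.CV.IsComplexVolume A b Z ∧
    Cg Z (2 * Real.pi * I * WUM R a S b W Y +
      (Real.pi : ℂ) ^ 2 / 2 * ∑ i ∈ Finset.range (R + 1), (a i : ℂ)) := by
  have key : ∀ i k, ∃ P Q : ℤ, i ≤ R → k ∈ layM R a S i →
      Complex.log (zM S b W bL i k) + P * (Real.pi * I) =
        2 * lgLM S b (LPM R a S b W bL) (lamM R a S b W bL) i k -
          2 * lgRM S b (LPM R a S b W bL) (lamM R a S b W bL) i k ∧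
      -Complex.log (1 - zM S b W bL i k) + Q * (Real.pi * I) =
        2 * lgRM S b (LPM R a S b W bL) (lamM R a S b W bL) i k -
          lamM R a S b W bL i (k - 1) - lgNM a (lamM R a S b W bL) i k ∧
      Cg (2 * rogers (zM S b W bL i k) P Q) (TkM R a S b W bL bR Y i k) := by
    intro i k
    by_cases hi : i ≤ R ∧ k ∈ layM R a S i
    · obtain ⟨P, Q, e⟩ := h.lay_ex hi.1 hi.2
      exact ⟨P, Q, fun _ _ => e⟩
    · exact ⟨0, 0, fun h1 h2 => absurd ⟨h1, h2⟩ hi⟩
  choose P Q hPQ using key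
  obtain ⟨Z, hZ, hC⟩ := h.con.chain_cv hA b (LPM R a S b W bL) (lamM R a S b W bL)
    (zM S b W bL) P Q h.lab_first h.lab_last (fun i hi => h.lab_left hi)
    (fun i hi => h.lab_right hi) (fun i hi hS => h.lab_same hi hS)
    (fun i k hi hk => by
      refine ⟨h.pos i k hi hk, ?_⟩
      obtain ⟨k1, -, -, -⟩ := (h.con.mem_lay hi).1 hk
      obtain ⟨j, rfl⟩ : ∃ j, k = j + 1 := ⟨k - 1, by omega⟩
      exact zsignM i j)
    (fun i k hi hk => (hPQ i k hi hk).1) (fun i k hi hk => (hPQ i k hi hk).2.1)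
  refine ⟨Z, hZ, hC.trans ?_⟩
  have hs : Cg (∑ i ∈ Finset.range (R + 1), ∑ k ∈ layM R a S i,
        2 * rogers (zM S b W bL i k) (P i k) (Q i k))
      (∑ i ∈ Finset.range (R + 1), ∑ k ∈ layM R a S i, TkM R a S b W bL bR Y i k) :=
    Cg.sum _ fun i hi => Cg.sum _ fun k hk =>
      (hPQ i k (by have := Finset.mem_range.1 hi; omega) hk).2.2
  refine (hs.add (Cg.refl _)).trans ?_
  obtain ⟨n, hn⟩ := h.total
  rw [hn]
  exact ⟨n, rfl⟩

end withh

end Pool.Agent.S5.CV
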