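import Pool.Agent.S5.CV.CDefsM

/-!
# Stage 3b, complex volume: the Farey path of a mixed chain
-/

namespace Pool.Agent.S5.CV

open Pool.Agent.H63.VC Pool.Agent.H63.VC5 Pool.Agent.H1TB Complex
open Pool.Agent.S3.CV (cP cS clR om TriS_cS_succ TriS_cP_succ TriS_cS_zero TriS_cS_one)

variable {R : ℕ} {a : ℕ → ℕ} {S : ℕ → Bool} {b : Bool}

theorem ooH_oM {r : ℕ → ℤ} (hra : ∀ i, i ≤ R → (r i).natAbs = a i)
    (hrs : ∀ i, i < R → (S i = true ↔ 0 < r i * r (i + 1))) {i : ℕ} (hi : i ≤ R) :
    ooH r i = oM a S i := by
  induction i with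
  | zero => rfl
  | succ i ih =>
    rw [oM_succ, CGH_zz_succ, ih (by omega), hra i (by omega)]
    congr 1
    rcases hS : S i with _ | _
    · have h1 : ¬ 0 < r i * r (i + 1) := fun h0 => by
        have := (hrs i (by omega)).2 h0
        rw [hS] at this
        exact absurd this (by simp)
      rw [if_neg h1, lw_false hS]
      rfl
    · rw [if_pos ((hrs i (by omega)).1 hS), lw_true hS]

/-- The hinges of the Farey path. -/
theorem ConM.far (h : ConM R a S) {r : ℕ → ℤ} (hra : ∀ i, i ≤ R → (r i).natAbs = a i)
    (hrs : ∀ i, i < R → (S i = true ↔ 0 < r i * r (i + 1))) :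
    FarM (conwayH ((List.range (R + 1)).map r)) R a S := by
  have hr : ∀ i, i < R + 1 → 2 ≤ (r i).natAbs := fun i hi => by
    rw [hra i (by omega)]
    exact h.ha i (by omega)
  refine ⟨?_, ?_⟩
  · rw [conwayH_sum r R hr, ooH_oM hra hrs le_rfl, hra R le_rfl]
  · intro idx i k hi hk hk2 hidx
    have e := ooH_oM hra hrs hi
    rw [CGH_hinge hr hi hk (by rw [e]; exact hidx) (fun h0 => by
      rw [e, ooH_oM hra hrs (show i + 1 ≤ R by omega), oM_succ]
      have := hk2 h0
      omega)]
    constructor
    · rintro (⟨h1, h2⟩ | ⟨h1, h2, h3⟩)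
      · left
        rw [e, ooH_oM hra hrs (show i + 1 ≤ R by omega), oM_succ] at h2
        exact ⟨h1, by omega⟩
      · right
        obtain ⟨j, rfl⟩ : ∃ j, i = j + 1 := ⟨i - 1, by omega⟩
        exact ⟨h1, h2, (hrs j (by omega)).2 (by simpa using h3)⟩
    · rintro (⟨h1, h2⟩ | ⟨h1, h2, h3⟩)
      · left
        rw [e, ooH_oM hra hrs (show i + 1 ≤ R by omega), oM_succ]
        exact ⟨h1, by omega⟩
      · right
        obtain ⟨j, rfl⟩ : ∃ j, i = j + 1 := ⟨i - 1, by omega⟩
        exact ⟨h1, h2, by simpa using (hrs j (by omega)).1 (by simpa using h3)⟩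

/-- The numbers of the pivots. -/
def TriM_lp (a : ℕ → ℕ) (S : ℕ → Bool) (b : Bool) : ℕ → ℕ
  | 0 => if b then 1 else 2
  | i + 1 => oM a S i + a i + 1

/-- The numbers of the slopes of a fan. -/
def TriM_ls (a : ℕ → ℕ) (S : ℕ → Bool) (b : Bool) (i k : ℕ) : ℕ :=
  if k = 0 then (if i = 0 then 0 else TriM_lp a S b (i - 1))
  else if i = 0 ∧ k = 1 then (if b then 2 else 1)
  else if 0 < i ∧ k = 1 ∧ S (i - 1) = true then oM a S i + 1
  else oM a S i + k + 1

theorem TriM_ls_ge (a : ℕ → ℕ) (S : ℕ → Bool) (b : Bool) (i k : ℕ) (hk : 1 ≤ k)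
    (h : ¬ (i = 0 ∧ k = 1)) (h' : ¬ (0 < i ∧ k = 1 ∧ S (i - 1) = true)) :
    TriM_ls a S b i k = oM a S i + k + 1 := by
  unfold TriM_ls
  rw [if_neg (by omega), if_neg h, if_neg h']

theorem TriM_ls_zero (a : ℕ → ℕ) (S : ℕ → Bool) (b : Bool) (i : ℕ) :
    TriM_ls a S b (i + 1) 0 = TriM_lp a S b i := by
  unfold TriM_ls
  rw [if_pos rfl, if_neg (by omega)]
  rfl

theorem TriM_ls_one (a : ℕ → ℕ) (S : ℕ → Bool) (b : Bool) {i : ℕ} (h : S i = true) :
    TriM_ls a S b (i + 1) 1 = oM a S (i + 1) + 1 := by
  unfold TriM_ls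
  rw [if_neg (by omega), if_neg (by omega), if_pos ⟨by omega, rfl, by simpa using h⟩]

/-- The number of `S_{i,a_i-1}` before an edge with equal signs. -/
theorem ConM.ls_pred (h : ConM R a S) (b : Bool) {i : ℕ} (hi : i < R) (hS : S i = true) :
    TriM_ls a S b i (a i - 1) = oM a S i + a i := by
  have ha := h.ha i (by omega)
  rw [TriM_ls_ge a S b i (a i - 1) (by omega)]
  · omega
  · rintro ⟨h1, h2⟩
    subst h1
    have := h.hfst hS
    omega
  · rintro ⟨h1, h2, h3⟩
    obtain ⟨j, rfl⟩ : ∃ j, i = j + 1 := ⟨i - 1, by omega⟩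
    have := h.hmid j hi (by simpa using h3) hS
    omega

/-- The Farey path. -/
theorem TriM_main {A : List ℕ} (h : ConM R a S) (hA : FarM A R a S) (b : Bool) (idx : ℕ) :
    ∀ (i k : ℕ) (_hi : i ≤ R) (_hk : 1 ≤ k) (_hk2 : i < R → k ≤ lw a S i)
      (_hkR : i = R → k + 1 ≤ a i) (_hidx : idx + 1 = oM a S i + k),
    slo (turn A b) idx =
      (if lfM S b i then (TriM_lp a S b i, TriM_ls a S b i k, TriM_ls a S b i (k - 1))
        else (TriM_ls a S b i k, TriM_lp a S b i, TriM_ls a S b i (k - 1))) ∧
    cls (turn A b) idx = CM a S b i k ∧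
    turn A b idx = (if i < R ∧ k = lw a S i then !(lfM S b i) else lfM S b i) := by
  have hlw0 := h.lw0
  induction idx with
  | zero =>
    intro i k hi hk hk2 hkR hidx
    have h00 : oM a S 0 = 0 := rfl
    have hi0 : i = 0 := by
      by_contra h0
      have := h.oM1 (i := i) (by omega)
      omega
    subst hi0
    have hk1 : k = 1 := by omega
    subst hk1
    have hlast : ¬ (0 < R ∧ 1 = lw a S 0) := by omega
    rw [if_neg hlast]
    refine ⟨?_, ?_, ?_⟩
    · cases b <;> simp [slo, TriM_lp, TriM_ls, lfM]
    · cases b <;> simp [cls, CM, cP, cS, clR, lfM]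
    · rfl
  | succ idx ih =>
    intro i k hi hk hk2 hkR hidx
    have hhinge := hA.hin (idx + 1) i k hi hk hk2 hidx
    rcases Nat.lt_or_ge 1 k with hk3 | hk1
    · -- the same region
      obtain ⟨k, rfl⟩ : ∃ k', k = k' + 1 := ⟨k - 1, by omega⟩
      obtain ⟨g1, g2, g3⟩ := ih i k hi (by omega) (fun h0 => by have := hk2 h0; omega)
        (fun h0 => by have := hkR h0; omega) (by omega)
      rw [if_neg (by rintro ⟨h1, h2⟩; have := hk2 h1; omega)] at g3
      have hls : TriM_ls a S b i (k + 1) = idx + 3 := by
        rw [TriM_ls_ge a S b i (k + 1) (by omega) (by omega) (by omega)]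
        omega
      have hcs : cS a b i (k - 1) = cS a b i (k + 1) := by
        obtain ⟨k', rfl⟩ : ∃ k', k = k' + 1 := ⟨k - 1, by omega⟩
        rw [Nat.add_sub_cancel, TriS_cS_succ]
      refine ⟨?_, ?_, ?_⟩
      · rw [slo, g1, g3, Nat.add_sub_cancel, hls]
        cases h : lfM S b i <;> simp
      · rw [cls, g2, g3]
        unfold CM
        rw [Nat.add_sub_cancel, hcs]
        cases h : lfM S b i <;> simp
      · rw [turn, g3]
        by_cases h1 : i < R ∧ k + 1 = lw a S i
        · rw [if_pos (hhinge.2 (Or.inl h1)), if_pos h1]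
        · rw [if_neg h1, if_neg]
          intro h'
          rcases hhinge.1 h' with h2 | ⟨-, h2, -⟩
          · exact h1 h2
          · omega
    · -- the first layer of a region
      have hk1 : k = 1 := by omega
      subst hk1
      have h00 : oM a S 0 = 0 := rfl
      have hi0 : i ≠ 0 := by
        rintro rfl
        omega
      obtain ⟨j, rfl⟩ : ∃ j, i = j + 1 := ⟨i - 1, by omega⟩
      have h2 := h.ha (j + 1) hi
      have h3 := h.ha j (by omega)
      have h4 := oM_succ a S j
      have h5 := le_lw a S j
      have h6 := lw_le a S j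
      obtain ⟨g1, g2, g3⟩ := ih j (lw a S j) (by omega) (by omega) (fun _ => le_rfl)
        (fun h0 => by omega) (by omega)
      rw [if_pos ⟨by omega, rfl⟩] at g3
      have e3 : TriM_ls a S b (j + 1) (1 - 1) = TriM_lp a S b j := TriM_ls_zero a S b j
      have e6 : cS a b (j + 1) (1 - 1) = cP a b j := TriS_cS_zero a b j
      rcases hS : S j with _ | _
      · -- opposite signs
        have hlw := lw_false (a := a) hS
        rw [hlw] at g1 g2 h4
        have hlf : lfM S b (j + 1) = !(lfM S b j) := by
          show (if S j then lfM S b j else !(lfM S b j)) = _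
          rw [hS]
          rfl
        have e1 : TriM_ls a S b j (a j) = TriM_lp a S b (j + 1) := by
          rw [TriM_ls_ge a S b j _ (by omega) (by omega) (by omega)]
          rfl
        have e2 : TriM_ls a S b (j + 1) 1 = idx + 3 := by
          rw [TriM_ls_ge a S b (j + 1) 1 le_rfl (by omega) (by
            rintro ⟨-, -, h7⟩
            rw [Nat.add_sub_cancel, hS] at h7
            exact absurd h7 (by simp))]
          omega
        have e5 : cS a b j (a j - 1) = cS a b (j + 1) 1 := by
          rw [TriS_cS_one]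
          obtain ⟨m, hm⟩ : ∃ m, a j = m + 1 := ⟨a j - 1, by omega⟩
          rw [hm, Nat.add_sub_cancel]
          exact (TriS_cS_succ a b j m).symm
        refine ⟨?_, ?_, ?_⟩
        · rw [slo, g1, g3, e2, e3, hlf, ← e1]
          cases h : lfM S b j <;> simp
        · rw [cls, g2, g3]
          unfold CM
          rw [e6, hlf, e5, TriS_cP_succ]
          cases h : lfM S b j <;> simp
        · by_cases h1 : j + 1 < R ∧ 1 = lw a S (j + 1)
          · rw [turn, if_pos (hhinge.2 (Or.inl h1)), if_pos h1, g3, hlf]
          · rw [if_neg h1, turn, if_neg, g3, hlf]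
            intro h'
            rcases hhinge.1 h' with h2 | ⟨-, -, h2⟩
            · exact h1 h2
            · rw [Nat.add_sub_cancel, hS] at h2
              exact absurd h2 (by simp)
      · -- equal signs
        have hlw := lw_true (a := a) hS
        rw [hlw] at g1 g2 h4
        have hlf : lfM S b (j + 1) = lfM S b j := by
          show (if S j then lfM S b j else !(lfM S b j)) = _
          rw [hS]
          rfl
        have e1 : TriM_ls a S b (j + 1) 1 = TriM_ls a S b j (a j - 1) := by
          rw [h.ls_pred b (by omega) hS, TriM_ls_one a S b hS]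
          omega
        have e2 : TriM_lp a S b (j + 1) = idx + 3 := by
          show oM a S j + a j + 1 = _
          omega
        have e5 : cS a b j (a j - 1) = cS a b (j + 1) 1 := by
          rw [TriS_cS_one]
          obtain ⟨m, hm⟩ : ∃ m, a j = m + 1 := ⟨a j - 1, by omega⟩
          rw [hm, Nat.add_sub_cancel]
          exact (TriS_cS_succ a b j m).symm
        have e7 : cS a b j (a j - 1 - 1) = cP a b (j + 1) := by
          rw [TriS_cP_succ]
          obtain ⟨m, hm⟩ : ∃ m, a j = m + 2 := ⟨a j - 2, by omega⟩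
          rw [hm]
          exact (TriS_cS_succ a b j m).symm
        refine ⟨?_, ?_, ?_⟩
        · rw [slo, g1, g3, e2, e3, hlf, e1]
          cases h : lfM S b j <;> simp
        · rw [cls, g2, g3]
          unfold CM
          rw [e6, hlf, e5, e7]
          cases h : lfM S b j <;> simp
        · have hh : IsHinge A (idx + 1) := hhinge.2 (Or.inr ⟨by omega, rfl, by simpa using hS⟩)
          have h1 : ¬ (j + 1 < R ∧ 1 = lw a S (j + 1)) := by
            rintro ⟨h7, h8⟩
            rcases hS1 : S (j + 1) with _ | _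
            · rw [lw_false hS1] at h8
              omega
            · rw [lw_true hS1] at h8
              have := h.hmid j h7 hS hS1
              omega
          rw [turn, if_pos hh, if_neg h1, g3, hlf, Bool.not_not]

/-- The label function. -/
noncomputable def TriM_l (R : ℕ) (a : ℕ → ℕ) (S : ℕ → Bool) (LP : ℕ → ℂ) (lam : ℕ → ℕ → ℂ)
    (n : ℕ) : ℂ :=
  if n ≤ 2 then LP 0
  else lgNM a lam (regM R a S (n - 3)) (n - 2 - oM a S (regM R a S (n - 3)))

theorem TriM_gen (LP : ℕ → ℂ) (lam : ℕ → ℕ → ℂ) {i k n : ℕ} (hi : i ≤ R)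
    (hk : 1 ≤ k) (hk2 : i < R → k ≤ lw a S i) (hn : n = oM a S i + k + 2) :
    TriM_l R a S LP lam n = lgNM a lam i k := by
  have h := regM_eq (R := R) (idx := n - 3) hi hk hk2 (by omega)
  have e : n - 2 - oM a S i = k := by omega
  unfold TriM_l
  rw [if_neg (by omega), h, e]

/-- A function on the slopes with prescribed values. -/
theorem ConM.exists_lab (h : ConM R a S) {A : List ℕ} (hA : FarM A R a S) (b : Bool)
    (LP : ℕ → ℂ) (lam : ℕ → ℕ → ℂ) (h01 : lam 0 1 = LP 0) (hend : lam R (a R - 1) = LP R)
    (hl : ∀ i, i < R → lam (i + 1) 0 = LP i) (hrr : ∀ i, i < R → lam i (a i) = LP (i + 1))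
    (hs : ∀ i, i < R → S i = true → lam (i + 1) 1 = lam i (a i - 1)) :
    ∃ l : ℕ → ℂ, l 1 = l 2 ∧
      l (slo (turn A b) (A.sum - 2)).1 = l (slo (turn A b) (A.sum - 2)).2.1 ∧
      ∀ i k idx, i ≤ R → k ∈ layM R a S i → idx + 1 = oM a S i + k →
        l (slo (turn A b) idx).1 = lgLM S b LP lam i k ∧
        l (slo (turn A b) idx).2.1 = lgRM S b LP lam i k ∧
        l (slo (turn A b) idx).2.2 = lam i (k - 1) ∧
        l (idx + 3) = lgNM a lam i k := by
  have h00 : oM a S 0 = 0 := rfl
  have l1 : ∀ n, n ≤ 2 → TriM_l R a S LP lam n = LP 0 := fun n hn => by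
    unfold TriM_l
    rw [if_pos hn]
  have hR := h.hR
  -- the pivots
  have hP : ∀ i, i ≤ R → TriM_l R a S LP lam (TriM_lp a S b i) = LP i := by
    intro i hi
    rcases i with _ | i
    · show TriM_l R a S LP lam (if b then 1 else 2) = LP 0
      split_ifs
      · exact l1 _ (by omega)
      · exact l1 _ (by omega)
    · have hpi := h.ha i (by omega)
      have hle := le_lw a S i
      have e : TriM_lp a S b (i + 1) = oM a S i + (a i - 1) + 2 := by
        show oM a S i + a i + 1 = _
        omega
      rw [e, TriM_gen LP lam (i := i) (k := a i - 1) (by omega) (by omega) (fun _ => hle) rfl]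
      unfold lgNM
      rw [if_neg (by omega), ← hrr i (by omega)]
      congr 1
      omega
  -- the slopes of the fans
  have hSS : ∀ i k, i ≤ R → 1 ≤ k → (i < R → k ≤ lw a S i) → (i = R → k + 1 ≤ a i) →
      TriM_l R a S LP lam (TriM_ls a S b i k) = lam i k := by
    intro i
    induction i with
    | zero =>
      intro k hi hk hk2 hkR
      by_cases hk1 : k = 1
      · subst hk1
        unfold TriM_ls
        rw [if_neg one_ne_zero, if_pos ⟨rfl, rfl⟩, h01]
        split_ifs
        · exact l1 _ (by omega)
        · exact l1 _ (by omega)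
      · have h1 := lw_le a S 0
        have h2 := hk2 (by omega)
        rw [TriM_ls_ge a S b 0 k hk (by omega) (by omega),
          TriM_gen LP lam (i := 0) (k := k - 1) hi (by omega) (fun _ => by omega) (by omega)]
        unfold lgNM
        rw [if_neg (by omega)]
        congr 1
        omega
    | succ i ih =>
      intro k hi hk hk2 hkR
      have hai := h.ha i (by omega)
      have hle := le_lw a S i
      by_cases hk1 : k = 1
      · subst hk1
        rcases hS : S i with _ | _
        · rw [TriM_ls_ge a S b (i + 1) 1 hk (by omega) (by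
            rintro ⟨-, -, h7⟩
            rw [Nat.add_sub_cancel, hS] at h7
            exact absurd h7 (by simp))]
          have hlw := lw_false (a := a) hS
          rw [TriM_gen LP lam (i := i) (k := a i) (by omega) (by omega) (fun _ => by omega)
            (by rw [oM_succ, hlw])]
          unfold lgNM
          rw [if_pos rfl]
        · have hlw := lw_true (a := a) hS
          have e1 : TriM_ls a S b (i + 1) 1 = TriM_ls a S b i (a i - 1) := by
            rw [h.ls_pred b (by omega) hS, TriM_ls_one a S b hS, oM_succ, hlw]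
            omega
          rw [e1, ih (a i - 1) (by omega) (by omega) (fun _ => by omega) (fun _ => by omega),
            hs i (by omega) hS]
      · have hne : ¬ k - 1 = a (i + 1) := by
          rcases Nat.lt_or_ge (i + 1) R with h1 | h1
          · have h2 := hk2 h1
            have h3 := lw_le a S (i + 1)
            omega
          · have h2 := hkR (by omega)
            omega
        rw [TriM_ls_ge a S b (i + 1) k hk (by omega) (by omega),
          TriM_gen LP lam (i := i + 1) (k := k - 1) hi (by omega)
            (fun h0 => by have := hk2 h0; omega) (by omega)]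
        unfold lgNM
        rw [if_neg hne]
        congr 1
        omega
  refine ⟨TriM_l R a S LP lam, by rw [l1 1 (by omega), l1 2 (by omega)], ?_, ?_⟩
  · rw [hA.sum]
    have h2 := h.ha R le_rfl
    obtain ⟨g1, -, -⟩ := TriM_main h hA b (oM a S R + a R - 2) R (a R - 1) le_rfl (by omega)
      (by omega) (by omega) (by omega)
    have e1 := hP R le_rfl
    have e2 := hSS R (a R - 1) le_rfl (by omega) (by omega) (by omega)
    rw [g1]
    cases h : lfM S b R
    · rw [if_neg (by simp)]
      show TriM_l R a S LP lam (TriM_ls a S b R (a R - 1)) =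
        TriM_l R a S LP lam (TriM_lp a S b R)
      rw [e1, e2, hend]
    · rw [if_pos rfl]
      show TriM_l R a S LP lam (TriM_lp a S b R) =
        TriM_l R a S LP lam (TriM_ls a S b R (a R - 1))
      rw [e1, e2, hend]
  · intro i k idx hi hkl hidx
    obtain ⟨hk, hk0, hk2, hkR⟩ := (h.mem_lay hi).1 hkl
    obtain ⟨g1, -, -⟩ := TriM_main h hA b idx i k hi hk hk2
      (fun h0 => by have := hkR h0; omega) hidx
    have e1 := hP i hi
    have e2 := hSS i k hi hk hk2 (fun h0 => by have := hkR h0; omega)
    have e3 : TriM_l R a S LP lam (TriM_ls a S b i (k - 1)) = lam i (k - 1) := by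
      rcases Nat.lt_or_ge k 2 with h5 | h5
      · have h6 : k = 1 := by omega
        subst h6
        obtain ⟨j, rfl⟩ : ∃ j, i = j + 1 := ⟨i - 1, by omega⟩
        have e : TriM_ls a S b (j + 1) (1 - 1) = TriM_lp a S b j := TriM_ls_zero a S b j
        rw [e, hP j (by omega)]
        exact (hl j (by omega)).symm
      · exact hSS i (k - 1) hi (by omega) (fun h0 => by have := hk2 h0; omega)
          (fun h0 => by have := hkR h0; omega)
    have e4 : TriM_l R a S LP lam (idx + 3) = lgNM a lam i k :=
      TriM_gen LP lam hi hk hk2 (by omega)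
    refine ⟨?_, ?_, ?_, e4⟩
    · rw [g1]
      unfold lgLM
      cases h : lfM S b i
      · rw [if_neg (by simp), if_neg (by simp)]
        exact e2
      · rw [if_pos rfl, if_pos rfl]
        exact e1
    · rw [g1]
      unfold lgRM
      cases h : lfM S b i
      · rw [if_neg (by simp), if_neg (by simp)]
        exact e1
      · rw [if_pos rfl, if_pos rfl]
        exact e2
    · rw [g1]
      cases h : lfM S b i
      · rw [if_neg (by simp)]
        exact e3
      · rw [if_pos rfl]
        exact e3

end Pool.Agent.S5.CV
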